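import Mathlib
import Pool.Agent.P.MP_2e9c36_lc.Defs
import Pool.Agent.Lib.PosetForcing.Card
import Pool.Agent.Lib.PosetForcing.Names

-- part Pool.Agent.P.MP_2e9c36_lc.Meas
section

set_option autoImplicit false
set_option linter.unusedSectionVars false

/-! Normal measures on a well-ordered type, pressing down, successor cardinals. -/

open Cardinal Set Filter

namespace Pool.Agent.P.MP_2e9c36_lc

universe u

/-- a normal measure on the well-ordered type `K` -/
class NM (K : Type u) [LinearOrder K] where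
  /-- the ultrafilter -/
  U : Ultrafilter K
  unc : ℵ₀ < #K
  small : ∀ x : K, #(Iio x) < #K
  comp : ∀ (ι : Type u) (S : ι → Set K), #ι < #K → (∀ i, S i ∈ U) → (⋂ i, S i) ∈ U
  tail : ∀ x, Ioi x ∈ U
  normal : ∀ f : K → K, {β | f β < β} ∈ U → ∃ x, {β | f β = x} ∈ U

variable {K : Type u} [LinearOrder K]

/-- cardinality of an initial segment -/
def cd (x : K) : Cardinal.{u} := #(Iio x)

theorem cd_mono {x y : K} (h : x ≤ y) : cd x ≤ cd y := mk_le_mk_of_subset (Iio_subset_Iio h)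

variable [NM K]

variable (K) in
/-- the measure as a filter -/
def UF : Filter K := (NM.U : Ultrafilter K)

instance : (UF K).NeBot := (NM.U : Ultrafilter K).neBot

theorem ae_em (p : K → Prop) : (∀ᶠ x in UF K, p x) ∨ ∀ᶠ x in UF K, ¬ p x :=
  (NM.U : Ultrafilter K).em p

theorem ae_not {p : K → Prop} (h : ¬ ∀ᶠ x in UF K, p x) : ∀ᶠ x in UF K, ¬ p x :=
  (ae_em p).resolve_left h

theorem cd_lt (x : K) : cd x < #K := NM.small x

theorem ae_gt (x : K) : ∀ᶠ y in UF K, x < y := NM.tail x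

theorem ae_all {ι : Type u} (h : #ι < #K) {p : ι → K → Prop} (hp : ∀ i, ∀ᶠ x in UF K, p i x) :
    ∀ᶠ x in UF K, ∀ i, p i x :=
  Filter.mem_of_superset (NM.comp ι (fun i => {x | p i x}) h hp) fun _ hx i => mem_iInter.1 hx i

theorem ae_all_set {ι : Type u} {S : Set ι} (h : #S < #K) {p : ι → K → Prop}
    (hp : ∀ i ∈ S, ∀ᶠ x in UF K, p i x) : ∀ᶠ x in UF K, ∀ i ∈ S, p i x :=
  (ae_all (ι := S) h (p := fun i x => p i x) fun i => hp i i.2).mono fun _ hx i hi => hx ⟨i, hi⟩

theorem ae_all_nat {p : ℕ → K → Prop} (hp : ∀ i, ∀ᶠ x in UF K, p i x) :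
    ∀ᶠ x in UF K, ∀ i, p i x :=
  (ae_all (ι := ULift.{u} ℕ) (by simpa using (NM.unc : ℵ₀ < #K)) (p := fun i x => p i.down x)
    fun i => hp i.down).mono fun _ hx i => hx ⟨i⟩

theorem ae_const_small {X : Type u} {S : Set X} (h : #S < #K) {f : K → X}
    (hf : ∀ᶠ x in UF K, f x ∈ S) : ∃ y, ∀ᶠ x in UF K, f x = y := by
  by_contra hcon
  rw [not_exists] at hcon
  obtain ⟨x, h1, h2⟩ := (hf.and (ae_all_set h (p := fun y x => f x ≠ y)
    fun y _ => ae_not (hcon y))).exists
  exact h2 _ h1 rfl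

theorem ae_const_nat (f : K → ℕ) : ∃ y, ∀ᶠ x in UF K, f x = y := by
  by_contra hcon
  rw [not_exists] at hcon
  obtain ⟨x, h2⟩ := (ae_all_nat (p := fun y x => f x ≠ y) fun y => ae_not (hcon y)).exists
  exact h2 _ rfl

theorem ae_bdd {S : Set K} (h : #S < #K) : ∀ᶠ x in UF K, ∀ y ∈ S, y < x :=
  ae_all_set h fun y _ => ae_gt y

theorem two_pow_lt {θ : Cardinal.{u}} (h : θ < #K) : 2 ^ θ < #K := by
  by_contra hcon
  push Not at hcon
  have h1 : #K ≤ #(θ.out → Bool) := by simpa using hcon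
  obtain ⟨j⟩ := (Cardinal.le_def _ _).1 h1
  have h2 : ∀ i : θ.out, ∃ b, ∀ᶠ x in UF K, j x i = b := fun i => by
    rcases ae_em (fun x => j x i = true) with h | h
    · exact ⟨true, h⟩
    · exact ⟨false, h.mono fun x hx => by simpa using hx⟩
  choose b hb using h2
  have h3 := ae_all (ι := θ.out) (by simpa using h) hb
  obtain ⟨x, hx⟩ := h3.exists
  obtain ⟨y, hy, hxy⟩ := (h3.and (ae_gt x)).exists
  exact hxy.ne (j.injective (funext fun i => (hx i).trans (hy i).symm))

theorem exists_cd_gt {θ : Cardinal.{u}} (h : θ < #K) : ∃ y : K, θ < cd y := by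
  obtain ⟨S, hS⟩ := Cardinal.le_mk_iff_exists_set.1 (two_pow_lt h).le
  obtain ⟨y, hy⟩ := (ae_bdd (S := S) (hS ▸ two_pow_lt h)).exists
  exact ⟨y, (Cardinal.cantor θ).trans_le (hS ▸ mk_le_mk_of_subset hy)⟩

/-- pressing down holds for the relation `lt` -/
def Press {X : Type*} (lt : X → K → Prop) : Prop :=
  ∀ f : K → X, (∀ᶠ β in UF K, lt (f β) β) → ∃ x, ∀ᶠ β in UF K, f β = x

theorem press_lt : Press fun x β : K => x < β := NM.normal

theorem press_nat : Press fun (_ : ℕ) (_ : K) => True := fun f _ => ae_const_nat f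

theorem Press.mono {X : Type*} {lt lt' : X → K → Prop} (h : Press lt)
    (e : ∀ᶠ β in UF K, ∀ x, lt' x β → lt x β) : Press lt' :=
  fun f hf => h f ((hf.and e).mono fun _ h => h.2 _ h.1)

theorem Press.prod {X Y : Type*} {lt : X → K → Prop} {lt' : Y → K → Prop} (h : Press lt)
    (h' : Press lt') : Press fun (x : X × Y) β => lt x.1 β ∧ lt' x.2 β := fun f hf => by
  obtain ⟨x, hx⟩ := h (fun β => (f β).1) (hf.mono fun _ h => h.1)
  obtain ⟨y, hy⟩ := h' (fun β => (f β).2) (hf.mono fun _ h => h.2)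
  exact ⟨(x, y), (hx.and hy).mono fun _ h => Prod.ext h.1 h.2⟩

theorem Press.list {X : Type*} {lt : X → K → Prop} (h : Press lt) :
    Press fun (l : List X) β => ∀ x ∈ l, lt x β := fun f hf => by
  obtain ⟨n, hn⟩ := ae_const_nat fun β => (f β).length
  induction n generalizing f with
  | zero => exact ⟨[], hn.mono fun _ h => List.length_eq_zero_iff.1 h⟩
  | succ n ih =>
    obtain ⟨l, hl⟩ := ih (fun β => (f β).tail)
      (hf.mono fun _ h x hx => h x (List.mem_of_mem_tail hx)) (hn.mono fun _ h => by simp [h])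
    obtain ⟨β0, h0⟩ := hn.exists
    obtain ⟨x0, -⟩ := List.exists_mem_of_length_pos (l := f β0) (by omega)
    obtain ⟨x, hx⟩ := h (fun β => (f β).headD x0) ((hf.and hn).mono fun β h => by
      rcases e : f β with _ | ⟨a, t⟩
      · simp [e] at h
      · exact h.1 a (by simp [e]))
    refine ⟨x :: l, (hn.and (hx.and hl)).mono fun β h => ?_⟩
    rcases e : f β with _ | ⟨a, t⟩
    · simp [e] at h
    · simpa [e] using h.2

theorem Press.diag {X : Type*} {lt : X → K → Prop} (h : Press lt) {p : X → K → Prop}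
    (hp : ∀ x, ∀ᶠ β in UF K, p x β) : ∀ᶠ β in UF K, ∀ x, lt x β → p x β := by
  by_contra hcon
  have h1 := ae_not hcon
  obtain ⟨β0, h0⟩ := h1.exists
  push Not at h0
  obtain ⟨x0, -⟩ := h0
  have h2 : ∀ β, ∃ x, (¬ ∀ x, lt x β → p x β) → lt x β ∧ ¬ p x β := fun β => by
    by_cases hβ : ∀ x, lt x β → p x β
    · exact ⟨x0, fun h => absurd hβ h⟩
    · push Not at hβ
      obtain ⟨x, hx⟩ := hβ
      exact ⟨x, fun _ => hx⟩
  choose f hf using h2
  obtain ⟨x, hx⟩ := h f (h1.mono fun β h => (hf β h).1)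
  obtain ⟨β, g1, g2, g3⟩ := (h1.and (hx.and (hp x))).exists
  exact (hf β g1).2 (g2 ▸ g3)

theorem Press.set {X : Type u} {lt : X → K → Prop} (h : Press lt) {θ : Cardinal.{u}}
    (hθ : θ < #K) : Press fun (c : Set X) β => #c ≤ θ ∧ ∀ x ∈ c, lt x β := fun f hf => by
  classical
  have h1 : ∀ c : Set X, ∃ e : θ.out → List X, #c ≤ θ → ∀ x, x ∈ c ↔ ∃ i, x ∈ e i := fun c => by
    by_cases hc : #c ≤ θ
    · obtain ⟨j⟩ := (Cardinal.le_def c θ.out).1 (by simpa using hc)
      refine ⟨fun i => if h : ∃ x, j x = i then [h.choose.1] else [], fun _ x => ⟨fun hx => ?_, ?_⟩⟩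
      · have h : ∃ y, j y = j ⟨x, hx⟩ := ⟨_, rfl⟩
        refine ⟨j ⟨x, hx⟩, ?_⟩
        beta_reduce
        rw [dif_pos h, j.injective h.choose_spec]
        simp
      · rintro ⟨i, hi⟩
        beta_reduce at hi
        split_ifs at hi with h
        · rw [List.mem_singleton.1 hi]
          exact h.choose.2
        · simp at hi
    · exact ⟨fun _ => [], fun h => absurd h hc⟩
  choose e he using h1
  choose l hl using fun i : θ.out => h.list (fun β => e (f β) i)
    (hf.mono fun β h x hx => h.2 x ((he _ h.1 x).2 ⟨i, hx⟩))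
  refine ⟨{x | ∃ i, x ∈ l i}, (hf.and (ae_all (ι := θ.out) (by simpa using hθ) hl)).mono
    fun β h => Set.ext fun x => ?_⟩
  rw [he _ h.1.1]
  simp only [h.2, mem_ofPred_eq]

/-- objects subject to pressing down are few below most points -/
theorem Press.count {X : Type u} {lt : X → K → Prop} (h : Press lt) {S : Set X} (hS : #S ≤ #K)
    (e : ∀ x β, lt x β → x ∈ S) : ∀ᶠ β in UF K, #{x | lt x β} ≤ cd β := by
  obtain ⟨j⟩ := (Cardinal.le_def S K).1 hS
  have h1 := h.diag (p := fun x β => ∀ hx : x ∈ S, j ⟨x, hx⟩ < β) fun x => by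
    by_cases hx : x ∈ S
    · exact (ae_gt (j ⟨x, hx⟩)).mono fun _ h _ => h
    · exact Eventually.of_forall fun _ h => absurd h hx
  refine h1.mono fun β hβ => mk_le_of_injective
    (f := fun x : {x | lt x β} => (⟨j ⟨x.1, e _ _ x.2⟩, hβ _ x.2 _⟩ : Iio β)) fun x y hxy => ?_
  have h2 := j.injective (congrArg Subtype.val hxy)
  exact Subtype.ext (by simpa using h2)

variable [WellFoundedLT K]

/-- the least point whose initial segment has more than `θ` elements -/
noncomputable def above (θ : Cardinal.{u}) (h : θ < #K) : K :=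
  (wellFounded_lt (α := K)).min {y | θ < cd y} (exists_cd_gt h)

/-- the successor cardinal -/
noncomputable def sc (x : K) : K := above (cd x) (cd_lt x)

theorem cd_lt_sc (x : K) : cd x < cd (sc x) :=
  (wellFounded_lt (α := K)).min_mem {y | cd x < cd y} (exists_cd_gt (cd_lt x))

theorem cd_le_of_lt_sc {x y : K} (h : y < sc x) : cd y ≤ cd x := by
  by_contra hcon
  exact (wellFounded_lt (α := K)).not_lt_min {y | cd x < cd y} (not_le.1 hcon) h

theorem lt_sc (x : K) : x < sc x := by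
  by_contra h
  exact absurd (cd_lt_sc x) (not_lt.2 (cd_mono (not_lt.1 h)))

theorem sc_mono {x y : K} (h : x ≤ y) : sc x ≤ sc y := by
  by_contra hcon
  exact absurd ((cd_mono h).trans_lt (cd_lt_sc y)) (not_lt.2 (cd_le_of_lt_sc (not_le.1 hcon)))

theorem mk_Iic_le {x : K} {θ : Cardinal.{u}} (hθ : ℵ₀ ≤ θ) (h : cd x ≤ θ) : #(Iic x) ≤ θ := by
  rw [← Iio_insert]
  exact mk_insert_le.trans (add_le_of_le hθ h (one_le_aleph0.trans hθ))

theorem mk_biUnion_le_of {ι X : Type u} {S : Set ι} {θ : Cardinal.{u}} (hθ : ℵ₀ ≤ θ)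
    (hS : #S ≤ θ) {A : ι → Set X} (hA : ∀ i ∈ S, #(A i) ≤ θ) : #(⋃ i ∈ S, A i) ≤ θ := by
  refine (mk_biUnion_le A S).trans ?_
  exact (mul_le_mul' hS (ciSup_le' fun i : S => hA i i.2)).trans (mul_eq_self hθ).le

/-- small sets are bounded below a successor cardinal -/
theorem bdd_sc {x : K} (hx : ℵ₀ ≤ cd x) {S : Set K} (hS : #S ≤ cd x) (h : ∀ y ∈ S, y < sc x) :
    ∃ z < sc x, ∀ y ∈ S, y < z := by
  by_contra hcon
  push Not at hcon
  have h1 : Iio (sc x) ⊆ ⋃ y ∈ S, Iic y := fun z hz => by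
    obtain ⟨y, hy, h2⟩ := hcon z hz
    exact mem_biUnion hy h2
  exact absurd (cd_lt_sc x) (not_lt.2 ((mk_le_mk_of_subset h1).trans (mk_biUnion_le_of hx hS
    fun y hy => mk_Iic_le hx (cd_le_of_lt_sc (h y hy)))))

variable (K) in
/-- the first infinite point -/
noncomputable def al0 : K := (wellFounded_lt (α := K)).min {y | ℵ₀ ≤ cd y}
  ((exists_cd_gt (NM.unc : ℵ₀ < #K)).imp fun _ h => h.le)

variable (K) in
/-- the points `ℵ_n` -/
noncomputable def al : ℕ → K
  | 0 => al0 K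
  | n + 1 => sc (al n)

theorem aleph0_le_al0 : ℵ₀ ≤ cd (al K 0) :=
  (wellFounded_lt (α := K)).min_mem {y | ℵ₀ ≤ cd y}
    ((exists_cd_gt (NM.unc : ℵ₀ < #K)).imp fun _ h => h.le)

theorem finite_of_lt_al0 {x : K} (h : x < al K 0) : (Iio x).Finite := by
  by_contra hcon
  exact (wellFounded_lt (α := K)).not_lt_min {y | ℵ₀ ≤ cd y}
    (aleph0_le_mk_iff.2 (Set.infinite_coe_iff.2 hcon)) h

theorem al_strictMono : StrictMono (al K) := strictMono_nat_of_lt_succ fun n => lt_sc (al K n)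

theorem aleph0_le_cd {x : K} {n : ℕ} (h : al K n ≤ x) : ℵ₀ ≤ cd x :=
  aleph0_le_al0.trans (cd_mono ((al_strictMono.monotone (Nat.zero_le n)).trans h))

theorem countable_al0 : (Iio (al K 0)).Countable := by
  have h1 : Function.Injective fun x : Iio (al K 0) => (Iio x.1).ncard := by
    refine StrictMono.injective fun x y hxy => ?_
    exact Set.ncard_lt_ncard ⟨Iio_subset_Iio (le_of_lt hxy), fun h => lt_irrefl _ (h hxy)⟩
      (finite_of_lt_al0 y.2)
  exact h1.countable

theorem cd_al0 : cd (al K 0) = ℵ₀ :=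
  le_antisymm (Cardinal.le_aleph0_iff_set_countable.2 countable_al0) aleph0_le_al0

theorem mk_list_le {X : Type u} {S : Set X} {θ : Cardinal.{u}} (hθ : ℵ₀ ≤ θ) (h : #S ≤ θ) :
    #{l : List X | ∀ x ∈ l, x ∈ S} ≤ θ := by
  have h1 : {l : List X | ∀ x ∈ l, x ∈ S} ⊆ range (List.map (Subtype.val : S → X)) := by
    intro l hl
    exact ⟨l.attachWith _ hl, by simp⟩
  exact (mk_le_mk_of_subset h1).trans (mk_range_le.trans ((mk_list_le_max S).trans (max_le hθ h)))

end Pool.Agent.P.MP_2e9c36_lc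
end

-- part Pool.Agent.P.MP_2e9c36_lc.Ords
section

set_option autoImplicit false
set_option linter.unusedSectionVars false

/-! General facts on names: ordinals, finite sequences, cofinal maps. -/

open Cardinal Set Filter Pool.Agent.Lib.PosetForcing

namespace Pool.Agent.P.MP_2e9c36_lc

universe u

variable {P : Type u} [Preorder P]

instance clopen_isSuccCard (a b : Name P) :
    Clopen fun U : Gen P => IsSuccCard Mod.mem (a.val U) (b.val U) := by
  unfold IsSuccCard; infer_instance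

instance clopen_isSeq (a b c : Name P) :
    Clopen fun U : Gen P => IsSeq Mod.mem (a.val U) (b.val U) (c.val U) := by
  unfold IsSeq; infer_instance

instance clopen_isAlg (a b c : Name P) :
    Clopen fun U : Gen P => IsAlg Mod.mem (a.val U) (b.val U) (c.val U) := by
  unfold IsAlg; infer_instance

instance clopen_closed (a b c : Name P) :
    Clopen fun U : Gen P => Closed Mod.mem (a.val U) (b.val U) (c.val U) := by
  unfold Closed; infer_instance

instance clopen_cofinal (a b c : Name P) :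
    Clopen fun U : Gen P => Cofinal Mod.mem (a.val U) (b.val U) (c.val U) := by
  unfold Cofinal; infer_instance

instance clopen_isCof (a b : Name P) :
    Clopen fun U : Gen P => IsCof Mod.mem (a.val U) (b.val U) := by
  unfold IsCof; infer_instance

instance clopen_isSupBelow (a b c : Name P) :
    Clopen fun U : Gen P => IsSupBelow Mod.mem (a.val U) (b.val U) (c.val U) := by
  unfold IsSupBelow; infer_instance

variable [OrderTop P]

/-- the name of the set of numbers congruent to `2` modulo `3` -/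
def eName : Name P := fam fun n : ULift.{u} ℕ => natName (3 * n.down + 2)

theorem natName_mem_e (m : ℕ) (U : Gen P) :
    Mod.mem ((natName m).val U) (eName.val U) ↔ m % 3 = 2 := by
  constructor
  · intro h
    exact forall_mem_fam (Φ := fun U x => x = (natName m).val U → m % 3 = 2)
      (fun i U h => by rw [← natName_inj h]; omega) U _ h rfl
  · intro h
    rw [show m = 3 * (m / 3) + 2 by omega]
    exact mem_fam (fun n : ULift.{u} ℕ => natName (3 * n.down + 2)) ⟨m / 3⟩ U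

theorem eq_natName_zero {U : Gen P} {e : Mod U} (he : ∀ z, ¬ Mod.mem z e) :
    e = (natName 0).val U := Mod.ext _ _ fun z => by simp [mem_natName, he]

theorem eq_natName_succ {U : Gen P} {y : Mod U} {n : ℕ}
    (hy : IsSucc Mod.mem y ((natName n).val U)) : y = (natName (n + 1)).val U :=
  Mod.ext _ _ fun z => (hy z).trans (natName_succ n U z).symm

theorem isTwoMod3_e (U : Gen P) : IsTwoMod3 Mod.mem (eName.val U) (omegaName.val U) := by
  refine ⟨forall_mem_fam (Φ := fun U x => Mod.mem x (omegaName.val U))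
    (fun i U => natName_mem_omega _ U) U, fun x0 x1 x2 h0 h1 h2 => ?_, fun x0 x1 x2 x3 hx => ?_⟩
  · obtain rfl := eq_natName_zero h0
    obtain rfl := eq_natName_succ h1
    obtain rfl := eq_natName_succ h2
    simp [natName_mem_e]
  · revert x1 x2 x3
    refine forall_mem_omega (Φ := fun U x0 => ∀ x1 x2 x3, IsSucc Mod.mem x1 x0 →
      IsSucc Mod.mem x2 x1 → IsSucc Mod.mem x3 x2 →
      (Mod.mem x3 (eName.val U) ↔ Mod.mem x0 (eName.val U)))
      (fun n U x1 x2 x3 h1 h2 h3 => ?_) U x0 hx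
    obtain rfl := eq_natName_succ h1
    obtain rfl := eq_natName_succ h2
    obtain rfl := eq_natName_succ h3
    rw [natName_mem_e, natName_mem_e]
    omega

theorem funName_isFunOn {ι : Type u} (X Y : ι → Name P) {V : ∀ U : Gen P, Mod U → Prop}
    [∀ a : Name P, Clopen fun U => V U (a.val U)] (hV : ∀ i U, V U ((Y i).val U))
    (hX : ∀ i j U, (X i).val U = (X j).val U → i = j) (U : Gen P) :
    IsFunOn Mod.mem ((funName X Y).val U) ((fam X).val U) (V U) := by
  refine of_forces_all (Φ := fun U => IsFunOn Mod.mem ((funName X Y).val U) ((fam X).val U)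
    (V U)) (fun p => ⟨p, le_rfl, ?_⟩) U
  refine forces_isFunOn_graph (fun i q _ _ => ⟨q, le_rfl,
    Forces.of_forall (fun U => ⟨mem_fam X i U, hV i U⟩) q⟩)
    (fun j q _ _ => ⟨q, le_rfl, j, le_top, Forces.of_forall (fun _ => rfl) q⟩)
    fun i j q _ _ _ h => ⟨q, le_rfl, h.imp fun U h => by rw [hX i j U h]⟩

/-- the name of a finite sequence -/
def seqName (n : ℕ) (Y : ℕ → Name P) : Name P :=
  funName (fun i : ULift.{u} (Fin n) => natName i.down.val) fun i => Y i.down.val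

theorem app_seqName {n i : ℕ} (Y : ℕ → Name P) (h : i < n) (U : Gen P) :
    App Mod.mem ((seqName n Y).val U) ((natName i).val U) ((Y i).val U) :=
  app_funName (fun i : ULift.{u} (Fin n) => natName i.down.val) (fun i => Y i.down.val) ⟨⟨i, h⟩⟩ U

theorem isFunOn_seqName (n : ℕ) (Y : ℕ → Name P) {V : ∀ U : Gen P, Mod U → Prop}
    [∀ a : Name P, Clopen fun U => V U (a.val U)] (hV : ∀ i U, V U ((Y i).val U)) (U : Gen P) :
    IsFunOn Mod.mem ((seqName n Y).val U) ((natName n).val U) (V U) := by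
  rw [natName.eq_1 n]
  exact funName_isFunOn _ _ (fun i U => hV _ U)
    (fun i j U h => ULift.ext _ _ (Fin.ext (natName_inj h))) U

theorem eq_seqName {n : ℕ} {Y : ℕ → Name P} {U : Gen P} {h : Mod U} {V : Mod U → Prop}
    (hh : IsFunOn Mod.mem h ((natName n).val U) V)
    (e : ∀ i < n, App Mod.mem h ((natName i).val U) ((Y i).val U)) : h = (seqName n Y).val U := by
  refine (isZFC U).fun_ext hh (isFunOn_seqName n Y (V := fun _ _ => True) (fun _ _ => trivial) U)
    fun x hx y hy => ?_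
  obtain ⟨i, hi, rfl⟩ := (mem_natName U x).1 hx
  rw [hh.2.2 _ _ _ hy (e i hi)]
  exact app_seqName Y hi U

theorem exists_app_el {f x b : Name P} {p : P}
    (h : Forces p fun U => ∃ a, IsFun Mod.mem (f.val U) a (b.val U) ∧ Mod.mem (x.val U) a) :
    ∃ q ≤ p, ∃ i, q ≤ b.cond i ∧
      Forces q fun U => App Mod.mem (f.val U) (x.val U) ((b.el i).val U) := by
  obtain ⟨y, hy⟩ := Forces.exists_name (Φ := fun U y => App Mod.mem (f.val U) (x.val U) y)
    (h.imp fun U ⟨_, h⟩ => h.1.2.1 _ h.2)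
  obtain ⟨q, hq, i, h1, h2⟩ := ((h.and hy).imp fun U ⟨⟨_, h⟩, h'⟩ =>
    ((isZFC U).app_val h.1 h').2).exists_el
  exact ⟨q, hq, i, h1, ((hy.mono hq).and h2).imp fun U h => h.2 ▸ h.1⟩

variable {K : Type u} [LinearOrder K] [WellFoundedLT K]

theorem ordName_mem_iff {x y : K} {U : Gen P} :
    Mod.mem ((ordName x).val U) ((ordName y).val U) ↔ x < y :=
  ⟨fun h => forall_mem_ordName (Φ := fun (U : Gen P) z => z = (ordName x).val U → x < y)
    (fun _ hz U e => ordName_inj (U := U) e ▸ hz) U _ h rfl, fun h => ordName_mem h U⟩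

theorem exists_app_ord {f x : Name P} {d : K} {p : P}
    (h : Forces p fun U => ∃ a, IsFun Mod.mem (f.val U) a ((ordName d).val U) ∧
      Mod.mem (x.val U) a) :
    ∃ q ≤ p, ∃ y < d, Forces q fun U => App Mod.mem (f.val U) (x.val U) ((ordName y).val U) := by
  rw [ordName_eq d] at h
  obtain ⟨q, hq, i, -, h⟩ := exists_app_el h
  exact ⟨q, hq, i.1, i.2, h⟩

theorem ordName_sub {x y : K} (h : x ≤ y) (U : Gen P) :
    IsSub Mod.mem ((ordName x).val U) ((ordName y).val U) :=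
  forall_mem_ordName (Φ := fun U z => Mod.mem z ((ordName y).val U))
    (fun _ hz U => ordName_mem (hz.trans_le h) U) U

theorem forces_isSuccCard {x y : K} {p : P}
    (h1 : Forces p fun U => ¬ LeCard Mod.mem ((ordName y).val U) ((ordName x).val U))
    (h2 : ∀ z < y, Forces p fun U => LeCard Mod.mem ((ordName z).val U) ((ordName x).val U)) :
    Forces p fun U => IsSuccCard Mod.mem ((ordName y).val U) ((ordName x).val U) := by
  have h3 : Forces p fun U => ∀ z, Mod.mem z ((ordName y).val U) →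
      LeCard Mod.mem z ((ordName x).val U) := by
    rw [ordName_eq y]
    exact forces_forall_mem_fam fun i q hq => ⟨q, le_rfl, (h2 i.1 i.2).mono hq⟩
  refine (h1.and h3).imp fun U h => ⟨forall_mem_ordName
    (Φ := fun U z => IsSub Mod.mem z ((ordName y).val U)) (fun z hz U => ordName_sub hz.le U) U,
    fun z z' hz => ?_, h⟩
  revert z'
  exact forall_mem_ordName (Φ := fun U z => ∀ z', Mod.mem z' z → IsSub Mod.mem z' z)
    (fun z _ U => forall_mem_ordName (Φ := fun U z' => IsSub Mod.mem z' ((ordName z).val U))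
      (fun _ h U => ordName_sub h.le U) U) U z hz

theorem leCard_ord {x y : K} (h : cd x ≤ cd y) (p : P) :
    Forces p fun U => LeCard Mod.mem ((ordName x).val U) ((ordName y).val U) := by
  obtain ⟨j⟩ := (Cardinal.le_def _ _).1 h
  refine forces_leCard (ι := Iio x) (fun z => ordName z.1) (fun z => ordName (j z).1)
    (fun z q _ hz => ?_) (fun z => Forces.of_forall (ordName_mem (j z).2) p)
    fun a b hne q _ h => hne (j.injective (Subtype.ext h.ordName_inj))
  rw [ordName_eq x] at hz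
  exact hz.exists_fam

/-- the name of a finite sequence of ordinals -/
noncomputable def sq (x0 : K) (xs : List K) : Name P :=
  seqName xs.length fun k => ordName (xs.getD k x0)

theorem isSeq_sq (x0 : K) (xs : List K) (U : Gen P) :
    IsSeq Mod.mem ((sq x0 xs).val U) ((typeName K).val U) (omegaName.val U) :=
  ⟨_, natName_mem_omega _ U, isFunOn_seqName _ _
    (V := fun U y => Mod.mem y ((typeName K).val U)) (fun _ U => ordName_mem_typeName _ U) U⟩

theorem decide_seq (x0 : K) {ι : Type u} (X : ι → K) (c : ι → P) {s : Name P} {p : P}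
    (h : Forces p fun U => IsSeq Mod.mem (s.val U)
      ((Name.mk ι (fun i => ordName (X i)) c).val U) (omegaName.val U)) :
    ∃ r ≤ p, ∃ xs : List K, (∀ x ∈ xs, ∃ i, X i = x ∧ r ≤ c i) ∧
      Forces r fun U => s.val U = (sq x0 xs).val U := by
  obtain ⟨n, hn⟩ := Forces.exists_name h
  obtain ⟨q, hq, ⟨m⟩, hm⟩ := (hn.imp fun _ h => h.1).exists_fam
  have h1 := ((hn.mono hq).and hm).imp fun U h => h.2 ▸ h.1.2
  have key : ∀ k ≤ m, ∃ r ≤ q, ∃ xs : List K, xs.length = k ∧ (∀ x ∈ xs, ∃ i, X i = x ∧ r ≤ c i) ∧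
      ∀ j < k, Forces r fun U => App Mod.mem (s.val U) ((natName j).val U)
        ((ordName (xs.getD j x0)).val U) := fun k hk => by
    induction k with
    | zero => exact ⟨q, le_rfl, [], rfl, by simp, by simp⟩
    | succ k ih =>
      obtain ⟨r, hr, xs, e, g1, g2⟩ := ih (by omega)
      obtain ⟨r', hr', i, g3, g4⟩ := exists_app_el (x := natName k)
        ((h1.mono hr).imp fun U h => ⟨_, h, natName_mem hk U⟩)
      refine ⟨r', hr'.trans hr, xs ++ [X i], by simp [e], fun x hx => ?_, fun j hj => ?_⟩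
      · rcases List.mem_append.1 hx with hx | hx
        · exact (g1 x hx).imp fun i h => ⟨h.1, hr'.trans h.2⟩
        · exact ⟨i, (List.mem_singleton.1 hx).symm, g3⟩
      · rcases Nat.lt_succ_iff_lt_or_eq.1 hj with hj | rfl
        · rw [List.getD_append _ _ _ _ (e ▸ hj)]
          exact (g2 j hj).mono hr'
        · rw [List.getD_append_right _ _ _ _ e.le]
          simp only [e, Nat.sub_self, List.getD_cons_zero]
          exact g4
  obtain ⟨r, hr, xs, rfl, g1, g2⟩ := key m le_rfl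
  exact ⟨r, hr.trans hq, xs, g1, fun U hU =>
    eq_seqName (h1.mono hr U hU) fun j hj => g2 j hj U hU⟩

theorem cofinal_funName {ι : Type u} (X : ι → Name P) (f : ι → K) {d : K} (h1 : ∀ i, f i < d)
    (h2 : ∀ x < d, ∃ i, x < f i) (hX : ∀ i j U, (X i).val U = (X j).val U → i = j) (U : Gen P) :
    ∃ g, Cofinal Mod.mem g ((fam X).val U) ((ordName d).val U) :=
  ⟨(funName X fun i => ordName (f i)).val U, funName_isFunOn _ _
    (V := fun U y => Mod.mem y ((ordName d).val U)) (fun i U => ordName_mem (h1 i) U) hX U,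
    forall_mem_ordName (Φ := fun U x => ∃ i y,
      App Mod.mem ((funName X fun i => ordName (f i)).val U) i y ∧ (Mod.mem x y ∨ x = y))
      (fun x hx U => (h2 x hx).elim fun i hi =>
        ⟨_, _, app_funName X (fun i => ordName (f i)) i U, Or.inl (ordName_mem hi U)⟩) U⟩

variable [NM K]

theorem ordName_al0 (U : Gen P) : (ordName (al K 0)).val U = omegaName.val U := by
  have h1 : ∀ x < al K 0, ∃ n : ℕ, ∀ U : Gen P, (ordName x).val U = (natName n).val U :=
    fun x => by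
    induction x using WellFoundedLT.induction with
    | ind x ih =>
      intro hx
      by_cases h : (Iio x).Nonempty
      · obtain ⟨y, hy, hmax⟩ := (finite_of_lt_al0 hx).exists_maximal h
        obtain ⟨n, e2⟩ := ih y hy (hy.trans hx)
        have e : Iio x = insert y (Iio y) := by
          ext z
          simp only [mem_Iio, mem_insert_iff]
          exact ⟨fun hz => (lt_trichotomy z y).elim Or.inr fun h => h.elim Or.inl
            fun h => absurd (hmax hz h.le) (not_le.2 h), fun h => h.elim (· ▸ hy) (·.trans hy)⟩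
        refine ⟨n + 1, fun U => eq_natName_succ ?_⟩
        rw [← e2]
        refine fun z => ⟨forall_mem_ordName (Φ := fun U z => Mod.mem z ((ordName y).val U) ∨
          z = (ordName y).val U) (fun w hw U => ?_) U z, fun h => h.elim
          (ordName_sub hy.le U z) fun h => h ▸ ordName_mem hy U⟩
        rcases (e ▸ hw : w ∈ insert y (Iio y)) with rfl | hw
        exacts [Or.inr rfl, Or.inl (ordName_mem hw U)]
      · refine ⟨0, fun U => eq_natName_zero
          fun z hz => forall_mem_ordName (Φ := fun _ _ => False) (fun w hw _ => h ⟨w, hw⟩) U z hz⟩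
  choose! g g2 using h1
  refine Mod.ext _ _ fun z => ⟨forall_mem_ordName (Φ := fun U z => Mod.mem z (omegaName.val U))
    (fun x hx U => g2 x hx U ▸ natName_mem_omega _ U) U z,
    forall_mem_omega (Φ := fun U z => Mod.mem z ((ordName (al K 0)).val U)) (fun n U => ?_) U z⟩
  have hinf : (Iio (al K 0)).Infinite :=
    Set.infinite_coe_iff.1 (aleph0_le_mk_iff.1 aleph0_le_al0)
  obtain ⟨x, hx, hn⟩ : ∃ x < al K 0, n < g x := by
    by_contra hcon
    push Not at hcon
    refine hinf (Finite.of_finite_image ((finite_le_nat n).subset ?_) (f := g) fun x hx y hy e =>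
      ordName_inj (U := U) (by rw [g2 x hx, g2 y hy, e]))
    rintro _ ⟨x, hx, rfl⟩
    exact hcon x hx
  exact ordName_sub hx.le U _ (g2 x hx U ▸ natName_mem hn U)

end Pool.Agent.P.MP_2e9c36_lc
end

-- part Pool.Agent.P.MP_2e9c36_lc.Col
section

set_option autoImplicit false
set_option linter.unusedSectionVars false

/-! Collapse conditions, meeting many dense sets, lower parts, good points. -/

open Cardinal Set Filter

namespace Pool.Agent.P.MP_2e9c36_lc

universe u

/-- sets of triples `(γ, v, ξ)`, read as `f_γ v = ξ` -/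
abbrev Cnd (K : Type u) : Type u := Set (K × K × K)

variable {K : Type u} [LinearOrder K] [WellFoundedLT K] [NM K]

/-- compatibility of two triples -/
def Cmp (x y : K × K × K) : Prop := x.1 = y.1 → (x.2.1 = y.2.1 ↔ x.2.2 = y.2.2)

theorem Cmp.symm {x y : K × K × K} (h : Cmp x y) : Cmp y x := fun e => by
  rw [eq_comm, h e.symm, eq_comm]

/-- conditions of the collapse to the successor of `ν` -/
structure IsCol (ν : K) (c : Cnd K) : Prop where
  cmp : ∀ x ∈ c, ∀ y ∈ c, Cmp x y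
  bd : ∀ x ∈ c, x.2.1 < x.1 ∧ x.2.2 < sc ν
  sm : #c ≤ cd ν

/-- the support of `c` lies below `β` -/
def Below (c : Cnd K) (β : K) : Prop := ∀ x ∈ c, x.1 < β

theorem Below.mono {c : Cnd K} {β γ : K} (h : Below c β) (e : β ≤ γ) : Below c γ :=
  fun x hx => (h x hx).trans_le e

theorem IsCol.empty (ν : K) : IsCol ν ∅ := ⟨by simp, by simp, by simp⟩

theorem IsCol.subset {ν : K} {c c' : Cnd K} (h : IsCol ν c) (e : c' ⊆ c) : IsCol ν c' :=
  ⟨fun x hx y hy => h.cmp x (e hx) y (e hy), fun x hx => h.bd x (e hx),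
    (mk_le_mk_of_subset e).trans h.sm⟩

theorem IsCol.ae_below {ν : K} {c : Cnd K} (h : IsCol ν c) : ∀ᶠ β in UF K, Below c β :=
  ae_all_set (h.sm.trans_lt (cd_lt ν)) fun x _ => ae_gt x.1

theorem IsCol.union {ν : K} (hν : ℵ₀ ≤ cd ν) {c c' : Cnd K} (h : IsCol ν c) (h' : IsCol ν c')
    (e : ∀ x ∈ c, ∀ y ∈ c', Cmp x y) : IsCol ν (c ∪ c') := by
  refine ⟨?_, ?_, (mk_union_le _ _).trans (add_le_of_le hν h.sm h'.sm)⟩
  · rintro x (hx | hx) y (hy | hy)
    exacts [h.cmp x hx y hy, e x hx y hy, (e y hy x hx).symm, h'.cmp x hx y hy]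
  · rintro x (hx | hx)
    exacts [h.bd x hx, h'.bd x hx]

theorem IsCol.biUnion {ν : K} (hν : ℵ₀ ≤ cd ν) {ι : Type u} {S : Set ι} (hS : #S ≤ cd ν)
    {c : ι → Cnd K} (h : ∀ i ∈ S, IsCol ν (c i))
    (e : ∀ i ∈ S, ∀ j ∈ S, ∀ x ∈ c i, ∀ y ∈ c j, Cmp x y) : IsCol ν (⋃ i ∈ S, c i) := by
  refine ⟨fun x hx y hy => ?_, fun x hx => ?_, mk_biUnion_le_of hν hS fun i hi => (h i hi).sm⟩
  · obtain ⟨i, hi, hx⟩ := mem_iUnion₂.1 hx
    obtain ⟨j, hj, hy⟩ := mem_iUnion₂.1 hy
    exact e i hi j hj x hx y hy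
  · obtain ⟨i, hi, hx⟩ := mem_iUnion₂.1 hx
    exact (h i hi).bd x hx

theorem press_col (ν : K) : Press fun (c : Cnd K) β => IsCol ν c ∧ Below c β :=
  ((press_lt.prod (press_lt.prod press_lt)).set (cd_lt ν)).mono
    ((ae_gt (sc ν)).mono fun _ hβ _ h => ⟨h.1.sm, fun x hx =>
      ⟨h.2 x hx, (h.1.bd x hx).1.trans (h.2 x hx), (h.1.bd x hx).2.trans hβ⟩⟩)

/-- meeting many dense sets, few of which are relevant for each coordinate -/
theorem meet_all {S X : Type u} (ν : S → K) (hν : ∀ s, ℵ₀ ≤ cd (ν s))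
    (Q : S → K × K × K → Prop) (Rel : X → S → Prop) (hRel : ∀ s, #{a | Rel a s} ≤ cd (ν s))
    (R : X → (S → Cnd K) → Prop)
    (mono : ∀ a D D', (∀ s, Rel a s → D s ⊆ D' s) → R a D → R a D')
    (dense : ∀ a (D : S → Cnd K), (∀ s, IsCol (ν s) (D s) ∧ ∀ x ∈ D s, Q s x) →
      ∃ D' : S → Cnd K, (∀ s, IsCol (ν s) (D' s) ∧ ∀ x ∈ D' s, Q s x) ∧ (∀ s, D s ⊆ D' s) ∧ R a D')
    (D : S → Cnd K) (hD : ∀ s, IsCol (ν s) (D s) ∧ ∀ x ∈ D s, Q s x) :
    ∃ D' : S → Cnd K,
      (∀ s, IsCol (ν s) (D' s) ∧ ∀ x ∈ D' s, Q s x) ∧ (∀ s, D s ⊆ D' s) ∧ ∀ a, R a D' := by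
  obtain ⟨Z, hZ⟩ := zorn_subset {Z : Set (X × (S → Cnd K)) |
      (∀ z ∈ Z, (∀ s, IsCol (ν s) (z.2 s) ∧ ∀ x ∈ z.2 s, Q s x) ∧ (∀ s, D s ⊆ z.2 s) ∧
        R z.1 z.2) ∧
      ∀ z ∈ Z, ∀ z' ∈ Z, (z.1 = z'.1 → z = z') ∧
        ∀ s, Rel z.1 s → Rel z'.1 s → ∀ x ∈ z.2 s, ∀ y ∈ z'.2 s, Cmp x y} (by
    intro c hc hchain
    refine ⟨⋃₀ c, ⟨?_, ?_⟩, fun s hs => subset_sUnion_of_mem hs⟩
    · rintro z ⟨s, hs, hz⟩
      exact (hc hs).1 z hz
    · rintro z ⟨s, hs, hz⟩ z' ⟨t, ht, hz'⟩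
      rcases hchain.total hs ht with h | h
      · exact (hc ht).2 z (h hz) z' hz'
      · exact (hc hs).2 z hz z' (h hz'))
  obtain ⟨hZ1, hZ2⟩ := hZ.prop
  let B : S → Cnd K := fun s => D s ∪ ⋃ z ∈ {z | z ∈ Z ∧ Rel z.1 s}, z.2 s
  have hsub : ∀ z ∈ Z, ∀ s, Rel z.1 s → z.2 s ⊆ B s := fun z hz s hs x hx =>
    Or.inr (mem_biUnion (And.intro hz hs) hx)
  have hB : ∀ s, IsCol (ν s) (B s) ∧ ∀ x ∈ B s, Q s x := fun s => by
    refine ⟨(hD s).1.union (hν s) (IsCol.biUnion (hν s) (le_trans ?_ (hRel s))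
      (fun z hz => ((hZ1 z hz.1).1 s).1) fun z hz z' hz' => (hZ2 z hz.1 z' hz'.1).2 s hz.2 hz'.2)
      fun x hx y hy => ?_, ?_⟩
    · exact mk_le_of_injective (f := fun z : {z | z ∈ Z ∧ Rel z.1 s} =>
        (⟨z.1.1, z.2.2⟩ : {a | Rel a s})) fun z z' e =>
        Subtype.ext ((hZ2 _ z.2.1 _ z'.2.1).1 (congrArg Subtype.val e))
    · obtain ⟨z, hz, hy⟩ := mem_iUnion₂.1 hy
      exact ((hZ1 z hz.1).1 s).1.cmp x ((hZ1 z hz.1).2.1 s hx) y hy
    · rintro x (hx | hx)
      · exact (hD s).2 x hx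
      · obtain ⟨z, hz, hx⟩ := mem_iUnion₂.1 hx
        exact ((hZ1 z hz.1).1 s).2 x hx
  refine ⟨B, hB, fun s => subset_union_left, fun a => ?_⟩
  by_cases ha : ∃ z ∈ Z, z.1 = a
  · obtain ⟨z, hz, rfl⟩ := ha
    exact mono _ _ _ (hsub z hz) (hZ1 z hz).2.2
  · obtain ⟨E, h1, h2, h3⟩ := dense a B hB
    refine absurd ⟨(a, E), hZ.le_of_ge (y := insert (a, E) Z) ⟨?_, ?_⟩ (subset_insert _ _)
      (mem_insert _ _), rfl⟩ ha
    · rintro z (rfl | hz)
      · exact ⟨h1, fun s => subset_union_left.trans (h2 s), h3⟩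
      · exact hZ1 z hz
    · rintro z (rfl | hz) z' (rfl | hz')
      · exact ⟨fun _ => rfl, fun s _ _ => (h1 s).1.cmp⟩
      · exact ⟨fun e => absurd ⟨z', hz', e.symm⟩ ha, fun s _ hs x hx y hy =>
          (h1 s).1.cmp x hx y (h2 s (hsub z' hz' s hs hy))⟩
      · exact ⟨fun e => absurd ⟨z, hz, e⟩ ha, fun s hs _ x hx y hy =>
          (h1 s).1.cmp x (h2 s (hsub z hz s hs hx)) y hy⟩
      · exact hZ2 z hz z' hz'

/-- the largest point of a node, at least `ℵ_2` -/
noncomputable def top : List K → K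
  | [] => al K 2
  | β :: t => max β (top t)

theorem top_mono {s t : List K} (h : s <:+ t) : top s ≤ top t := by
  induction t with
  | nil => rw [List.suffix_nil.1 h]
  | cons a t ih =>
    rcases List.suffix_cons_iff.1 h with rfl | h
    · exact le_rfl
    · exact (ih h).trans (le_max_right _ _)

theorem al_le_top (t : List K) : al K 2 ≤ top t := top_mono (List.nil_suffix)

theorem le_top_of_mem {t : List K} {x : K} (h : x ∈ t) : x ≤ top t := by
  induction t with
  | nil => simp at h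
  | cons a t ih =>
    rcases List.mem_cons.1 h with rfl | h
    · exact le_max_left _ _
    · exact (ih h).trans (le_max_right _ _)

/-- the size bound for collapse conditions at the node `t` -/
noncomputable def nu (t : List K) : K := sc (top t)

theorem top_lt_nu (t : List K) : top t < nu t := lt_sc _

theorem cd_top_inf (t : List K) : ℵ₀ ≤ cd (top t) := aleph0_le_cd (al_le_top t)

theorem cd_nu_inf (t : List K) : ℵ₀ ≤ cd (nu t) := (cd_top_inf t).trans (cd_lt_sc _).le

theorem nu_mono {s t : List K} (h : s <:+ t) : nu s ≤ nu t := sc_mono (top_mono h)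

/-- lower parts at a node -/
inductive LowOK : List K → List (Cnd K) → Prop
  | nil : LowOK [] []
  | cons {β : K} {t : List K} {c : Cnd K} {ρ : List (Cnd K)} :
      IsCol (nu t) c → Below c β → LowOK t ρ → LowOK (β :: t) (c :: ρ)

/-- componentwise inclusion -/
abbrev Sub (r r' : List (Cnd K)) : Prop := List.Forall₂ (· ⊆ ·) r r'

theorem Sub.rfl' (r : List (Cnd K)) : Sub r r := List.forall₂_refl r

theorem Sub.trans' {a b c : List (Cnd K)} (h : Sub a b) (h' : Sub b c) : Sub a c := by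
  induction h generalizing c with
  | nil => exact h'
  | cons h1 _ ih =>
    cases h' with
    | cons h2 h3 => exact .cons (h1.trans h2) (ih h3)

theorem LowOK.length {t : List K} {ρ : List (Cnd K)} (h : LowOK t ρ) : ρ.length = t.length := by
  induction h with
  | nil => rfl
  | cons _ _ _ ih => simp [ih]

theorem low_press_of {t : List K} (h : Press fun (ρ : List (Cnd K)) (_ : K) => LowOK t ρ) :
    Press fun (ρ : List (Cnd K)) β => LowOK (β :: t) ρ := fun f hf => by
  obtain ⟨x, hx⟩ := ((press_col (nu t)).prod h) (fun β => ((f β).headD ∅, (f β).tail))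
    (hf.mono fun β h => by
      generalize f β = r at h
      cases h with
      | cons h1 h2 h3 => exact ⟨⟨h1, h2⟩, h3⟩)
  refine ⟨x.1 :: x.2, (hf.and hx).mono fun β h => ?_⟩
  obtain ⟨h, h'⟩ := h
  generalize f β = r at h h'
  cases h with
  | cons h1 h2 h3 => rw [← h']; rfl

theorem low_const (t : List K) : Press fun (ρ : List (Cnd K)) (_ : K) => LowOK t ρ := by
  induction t with
  | nil => exact fun f hf => ⟨[], hf.mono fun β h => by
      generalize f β = r at h
      cases h; rfl⟩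
  | cons a t ih =>
    refine (low_press_of ih).mono ((ae_gt a).mono fun β hβ ρ h => ?_)
    cases h with
    | cons h1 h2 h3 => exact .cons h1 (h2.mono hβ.le) h3

theorem low_press (t : List K) : Press fun (ρ : List (Cnd K)) β => LowOK (β :: t) ρ :=
  low_press_of (low_const t)

theorem mk_small_le : #{c : Cnd K | #c < #K} ≤ #K := by
  have h1 : {c : Cnd K | #c < #K} ⊆ ⋃ x ∈ (univ : Set K), 𝒫 (Iio x ×ˢ Iio x ×ˢ Iio x) := by
    intro c hc
    obtain ⟨x, hx⟩ := (ae_all_set (p := fun (y : K × K × K) x => y.1 < x ∧ y.2.1 < x ∧ y.2.2 < x)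
      hc fun y _ => (ae_gt _).and ((ae_gt _).and (ae_gt _))).exists
    exact mem_biUnion (mem_univ x) fun y hy => hx y hy
  have hK : ℵ₀ ≤ #K := (NM.unc : ℵ₀ < #K).le
  refine (mk_le_mk_of_subset h1).trans (mk_biUnion_le_of hK (by simp) fun x _ => ?_)
  rw [mk_powerset]
  refine (two_pow_lt ?_).le
  rw [mk_setProd, mk_setProd]
  exact mul_lt_of_lt hK (cd_lt x) (mul_lt_of_lt hK (cd_lt x) (cd_lt x))

theorem LowOK.small {t : List K} {ρ : List (Cnd K)} (h : LowOK t ρ) : ∀ c ∈ ρ, #c < #K := by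
  induction h with
  | nil => simp
  | cons h1 _ _ ih =>
    intro c hc
    rcases List.mem_cons.1 hc with rfl | hc
    · exact h1.sm.trans_lt (cd_lt _)
    · exact ih c hc

theorem ae_count (t : List K) : ∀ᶠ β in UF K, #{ρ | LowOK (β :: t) ρ} ≤ cd β :=
  (low_press t).count (mk_list_le (NM.unc : ℵ₀ < #K).le mk_small_le) fun _ _ h => h.small

/-- among `lam` many lower parts at `t` coloured below `θ`, two compatible ones share a colour -/
def Pigeon (t : List K) (lam θ : K) : Prop :=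
  ∀ (f : K → List (Cnd K)) (i : K → K), (∀ y < lam, LowOK t (f y) ∧ i y < θ) →
    ∃ y < lam, ∃ y' < lam, y ≠ y' ∧ i y = i y' ∧ ∃ ρ, LowOK t ρ ∧ Sub (f y) ρ ∧ Sub (f y') ρ

theorem ae_pigeon (t : List K) (θ : K) : ∀ᶠ β in UF K, Pigeon (β :: t) β θ := by
  by_contra hcon
  have h1 := ae_not hcon
  have h2 : ∀ β, ∃ (f : K → List (Cnd K)) (i : K → K), ¬ Pigeon (β :: t) β θ →
      (∀ y < β, LowOK (β :: t) (f y) ∧ i y < θ) ∧ ¬ ∃ y < β, ∃ y' < β, y ≠ y' ∧ i y = i y' ∧
        ∃ ρ, LowOK (β :: t) ρ ∧ Sub (f y) ρ ∧ Sub (f y') ρ := fun β => by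
    by_cases h : Pigeon (β :: t) β θ
    · exact ⟨fun _ => [], id, fun h' => absurd h h'⟩
    · simp only [Pigeon, not_forall] at h
      obtain ⟨f, i, h, h'⟩ := h
      exact ⟨f, i, fun _ => ⟨h, h'⟩⟩
  choose f i hf using h2
  choose r hr using fun y => low_press t (fun β => f β y)
    ((h1.and (ae_gt y)).mono fun β h => ((hf β h.1).1 y h.2).1)
  choose j hj using fun y => ae_const_small (S := Iio θ) (cd_lt θ) (f := fun β => i β y)
    ((h1.and (ae_gt y)).mono fun β h => ((hf β h.1).1 y h.2).2)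
  have h3 : ∀ y, j y < θ ∧ ∃ c ρ, r y = c :: ρ ∧ IsCol (nu t) c ∧ LowOK t ρ := fun y => by
    obtain ⟨β, g1, g2, g3, g4⟩ := (h1.and ((ae_gt y).and ((hr y).and (hj y)))).exists
    obtain ⟨g5, g6⟩ := (hf β g1).1 y g2
    rw [g3] at g5
    refine ⟨g4 ▸ g6, ?_⟩
    generalize r y = r' at g5
    cases g5 with
    | cons k1 _ k3 => exact ⟨_, _, rfl, k1, k3⟩
  choose hjθ c ρ hrc hc hρ using h3
  obtain ⟨c0, hc0⟩ := press_col (nu t) (fun y => {x | x ∈ c y ∧ x.1 < y})
    (Eventually.of_forall fun y => ⟨(hc y).subset fun _ h => h.1, fun _ h => h.2⟩)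
  obtain ⟨ρ0, hρ0⟩ := low_const t ρ (Eventually.of_forall hρ)
  obtain ⟨j0, hj0⟩ := ae_const_small (S := Iio θ) (cd_lt θ) (f := j) (Eventually.of_forall hjθ)
  have h4 := hc0.and (hρ0.and hj0)
  obtain ⟨y, a1, a2, a3⟩ := h4.exists
  obtain ⟨y', ⟨b1, b2, b3⟩, b4, b5⟩ := (h4.and ((ae_gt y).and (hc y).ae_below)).exists
  have h5 : IsCol (nu t) (c y ∪ c y') := (hc y).union (cd_nu_inf t) (hc y') fun x hx x' hx' e => by
    have : x' ∈ {x | x ∈ c y ∧ x.1 < y} := by
      rw [a1, ← b1]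
      exact ⟨hx', e ▸ b5 x hx⟩
    exact (hc y).cmp x hx x' this.1 e
  obtain ⟨β, g1, g2, g3, g4, g5, g6, g7⟩ := (h1.and ((ae_gt y').and ((hr y).and ((hr y').and
    ((hj y).and ((hj y').and h5.ae_below)))))).exists
  refine (hf β g1).2 ⟨y, b4.trans g2, y', g2, b4.ne, by rw [g5, g6, a3, b3],
    (c y ∪ c y') :: ρ0, .cons h5 g7 (a2 ▸ hρ y), ?_, ?_⟩
  · rw [g3, hrc, a2]
    exact .cons subset_union_left (Sub.rfl' _)
  · rw [g4, hrc, b2]
    exact .cons subset_union_right (Sub.rfl' _)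

theorem pigeon_of_count {t : List K} {lam θ : K} (hθ : ℵ₀ ≤ cd θ)
    (h : #{ρ | LowOK t ρ} ≤ cd θ) (hl : cd θ < cd lam) : Pigeon t lam θ := by
  intro f i hf
  by_contra hcon
  have h1 : cd lam ≤ #({ρ | LowOK t ρ} × Iio θ) := mk_le_of_injective
    (f := fun y : Iio lam => ((⟨f y, (hf y y.2).1⟩ : {ρ | LowOK t ρ}),
      (⟨i y, (hf y y.2).2⟩ : Iio θ))) fun y y' e => by
    by_contra hne
    have e1 : f y = f y' := congrArg (fun z => z.1.1) e
    have e2 : i y = i y' := congrArg (fun z => z.2.1) e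
    exact hcon ⟨y, y.2, y', y'.2, fun e => hne (Subtype.ext e), e2, f y, (hf y y.2).1,
      Sub.rfl' _, e1 ▸ Sub.rfl' _⟩
  rw [mk_prod, lift_id, lift_id] at h1
  exact absurd hl (not_lt.2 (h1.trans ((mul_le_mul' h le_rfl).trans (mul_eq_self hθ).le)))

/-- the points allowed after the node `t` -/
def G (t : List K) : Set K :=
  {β | sc (nu t) < β ∧ #{ρ | LowOK (β :: t) ρ} ≤ cd β ∧ Pigeon (β :: t) β (sc (nu t))}

theorem ae_G (t : List K) : ∀ᶠ β in UF K, β ∈ G t :=
  (ae_gt _).and ((ae_count t).and (ae_pigeon t _))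

theorem top_lt_of_G {t : List K} {β : K} (h : β ∈ G t) : top t < β :=
  (top_lt_nu t).trans ((lt_sc _).trans h.1)

theorem top_cons_of_G {t : List K} {β : K} (h : β ∈ G t) : top (β :: t) = β :=
  max_eq_left (top_lt_of_G h).le

/-- the lower part of an assignment of conditions to nodes -/
def low : List K → (List K → Cnd K) → List (Cnd K)
  | [], _ => []
  | _ :: t, c => c t :: low t c

theorem low_sub_iff {s : List K} {c c' : List K → Cnd K} :
    Sub (low s c) (low s c') ↔ ∀ β t, β :: t <:+ s → c t ⊆ c' t := by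
  induction s with
  | nil => simp [low]
  | cons a s ih =>
    simp only [low, List.forall₂_cons, ih, List.suffix_cons_iff]
    constructor
    · rintro ⟨h1, h2⟩ β t (e | h)
      · cases e; exact h1
      · exact h2 β t h
    · exact fun h => ⟨h a s (Or.inl rfl), fun β t ht => h β t (Or.inr ht)⟩

theorem lowOK_low_iff {s : List K} {c : List K → Cnd K} :
    LowOK s (low s c) ↔ ∀ β t, β :: t <:+ s → IsCol (nu t) (c t) ∧ Below (c t) β := by
  induction s with
  | nil => simpa [low] using LowOK.nil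
  | cons a s ih =>
    simp only [low, List.suffix_cons_iff]
    constructor
    · intro h
      cases h with
      | cons h1 h2 h3 =>
        rintro β t (e | h)
        · cases e; exact ⟨h1, h2⟩
        · exact ih.1 h3 β t h
    · exact fun h => .cons (h a s (Or.inl rfl)).1 (h a s (Or.inl rfl)).2
        (ih.2 fun β t ht => h β t (Or.inr ht))

theorem low_congr {s : List K} {c c' : List K → Cnd K} (h : low s c = low s c') {β : K}
    {t : List K} (ht : β :: t <:+ s) : c t = c' t :=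
  Subset.antisymm (low_sub_iff.1 (h ▸ Sub.rfl' _) β t ht) (low_sub_iff.1 (h ▸ Sub.rfl' _) β t ht)

open Classical in
/-- put the lower part `r` below the node `t` -/
noncomputable def sp : List K → List (Cnd K) → (List K → Cnd K) → List K → Cnd K
  | _ :: t, c :: r, D => Function.update (sp t r D) t c
  | _, _, D => D

theorem sp_eq_or (t : List K) (r : List (Cnd K)) (D : List K → Cnd K) (s : List K) :
    sp t r D s = D s ∨ ∃ β, β :: s <:+ t := by
  induction t generalizing r with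
  | nil => left; rfl
  | cons a t ih =>
    cases r with
    | nil => left; rfl
    | cons c r =>
      by_cases e : s = t
      · exact Or.inr ⟨a, e ▸ List.suffix_refl _⟩
      · rw [sp, Function.update_of_ne e]
        exact (ih r).imp_right fun ⟨β, h⟩ => ⟨β, h.trans (List.suffix_cons _ _)⟩

theorem sp_of_le {t : List K} (r : List (Cnd K)) (D : List K → Cnd K) {s : List K}
    (h : t.length ≤ s.length) : sp t r D s = D s :=
  (sp_eq_or t r D s).resolve_right fun ⟨β, hβ⟩ => by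
    have := hβ.length_le
    simp at this
    omega

theorem low_update {t : List K} (c : List K → Cnd K) (s : List K) (x : Cnd K)
    [DecidableEq (List K)] (h : t.length ≤ s.length) : low t (Function.update c s x) = low t c := by
  induction t with
  | nil => rfl
  | cons a t ih =>
    simp only [List.length_cons] at h
    rw [low, low, ih (by omega), Function.update_of_ne]
    rintro rfl
    omega

theorem low_sp {t : List K} {r : List (Cnd K)} (D : List K → Cnd K) (h : r.length = t.length) :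
    low t (sp t r D) = r := by
  induction t generalizing r with
  | nil => exact (List.length_eq_zero_iff.1 h).symm
  | cons a t ih =>
    cases r with
    | nil => simp at h
    | cons c r => rw [low, sp, Function.update_self, low_update _ _ _ le_rfl, ih (by simpa using h)]

theorem suffix_cases {s t : List K} (h : s <:+ t) : s = t ∨ ∃ β, β :: s <:+ t := by
  induction t with
  | nil => exact Or.inl (List.suffix_nil.1 h)
  | cons a t ih =>
    rcases List.suffix_cons_iff.1 h with e | h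
    · exact Or.inl e
    · rcases ih h with rfl | ⟨β, hβ⟩
      · exact Or.inr ⟨a, List.suffix_refl _⟩
      · exact Or.inr ⟨β, hβ.trans (List.suffix_cons _ _)⟩

theorem sp_sub {t : List K} {r : List (Cnd K)} {D c : List K → Cnd K} (hr : r.length = t.length)
    (h : Sub r (low t c)) {s : List K} (hs : s <:+ t ∨ t <:+ s) (hD : t <:+ s → D s ⊆ c s) :
    sp t r D s ⊆ c s := by
  have h1 : t <:+ s → sp t r D s ⊆ c s := fun h => (sp_of_le r D h.length_le).symm ▸ hD h
  rcases hs with hs | hs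
  · rcases suffix_cases hs with rfl | ⟨β, hβ⟩
    · exact h1 (List.suffix_refl _)
    · exact low_sub_iff.1 ((low_sp D hr).symm ▸ h) β s hβ
  · exact h1 hs

theorem sp_mono {t : List K} {r r' : List (Cnd K)} {D D' : List K → Cnd K}
    (hr : r.length = t.length) (h : Sub r r') {s : List K} (hs : s <:+ t ∨ t <:+ s)
    (hD : t <:+ s → D s ⊆ D' s) : sp t r D s ⊆ sp t r' D' s :=
  sp_sub hr ((low_sp D' (h.length_eq ▸ hr)).symm ▸ h) hs
    fun h => (sp_of_le r' D' h.length_le).symm ▸ hD h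

theorem sp_col {t : List K} {r : List (Cnd K)} {D : List K → Cnd K} (hr : LowOK t r)
    (hD : ∀ s, IsCol (nu s) (D s)) (s : List K) : IsCol (nu s) (sp t r D s) := by
  rcases sp_eq_or t r D s with e | ⟨β, hβ⟩
  · exact e ▸ hD s
  · exact (lowOK_low_iff.1 ((low_sp D hr.length).symm ▸ hr) β s hβ).1

theorem sp_below {t : List K} {r : List (Cnd K)} (D : List K → Cnd K) (hr : LowOK t r)
    {β : K} {s : List K} (hs : β :: s <:+ t) : Below (sp t r D s) β :=
  (lowOK_low_iff.1 ((low_sp D hr.length).symm ▸ hr) β s hs).2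

end Pool.Agent.P.MP_2e9c36_lc
end

-- part Pool.Agent.P.MP_2e9c36_lc.Forcing
section

set_option autoImplicit false
set_option linter.unusedSectionVars false

/-! Tree Prikry forcing with interleaved collapses and its Prikry property. -/

open Cardinal Set Filter Pool.Agent.Lib.PosetForcing

namespace Pool.Agent.P.MP_2e9c36_lc

universe u

variable {K : Type u}

/-- nodes above the stem `s` in the tree with successor sets `B` -/
inductive Up (s : List K) (B : List K → Set K) : List K → Prop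
  | base : Up s B s
  | step {t : List K} {β : K} : Up s B t → β ∈ B t → Up s B (β :: t)

theorem Up.suffix {s t : List K} {B : List K → Set K} (h : Up s B t) : s <:+ t := by
  induction h with
  | base => exact List.suffix_refl _
  | step _ _ ih => exact ih.trans (List.suffix_cons _ _)

theorem Up.trans {s t u : List K} {B B' : List K → Set K} (h : Up s B t) (h' : Up t B' u)
    (e : ∀ v, Up t B' v → B' v ⊆ B v) : Up s B u := by
  induction h' with
  | base => exact h
  | step h1 h2 ih => exact .step ih (e _ h1 h2)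

theorem Up.of_suffix {s t u : List K} {B : List K → Set K} (h : Up s B u) (ht : t <:+ u) :
    t <:+ s ∨ Up s B t := by
  induction h with
  | base => exact Or.inl ht
  | step h1 h2 ih =>
    rcases List.suffix_cons_iff.1 ht with rfl | ht
    · exact Or.inr (.step h1 h2)
    · exact ih ht

theorem Up.cons_cases {s t : List K} {β : K} {B : List K → Set K} (h : Up s B (β :: t)) :
    β :: t = s ∨ (Up s B t ∧ β ∈ B t) := by
  generalize e : β :: t = u at h
  cases h with
  | base => exact Or.inl rfl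
  | step h1 h2 => cases e; exact Or.inr ⟨h1, h2⟩

theorem Up.restart {s t u : List K} {B : List K → Set K} (h : Up s B u) (h1 : s <:+ t)
    (h2 : t <:+ u) : Up t B u := by
  induction h with
  | base => rw [h2.eq_of_length_le h1.length_le]; exact .base
  | step _ g2 ih =>
    rcases List.suffix_cons_iff.1 h2 with rfl | h2
    · exact .base
    · exact .step (ih h2) g2

theorem not_cons_suffix {s t : List K} {β : K} (h : β :: t <:+ s) (h' : s.length ≤ t.length) :
    False := by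
  have := h.length_le
  simp at this
  omega

variable [LinearOrder K] [WellFoundedLT K] [NM K]

variable (K) in
/-- conditions: stem, successor sets, collapse conditions at the nodes -/
structure PP : Type u where
  /-- stem -/
  s : List K
  /-- successor sets -/
  B : List K → Set K
  /-- collapse conditions -/
  c : List K → Cnd K
  col : ∀ t, IsCol (nu t) (c t)
  big : ∀ t, ∀ᶠ β in UF K, β ∈ B t
  ok : ∀ t, ∀ β ∈ B t, β ∈ G t ∧ Below (c t) β
  stem : ∀ β t, β :: t <:+ s → β ∈ G t ∧ Below (c t) β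

/-- nodes of the tree of `p` -/
def In (p : PP K) (t : List K) : Prop := t <:+ p.s ∨ Up p.s p.B t

/-- `q` extends the data `(s, B, c)` -/
structure RLe (q : PP K) (s : List K) (B : List K → Set K) (c : List K → Cnd K) : Prop where
  up : Up s B q.s
  sub : ∀ t, Up q.s q.B t → q.B t ⊆ B t
  ext : ∀ t, In q t → c t ⊆ q.c t

theorem In.transfer {q : PP K} {s t : List K} {B : List K → Set K} (h : In q t)
    (h1 : Up s B q.s) (h2 : ∀ t, Up q.s q.B t → q.B t ⊆ B t) : t <:+ s ∨ Up s B t :=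
  h.elim h1.of_suffix fun h => Or.inr (h1.trans h h2)

theorem RLe.trans {r q : PP K} {s : List K} {B : List K → Set K} {c : List K → Cnd K}
    (h : RLe r q.s q.B q.c) (h' : RLe q s B c) : RLe r s B c :=
  ⟨h'.up.trans h.up h'.sub, fun t ht => (h.sub t ht).trans (h'.sub t (h.up.trans ht h.sub)),
    fun t ht => (h'.ext t (ht.transfer h.up h.sub)).trans (h.ext t ht)⟩

instance : Preorder (PP K) where
  le q p := RLe q p.s p.B p.c
  le_refl _ := ⟨.base, fun _ _ => subset_rfl, fun _ _ => subset_rfl⟩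
  le_trans _ _ _ h h' := RLe.trans h h'

theorem In.ok {p : PP K} {t : List K} {β : K} (h : In p (β :: t)) :
    β ∈ G t ∧ Below (p.c t) β := by
  rcases h with h | h
  · exact p.stem β t h
  · rcases h.cons_cases with e | h
    · exact p.stem β t (e ▸ List.suffix_refl _)
    · exact p.ok t β h.2

theorem In.of_suffix {p : PP K} {t u : List K} (h : In p u) (ht : t <:+ u) : In p t :=
  h.elim (fun h => Or.inl (ht.trans h)) fun h => h.of_suffix ht

theorem In.comp {p : PP K} {t : List K} (h : In p t) : t <:+ p.s ∨ p.s <:+ t :=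
  h.imp_right Up.suffix

theorem In.mono {q p : PP K} {t : List K} (h : In q t) (e : q ≤ p) : In p t :=
  h.transfer e.up e.sub

theorem stem_le {q p : PP K} (e : q ≤ p) : p.s <:+ q.s := e.up.suffix

instance : OrderTop (PP K) where
  top := ⟨[], G, fun _ => ∅, fun _ => .empty _, ae_G, fun _ _ h => ⟨h, by simp [Below]⟩, by simp⟩
  le_top q := by
    refine ⟨?_, fun t _ β h => (q.ok t β h).1, fun _ _ => empty_subset _⟩
    have : ∀ t, t <:+ q.s → Up [] G t := fun t ht => by
      induction t with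
      | nil => exact .base
      | cons a t ih => exact .step (ih ((List.suffix_cons _ _).trans ht)) (q.stem a t ht).1
    exact this _ (List.suffix_refl _)

/-- the condition given by data, after shrinking the tree -/
def mkP (s : List K) (B : List K → Set K) (c : List K → Cnd K) (col : ∀ t, IsCol (nu t) (c t))
    (big : ∀ t, ∀ᶠ β in UF K, β ∈ B t)
    (stem : ∀ β t, β :: t <:+ s → β ∈ G t ∧ Below (c t) β) : PP K :=
  ⟨s, fun t => {β | β ∈ B t ∧ β ∈ G t ∧ Below (c t) β}, c, col,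
    fun t => (big t).and ((ae_G t).and (col t).ae_below), fun _ _ h => h.2, stem⟩

/-- move the stem to a node of the tree -/
def PP.at (p : PP K) (t : List K) (h : Up p.s p.B t) : PP K :=
  ⟨t, p.B, p.c, p.col, p.big, p.ok, fun _ _ ht => In.ok (In.of_suffix (Or.inr h) ht)⟩

theorem PP.at_le (p : PP K) (t : List K) (h : Up p.s p.B t) : p.at t h ≤ p :=
  ⟨h, fun _ _ => subset_rfl, fun _ _ => subset_rfl⟩

theorem exists_ext (p : PP K) {S : K → Prop} (h : ∀ᶠ β in UF K, S β) :
    ∃ q ≤ p, ∃ β, S β ∧ q.s = β :: p.s ∧ q.c = p.c := by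
  obtain ⟨β, h1, h2⟩ := (h.and (p.big p.s)).exists
  exact ⟨_, p.at_le _ (.step .base h2), β, h1, rfl, rfl⟩

theorem exists_long (p : PP K) (n : ℕ) : ∃ q ≤ p, n ≤ q.s.length := by
  induction n with
  | zero => exact ⟨p, le_rfl, Nat.zero_le _⟩
  | succ n ih =>
    obtain ⟨q, hq, h⟩ := ih
    obtain ⟨r, hr, β, -, h1, -⟩ := exists_ext q (S := fun _ => True) (by simp)
    exact ⟨r, hr.trans hq, by simp [h1, h]⟩

/-- replace the collapse conditions by stronger ones -/
theorem exists_strong (p : PP K) (c : List K → Cnd K) (col : ∀ t, IsCol (nu t) (c t))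
    (stem : ∀ β t, β :: t <:+ p.s → Below (c t) β) (h : ∀ t, In p t → p.c t ⊆ c t) :
    ∃ q ≤ p, q.s = p.s ∧ q.c = c :=
  ⟨mkP p.s p.B c col p.big fun β t ht => ⟨(p.stem β t ht).1, stem β t ht⟩,
    ⟨.base, fun _ _ _ h => h.1, fun t ht => h t (ht.transfer .base fun _ _ _ h => h.1)⟩, rfl, rfl⟩

open Classical in
/-- the point of `u` following the initial segment `t` -/
noncomputable def nb (t u : List K) : K := if h : ∃ β, β :: t <:+ u then h.choose else al K 0

theorem nb_eq {t u : List K} {β : K} (h : β :: t <:+ u) : nb t u = β := by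
  have h1 : ∃ β, β :: t <:+ u := ⟨β, h⟩
  rw [nb, dif_pos h1]
  have h2 := (List.suffix_of_suffix_length_le h1.choose_spec h (by simp)).eq_of_length (by simp)
  exact (List.cons.inj h2).1

theorem amalgamate {p : PP K} {t : List K} (ht : Up p.s p.B t) (q : K → PP K) {R : PP K → Prop}
    (h : ∀ᶠ β in UF K, q β ≤ p ∧ (q β).s = β :: t ∧ Dn R (q β)) :
    ∃ r ≤ p, r.s = t ∧ Dn R r := by
  obtain ⟨ρ, hρ⟩ := low_press t (fun β => low (β :: t) (q β).c) (h.mono fun β h =>
    lowOK_low_iff.2 fun γ u hu => ⟨(q β).col u, ((q β).stem γ u (h.2.1 ▸ hu)).2⟩)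
  let X : Set K := {β | (q β ≤ p ∧ (q β).s = β :: t ∧ Dn R (q β)) ∧
    low (β :: t) (q β).c = ρ ∧ β ∈ p.B t}
  have hX : ∀ᶠ β in UF K, β ∈ X := h.and (hρ.and (p.big t))
  obtain ⟨b, hb⟩ := hX.exists
  have hlow : ∀ β ∈ X, ∀ u, u <:+ t → (q β).c u = (q b).c u := fun β hβ u hu => by
    have e : low (β :: t) (q β).c = low (β :: t) (q b).c := hβ.2.1.trans hb.2.1.symm
    rcases suffix_cases hu with rfl | ⟨γ, hγ⟩
    · exact low_congr e (List.suffix_refl _)
    · exact low_congr e (hγ.trans (List.suffix_cons _ _))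
  let r : PP K := mkP t (fun u => if u.length ≤ t.length then X else (q (nb t u)).B u)
    (fun u => if u.length ≤ t.length then (q b).c u else (q (nb t u)).c u)
    (fun u => by split_ifs <;> exact PP.col _ u)
    (fun u => by
      split_ifs
      · exact hX
      · exact PP.big _ u)
    (fun γ u hu => by
      rw [if_pos ((List.suffix_cons _ _).trans hu).length_le]
      exact (q b).stem γ u (hb.1.2.1 ▸ hu.trans (List.suffix_cons _ _)))
  have hB0 : r.B t ⊆ X := fun γ hγ => by simpa [r, mkP] using hγ.1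
  have hB : ∀ β u, β :: t <:+ u → r.B u ⊆ (q β).B u := fun β u hu γ hγ => by
    have := hγ.1
    beta_reduce at this
    rwa [if_neg (not_cons_suffix hu), nb_eq hu] at this
  have hc0 : ∀ u, u <:+ t → r.c u = (q b).c u := fun u hu => if_pos hu.length_le
  have hc : ∀ β u, β :: t <:+ u → r.c u = (q β).c u := fun β u hu => by
    change (if u.length ≤ t.length then (q b).c u else (q (nb t u)).c u) = _
    rw [if_neg (not_cons_suffix hu), nb_eq hu]
  have key : ∀ u, Up t r.B u → u = t ∨ ∃ β ∈ X, Up (β :: t) (q β).B u := fun u hu => by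
    induction hu with
    | base => exact Or.inl rfl
    | step h1 h2 ih =>
      rcases ih with rfl | ⟨β, hβ, ih⟩
      · exact Or.inr ⟨_, hB0 h2, .base⟩
      · exact Or.inr ⟨β, hβ, .step ih (hB β _ ih.suffix h2)⟩
  refine ⟨r, ⟨ht, fun u hu => ?_, fun u hu => ?_⟩, rfl, fun x hx => ?_⟩
  · rcases key u hu with rfl | ⟨β, hβ, h1⟩
    · exact fun γ hγ => (hB0 hγ).2.2
    · exact (hB β u h1.suffix).trans (hβ.1.1.sub u (hβ.1.2.1 ▸ h1))
  · have h0 : u <:+ t → p.c u ⊆ r.c u := fun hu => hc0 u hu ▸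
      hb.1.1.ext u (Or.inl (hb.1.2.1 ▸ hu.trans (List.suffix_cons _ _)))
    rcases hu with hu | hu
    · exact h0 hu
    · rcases key u hu with rfl | ⟨β, hβ, h1⟩
      · exact h0 (List.suffix_refl _)
      · exact hc β u h1.suffix ▸ hβ.1.1.ext u (Or.inr (hβ.1.2.1 ▸ h1))
  · obtain ⟨y, hy, γ, -, e, -⟩ := exists_ext x (S := fun _ => True) (by simp)
    have hyr := hy.trans hx
    rcases key _ hyr.up with e' | ⟨β, hβ, h1⟩
    · exact (not_cons_suffix (β := γ) (t := x.s) (s := t) (e' ▸ e ▸ List.suffix_refl _)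
        (stem_le hx).length_le).elim
    · have h2 : y ≤ q β := by
        refine ⟨hβ.1.2.1 ▸ h1, fun u hu => (hyr.sub u hu).trans (hB β u (h1.suffix.trans hu.suffix)),
          fun u hu => subset_trans ?_ (hyr.ext u hu)⟩
        have h3 : u <:+ β :: t ∨ β :: t <:+ u := hu.comp.elim
          (fun hu => List.suffix_or_suffix_of_suffix hu h1.suffix) fun hu => Or.inr (h1.suffix.trans hu)
        rcases h3 with h3 | h3
        · rcases List.suffix_cons_iff.1 h3 with rfl | h3
          · rw [hc β _ (List.suffix_refl _)]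
          · rw [hc0 u h3, hlow β hβ u h3]
        · rw [hc β u h3]
      obtain ⟨z, hz, h3⟩ := hβ.1.2.2 y h2
      exact ⟨z, hz.trans hy, h3⟩

/-- the Prikry property -/
theorem decide_le (p : PP K) (γ : K) (R : K → PP K → Prop)
    (hR : ∀ q, ∃ r ≤ q, ∃ y < γ, Dn (R y) r) : ∃ q ≤ p, q.s = p.s ∧ ∃ y < γ, Dn (R y) q := by
  classical
  let Gd : List K → Prop := fun t => ∃ q ≤ p, q.s = t ∧ ∃ y < γ, Dn (R y) q
  have step : ∀ t, Up p.s p.B t → ¬ Gd t → ∀ᶠ β in UF K, ¬ Gd (β :: t) := fun t ht h => by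
    refine ae_not fun h1 => h ?_
    have h2 : ∀ β, ∃ x : PP K × K, Gd (β :: t) →
        x.1 ≤ p ∧ x.1.s = β :: t ∧ x.2 < γ ∧ Dn (R x.2) x.1 := fun β => by
      by_cases hβ : Gd (β :: t)
      · obtain ⟨q, g1, g2, y, g3⟩ := hβ
        exact ⟨(q, y), fun _ => ⟨g1, g2, g3⟩⟩
      · exact ⟨(p, γ), fun h => absurd h hβ⟩
    choose x hx using h2
    obtain ⟨y, hy⟩ := ae_const_small (S := Iio γ) (cd_lt γ) (f := fun β => (x β).2)
      (h1.mono fun β h => (hx β h).2.2.1)
    obtain ⟨β, g1, g2⟩ := (h1.and hy).exists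
    obtain ⟨r, r1, r2, r3⟩ := amalgamate ht (fun β => (x β).1) (R := R y)
      ((h1.and hy).mono fun β h => ⟨(hx β h.1).1, (hx β h.1).2.1, h.2 ▸ (hx β h.1).2.2.2⟩)
    exact ⟨r, r1, r2, y, g2 ▸ (hx β g1).2.2.1, r3⟩
  by_contra hcon
  let p' : PP K := mkP p.s (fun t => {β | β ∈ p.B t ∧ (Up p.s p.B t → ¬ Gd t → ¬ Gd (β :: t))})
    p.c p.col (fun t => (p.big t).and (by
      by_cases h : Up p.s p.B t ∧ ¬ Gd t
      · exact (step t h.1 h.2).mono fun _ h _ _ => h
      · exact Eventually.of_forall fun _ h1 h2 => absurd ⟨h1, h2⟩ h)) p.stem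
  have hp : p' ≤ p := ⟨.base, fun _ _ _ h => h.1.1, fun _ _ => subset_rfl⟩
  have key : ∀ t, Up p.s p'.B t → Up p.s p.B t ∧ ¬ Gd t := fun t ht => by
    induction ht with
    | base => exact ⟨.base, hcon⟩
    | step _ h2 ih => exact ⟨.step ih.1 h2.1.1, h2.1.2 ih.1 ih.2⟩
  obtain ⟨r, hr, h⟩ := hR p'
  exact (key _ hr.up).2 ⟨r, hr.trans hp, rfl, h⟩

/-- for some tree, `R` is dense below the data `(s, c)` -/
def FA (s : List K) (c : List K → Cnd K) (R : PP K → Prop) : Prop :=
  ∃ B : List K → Set K, (∀ t, ∀ᶠ β in UF K, β ∈ B t) ∧ ∀ q, RLe q s B c → Dn R q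

theorem FA.mono {s : List K} {c c' : List K → Cnd K} {R : PP K → Prop} (h : FA s c R)
    (e : ∀ t, t <:+ s ∨ s <:+ t → c t ⊆ c' t) : FA s c' R := by
  obtain ⟨B, h1, h2⟩ := h
  exact ⟨B, h1, fun q hq => h2 q ⟨hq.up, hq.sub, fun t ht =>
    (e t ((ht.transfer hq.up hq.sub).imp_right Up.suffix)).trans (hq.ext t ht)⟩⟩

theorem decide_FA (s : List K) (c : List K → Cnd K) (col : ∀ t, IsCol (nu t) (c t))
    (stem : ∀ β t, β :: t <:+ s → β ∈ G t ∧ Below (c t) β) (γ : K) (R : K → PP K → Prop)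
    (hR : ∀ q, ∃ r ≤ q, ∃ y < γ, Dn (R y) r) :
    ∃ c' : List K → Cnd K, (∀ t, IsCol (nu t) (c' t)) ∧ (∀ β t, β :: t <:+ s → Below (c' t) β) ∧
      (∀ t, c t ⊆ c' t) ∧ ∃ y, FA s c' (R y) := by
  classical
  obtain ⟨q, hq, e, y, -, hy⟩ := decide_le (mkP s (fun _ => univ) c col (by simp) stem) γ R hR
  have e' : q.s = s := e
  refine ⟨fun t => if In q t then q.c t else c t, fun t => ?_, fun β t ht => ?_, fun t => ?_,
    y, q.B, q.big, fun r hr => hy.mono ?_⟩
  · beta_reduce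
    split_ifs
    exacts [q.col t, col t]
  · beta_reduce
    rw [if_pos (show In q t from Or.inl (e' ▸ (List.suffix_cons _ _).trans ht))]
    exact (q.stem β t (e' ▸ ht)).2
  · beta_reduce
    split_ifs with h
    exacts [hq.ext t h, subset_rfl]
  · refine ⟨e' ▸ hr.up, hr.sub, fun t ht => ?_⟩
    have := hr.ext t ht
    rwa [if_pos (show In q t from ht.transfer (e' ▸ hr.up) hr.sub)] at this

end Pool.Agent.P.MP_2e9c36_lc
end

-- part Pool.Agent.P.MP_2e9c36_lc.Cover
section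

set_option autoImplicit false
set_option linter.unusedSectionVars false

/-! Deciding many values modulo the lower part; preservation of cardinals. -/

open Cardinal Set Filter Pool.Agent.Lib.PosetForcing

namespace Pool.Agent.P.MP_2e9c36_lc

universe u

variable {K : Type u} [LinearOrder K] [WellFoundedLT K] [NM K]

theorem comp_of_suffix {s t u : List K} (ht : t <:+ s) (h : u <:+ s ∨ s <:+ u) :
    u <:+ t ∨ t <:+ u :=
  h.elim (fun h => List.suffix_or_suffix_of_suffix h ht) fun h => Or.inr (ht.trans h)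

theorem cover (p : PP K) {t : List K} (ht : t <:+ p.s) {ι : Type u} (hι : #ι ≤ cd (nu t))
    (hc : #{ρ | LowOK t ρ} ≤ cd (nu t)) (γ : K) (R : ι → K → PP K → Prop)
    (hR : ∀ i q, ∃ r ≤ q, ∃ y < γ, Dn (R i y) r) :
    ∃ q ≤ p, q.s = p.s ∧ ∀ i ρ0, LowOK t ρ0 → ∃ ρ, LowOK t ρ ∧ Sub ρ0 ρ ∧
      ∃ y, ∀ r ≤ q, Sub ρ (low t r.c) → Dn (R i y) r := by
  classical
  have hX : #(ι × {ρ | LowOK t ρ}) ≤ cd (nu t) := by
    rw [mk_prod, lift_id, lift_id]
    exact (mul_le_mul' hι hc).trans (mul_eq_self (cd_nu_inf t)).le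
  obtain ⟨D, h1, h2, h3⟩ := meet_all (S := List K) (X := ι × {ρ | LowOK t ρ}) nu cd_nu_inf
    (fun s x => ∀ β, β :: s <:+ p.s → x.1 < β) (fun _ s => t <:+ s)
    (fun s => by
      by_cases hs : t <:+ s
      · exact (mk_set_le _).trans (hX.trans (cd_mono (nu_mono hs)))
      · simp [hs])
    (fun a D => ∃ ρ, LowOK t ρ ∧ Sub a.2.1 ρ ∧ ∃ y, FA p.s (sp t ρ D) (R a.1 y))
    (fun a D D' e ⟨ρ, g1, g2, y, g3⟩ => ⟨ρ, g1, g2, y, g3.mono fun u hu =>
      sp_mono g1.length (Sub.rfl' _) (comp_of_suffix ht hu) (e u)⟩)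
    (fun a D hD => by
      obtain ⟨c, g1, g2, g3, y, g4⟩ := decide_FA p.s (sp t a.2 D) (sp_col a.2.2 fun s => (hD s).1)
        (fun β u hu => ⟨(p.stem β u hu).1, by
          rcases sp_eq_or t a.2 D u with e | ⟨β', h⟩
          · exact e ▸ fun x hx => (hD u).2 x hx β hu
          · rw [← nb_eq hu, nb_eq (h.trans ht)]
            exact sp_below D a.2.2 h⟩) γ (R a.1) (hR a.1)
      have hl : LowOK t (low t c) := lowOK_low_iff.2 fun β u hu => ⟨g1 u, g2 β u (hu.trans ht)⟩
      refine ⟨fun s => if t <:+ s then c s else D s, fun s => ?_, fun s => ?_, low t c, hl, ?_,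
        y, g4.mono fun u hu => ?_⟩
      · beta_reduce
        split_ifs
        exacts [⟨g1 s, fun x hx β h => g2 β s h x hx⟩, hD s]
      · beta_reduce
        split_ifs with h
        exacts [sp_of_le a.2.1 D h.length_le ▸ g3 s, subset_rfl]
      · exact low_sp D a.2.2.length ▸ low_sub_iff.2 fun _ u _ => g3 u
      · have h1 : t <:+ u → c u ⊆ sp t (low t c) (fun s => if t <:+ s then c s else D s) u :=
          fun h => by rw [sp_of_le _ _ h.length_le, if_pos h]
        rcases comp_of_suffix ht hu with h | h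
        · rcases suffix_cases h with rfl | ⟨β, hβ⟩
          · exact h1 (List.suffix_refl _)
          · exact (low_congr (low_sp _ hl.length) hβ).ge
        · exact h1 h)
    p.c fun s => ⟨p.col s, fun x hx β h => (p.stem β s h).2 x hx⟩
  choose ρ g1 g2 y B g3 g4 using h3
  refine ⟨mkP p.s (fun u => {β | β ∈ p.B u ∧ ∀ a, β ∈ B a u}) D (fun s => (h1 s).1)
    (fun u => (p.big u).and (ae_all (hX.trans_lt (cd_lt _)) fun a => g3 a u))
    fun β u hu => ⟨(p.stem β u hu).1, fun x hx => (h1 u).2 x hx β hu⟩,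
    ⟨.base, fun _ _ _ h => h.1.1, fun u _ => h2 u⟩, rfl, fun i ρ0 h0 =>
      ⟨ρ (i, ⟨ρ0, h0⟩), g1 _, g2 (i, ⟨ρ0, h0⟩), y (i, ⟨ρ0, h0⟩),
      fun r hr hρ => g4 (i, ⟨ρ0, h0⟩) r ⟨?_, ?_, ?_⟩⟩⟩
  · exact Up.trans .base hr.up fun _ _ _ h => h.1.2 _
  · exact fun u hu β h => (hr.sub u hu h).1.2 _
  · exact fun u hu => sp_sub (g1 _).length hρ (comp_of_suffix ht (hu.mono hr).comp)
      fun _ => hr.ext u hu

theorem lowOK_low (p : PP K) {t : List K} (ht : t <:+ p.s) : LowOK t (low t p.c) :=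
  lowOK_low_iff.2 fun β u hu => ⟨p.col u, (p.stem β u (hu.trans ht)).2⟩

theorem low_mono {p q : PP K} (h : q ≤ p) {t : List K} (ht : t <:+ q.s) :
    Sub (low t p.c) (low t q.c) :=
  low_sub_iff.2 fun _ u hu => h.ext u (Or.inl ((List.suffix_cons _ _).trans (hu.trans ht)))

theorem exists_low (p : PP K) {t : List K} (ht : t <:+ p.s) {ρ : List (Cnd K)} (h : LowOK t ρ)
    (e : Sub (low t p.c) ρ) : ∃ q ≤ p, q.s = p.s ∧ low t q.c = ρ := by
  obtain ⟨q, hq, e1, e2⟩ := exists_strong p (sp t ρ p.c) (sp_col h p.col) (fun β u hu => by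
    rcases sp_eq_or t ρ p.c u with e | ⟨β', h'⟩
    · exact e ▸ (p.stem β u hu).2
    · rw [← nb_eq hu, nb_eq (h'.trans ht)]
      exact sp_below _ h h') fun u _ => by
    rcases sp_eq_or t ρ p.c u with e | ⟨β', h'⟩
    · exact e.ge
    · exact low_sub_iff.1 ((low_sp p.c h.length).symm ▸ e) β' u h'
  exact ⟨q, hq, e1, e2 ▸ low_sp _ h.length⟩

/-- no generic injection of `lam` into `θ` -/
theorem no_inj (p : PP K) {t : List K} (ht : t <:+ p.s) {lam θ : K} (hθ : θ ≤ nu t)
    (hc : #{ρ | LowOK t ρ} ≤ cd (nu t)) (pig : Pigeon t lam θ) (E : K → K → PP K → Prop)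
    (mono : ∀ y i q r, r ≤ q → E y i q → E y i r)
    (tot : ∀ y < lam, ∀ q ≤ p, ∃ r ≤ q, ∃ i < θ, E y i r)
    (inj : ∀ y y' i, ∀ q ≤ p, E y i q → E y' i q → y = y') : False := by
  obtain ⟨q, hq, e, h⟩ := cover p ht (ι := Iio θ) (cd_mono hθ) hc (sc lam)
    (fun i y r => (y < lam ∧ E y i r) ∨ (y = lam ∧ ∀ r' ≤ r, ∀ y' < lam, ¬ E y' i r'))
    fun i q => by
      by_cases h : ∃ r ≤ q, ∃ y < lam, E y i r
      · obtain ⟨r, hr, y, hy, h⟩ := h
        exact ⟨r, hr, y, hy.trans (lt_sc _), fun r' hr' =>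
          ⟨r', le_rfl, Or.inl ⟨hy, mono _ _ _ _ hr' h⟩⟩⟩
      · exact ⟨q, le_rfl, lam, lt_sc _, fun r hr => ⟨r, le_rfl, Or.inr ⟨rfl,
          fun r' hr' y hy h' => h ⟨r', hr'.trans hr, y, hy, h'⟩⟩⟩⟩
  have htq : t <:+ q.s := e ▸ ht
  have h1 : ∀ y, ∃ (ρ : List (Cnd K)) (i : K), y < lam → LowOK t ρ ∧ i < θ ∧ Sub (low t q.c) ρ ∧
      ∀ r ≤ q, Sub ρ (low t r.c) → Dn (E y i) r := fun y => by
    by_cases hy : y < lam
    · obtain ⟨r, hr, i, hi, g⟩ := tot y hy q hq
      have htr : t <:+ r.s := htq.trans (stem_le hr)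
      obtain ⟨ρ, g1, g2, z, g3⟩ := h ⟨i, hi⟩ _ (lowOK_low r htr)
      obtain ⟨r1, k1, -, k2⟩ := exists_low r htr g1 g2
      obtain ⟨r2, k3, k4⟩ := g3 r1 (k1.trans hr) (k2 ▸ Sub.rfl' _) r1 le_rfl
      have k5 := mono _ _ _ _ (k3.trans k1) g
      obtain rfl : z = y := by
        rcases k4 with k4 | k4
        · exact inj _ _ _ r2 (k3.trans (k1.trans (hr.trans hq))) k4.2 k5
        · exact absurd k5 (k4.2 r2 le_rfl y hy)
      refine ⟨ρ, i, fun _ => ⟨g1, hi, (low_mono hr htr).trans' g2, fun r' hr' e' x hx => ?_⟩⟩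
      obtain ⟨x', hx', k6⟩ := g3 r' hr' e' x hx
      exact ⟨x', hx', (k6.resolve_right fun k => hy.ne k.1).2⟩
    · exact ⟨[], θ, fun h => absurd h hy⟩
  choose ρ i hρ using h1
  obtain ⟨y, hy, y', hy', hne, ei, σ, s1, s2, s3⟩ := pig ρ i
    fun y hy => ⟨(hρ y hy).1, (hρ y hy).2.1⟩
  obtain ⟨r, r1, r2, r3⟩ := exists_low q htq s1 ((hρ y hy).2.2.1.trans' s2)
  obtain ⟨a, a1, a2⟩ := (hρ y hy).2.2.2 r r1 (r3 ▸ s2) r le_rfl
  obtain ⟨b, b1, b2⟩ := (hρ y' hy').2.2.2 r r1 (r3 ▸ s3) a a1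
  exact hne (inj _ _ (i y') b (b1.trans (a1.trans (r1.trans hq))) (ei ▸ mono _ _ _ _ b1 a2) b2)

theorem count_nil : #{ρ : List (Cnd K) | LowOK [] ρ} ≤ ℵ₀ := by
  refine le_trans (mk_le_mk_of_subset (t := {[]}) fun ρ h => ?_) (by simp)
  cases h
  rfl

/-- few values below a fixed bound are decided by one extension -/
theorem decide_all (p : PP K) {ι : Type u} (hι : #ι ≤ cd (al K 3)) (γ : K)
    (R : ι → K → PP K → Prop) (hR : ∀ i q, ∃ r ≤ q, ∃ y < γ, Dn (R i y) r) :
    ∃ q ≤ p, ∀ i, ∃ y, Dn (R i y) q := by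
  obtain ⟨q, hq, -, h⟩ := cover p (t := []) List.nil_suffix hι
    (count_nil.trans (cd_nu_inf _)) γ R hR
  refine ⟨q, hq, fun i => ?_⟩
  obtain ⟨ρ, g1, -, y, g2⟩ := h i [] .nil
  cases g1
  exact ⟨y, g2 q le_rfl .nil⟩

end Pool.Agent.P.MP_2e9c36_lc
end

-- part Pool.Agent.P.MP_2e9c36_lc.Step
section

set_option autoImplicit false
set_option linter.unusedSectionVars false

/-! Systems of collapse conditions depending on indiscernibles; deciding one value uniformly. -/

open Cardinal Set Filter Pool.Agent.Lib.PosetForcing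

namespace Pool.Agent.P.MP_2e9c36_lc

universe u

variable {K : Type u} [LinearOrder K] [WellFoundedLT K] [NM K]

/-- for almost all next points -/
def sh (φ : List K → Prop) (l : List K) : Prop := ∀ᶠ η in UF K, φ (η :: l)

/-- for almost all sequences of length `k` -/
def AE (k : ℕ) (φ : List K → Prop) : Prop := sh^[k] φ []

theorem AE.mono {k : ℕ} {φ ψ : List K → Prop} (h : AE k φ)
    (e : ∀ l, l.length = k → φ l → ψ l) : AE k ψ := by
  induction k generalizing φ ψ with
  | zero => exact e [] rfl h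
  | succ k ih => exact ih (φ := sh φ) (ψ := sh ψ) h fun l hl h =>
      Eventually.mono h fun η h => e _ (by simp [hl]) h

/-- the support lies above the last point of `l` -/
def Abv (l : List K) (x : K × K × K) : Prop := ∀ η l', l = η :: l' → η ≤ x.1

/-- the union of the pieces along `l` -/
def cum (d : List K → Cnd K) : List K → Cnd K
  | [] => d []
  | η :: l => cum d l ∪ d (η :: l)

theorem cum_mono {d d' : List K → Cnd K} {l : List K}
    (h : ∀ l', l'.length ≤ l.length → d l' ⊆ d' l') : cum d l ⊆ cum d' l := by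
  induction l with
  | nil => exact h [] le_rfl
  | cons a l ih => exact union_subset_union (ih fun l' hl => h l' (by simp; omega)) (h _ le_rfl)

theorem sub_cum (d : List K → Cnd K) (l : List K) : d l ⊆ cum d l := by
  cases l with
  | nil => exact subset_rfl
  | cons a l => exact subset_union_right

theorem ae_cum {ν : K} (hν : ℵ₀ ≤ cd ν) {d : List K → Cnd K}
    (hd : ∀ l, IsCol ν (d l) ∧ ∀ x ∈ d l, Abv l x) (k : ℕ) : AE k fun l => IsCol ν (cum d l) := by
  induction k with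
  | zero => exact (hd []).1
  | succ k ih =>
    exact AE.mono (ψ := sh fun l => IsCol ν (cum d l)) ih fun l _ h => h.ae_below.mono fun η hη =>
      h.union hν (hd _).1 fun x hx y hy e =>
        absurd (e ▸ hη x hx) (not_lt.2 ((hd _).2 y hy η l rfl))

theorem eta_press {X : Type*} {S : X → Prop} (hS : Press fun x (_ : K) => S x) {ν : K} (k : ℕ)
    (d : List K → Cnd K) (hd : ∀ l, IsCol ν (d l) ∧ ∀ x ∈ d l, Abv l x)
    (W : List K → X → Cnd K → Prop) (mono : ∀ l x c c', S x → c ⊆ c' → W l x c → W l x c')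
    (h : AE k fun l => ∃ x c, S x ∧ IsCol ν c ∧ cum d l ⊆ c ∧ W l x c) :
    ∃ (x : X) (d' : List K → Cnd K), S x ∧ (∀ l, IsCol ν (d' l) ∧ ∀ x ∈ d' l, Abv l x) ∧
      (∀ l, d l ⊆ d' l) ∧ AE k fun l => W l x (cum d' l) := by
  classical
  induction k generalizing d W with
  | zero =>
    obtain ⟨x, c, h1, h2, h3, h4⟩ := h
    refine ⟨x, fun l => if l = [] then c else d l, h1, fun l => ?_, fun l => ?_, ?_⟩
    · beta_reduce
      split_ifs with e
      · exact ⟨h2, fun _ _ _ _ e' => by simp [e] at e'⟩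
      · exact hd l
    · beta_reduce
      split_ifs with e
      · exact e ▸ h3
      · exact subset_rfl
    · simpa [AE, cum] using h4
  | succ k ih =>
    let Ex : List K → Prop := fun l => ∃ x c, S x ∧ IsCol ν c ∧ cum d l ⊆ c ∧ W l x c
    let d1 : List K → Cnd K := fun l => if h : l.length = k + 1 ∧ Ex l then
      {z | z ∈ h.2.choose_spec.choose ∧ Abv l z} else d l
    have hd1 : ∀ l, IsCol ν (d1 l) ∧ ∀ x ∈ d1 l, Abv l x := fun l => by
      simp only [d1]
      split_ifs with e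
      · exact ⟨e.2.choose_spec.choose_spec.2.1.subset fun _ h => h.1, fun _ h => h.2⟩
      · exact hd l
    have hdd : ∀ l, d l ⊆ d1 l := fun l => by
      simp only [d1]
      split_ifs with e
      · exact fun z hz => ⟨e.2.choose_spec.choose_spec.2.2.1 (sub_cum d l hz), (hd l).2 z hz⟩
      · exact subset_rfl
    obtain ⟨x, d', g1, g2, g3, g4⟩ := ih d1 hd1
      (fun l x c => ∀ᶠ η in UF K, W (η :: l) x (c ∪ d1 (η :: l)))
      (fun l x c c' hx e h => h.mono fun η h => mono _ _ _ _ hx (union_subset_union_left _ e) h)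
      (AE.mono (φ := sh Ex) h fun l hl h => by
        obtain ⟨η0, h0⟩ := Eventually.exists h
        obtain ⟨x0, hx0⟩ := hS (fun η => if e : Ex (η :: l) then e.choose else h0.choose)
          (Eventually.mono h fun η e => by
            beta_reduce
            rw [dif_pos e]
            exact e.choose_spec.choose_spec.1)
        obtain ⟨c0, hc0⟩ := press_col ν (fun η => if e : Ex (η :: l) then
            {z | z ∈ e.choose_spec.choose ∧ z.1 < η} else ∅)
          (Eventually.mono h fun η e => by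
            beta_reduce
            rw [dif_pos e]
            exact ⟨e.choose_spec.choose_spec.2.1.subset fun _ h => h.1, fun _ h => h.2⟩)
        have hcl : IsCol ν (cum d l) := h0.choose_spec.choose_spec.2.1.subset
          (subset_union_left.trans h0.choose_spec.choose_spec.2.2.1)
        obtain ⟨η, e, e1, e2, e3⟩ := (Eventually.and h (hx0.and (hc0.and hcl.ae_below))).exists
        rw [dif_pos e] at e1 e2
        refine ⟨x0, c0, e1 ▸ e.choose_spec.choose_spec.1,
          e2 ▸ e.choose_spec.choose_spec.2.1.subset fun _ h => h.1, ?_, ?_⟩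
        · refine subset_trans (cum_mono fun l' hl' => ?_) (e2 ▸ fun z hz =>
            ⟨e.choose_spec.choose_spec.2.2.1 (Or.inl hz), e3 z hz⟩ : cum d l ⊆ c0)
          simp only [d1]
          rw [dif_neg fun h => by omega]
        · refine (Eventually.and h (hx0.and hc0)).mono fun η ⟨e, e1, e2⟩ => ?_
          rw [dif_pos e] at e1 e2
          have e3 := e.choose_spec.choose_spec.2.2.2
          have e4 := e.choose_spec.choose_spec.1
          rw [← e1]
          refine mono _ _ _ _ e4 (fun z hz => ?_) e3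
          rcases lt_or_ge z.1 η with hη | hη
          · exact Or.inl (e2 ▸ ⟨hz, hη⟩)
          · right
            simp only [d1]
            rw [dif_pos ⟨by simp [hl], e⟩]
            exact ⟨hz, fun _ _ e' => (List.cons.inj e').1 ▸ hη⟩)
    exact ⟨x, d', g1, g2, fun l => (hdd l).trans (g3 l),
      AE.mono (ψ := sh fun l => W l x (cum d' l)) g4 fun l _ h => Eventually.mono h
        fun η h => mono _ _ _ _ g1 (union_subset_union_right _ (g3 _)) h⟩

/-- valid systems of pieces -/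
def SysOK (D : List K × List K → Cnd K) : Prop :=
  ∀ s, IsCol (nu s.1) (D s) ∧ ∀ x ∈ D s, Abv s.2 x

/-- all points of the node are allowed -/
def Good (t : List K) : Prop := ∀ β u, β :: u <:+ t → β ∈ G u

theorem Good.cons {t : List K} {β : K} (h : Good t) (hβ : β ∈ G t) : Good (β :: t) :=
  fun γ u hu => (List.suffix_cons_iff.1 hu).elim (fun e => by cases e; exact hβ) (h γ u)

section ok
variable (m : ℕ) (R : List K → List (List K) → K → PP K → Prop)

/-- the system `D` decides a value after `ℓ` more levels -/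
def OK (D : List K × List K → Cnd K) : ℕ → List K → List (List K) → List (Cnd K) → Prop
  | 0, t, v, r => ∃ y, FA t (sp t r fun s => D (s, [])) (R t v y)
  | ℓ + 1, t, v, r => AE m fun l => ∀ᶠ β in UF K,
      OK D ℓ (β :: t) (l :: v) (cum (fun l => D (t, l)) l :: r)

variable {m R}

theorem OK.mono {D D' : List K × List K → Cnd K} {ℓ : ℕ} {t : List K} {v : List (List K)}
    {r r' : List (Cnd K)} (h : OK m R D ℓ t v r) (hr : r.length = t.length) (e : Sub r r')
    (hD : ∀ s l, t <:+ s → D (s, l) ⊆ D' (s, l)) : OK m R D' ℓ t v r' := by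
  induction ℓ generalizing t v r r' with
  | zero =>
    obtain ⟨y, h⟩ := h
    exact ⟨y, h.mono fun u hu => sp_mono hr e hu (hD u [])⟩
  | succ ℓ ih =>
    exact AE.mono h fun l _ h => h.mono fun β h => ih h (by simp [hr])
      (.cons (cum_mono fun l' _ => hD t l' (List.suffix_refl _)) e)
      fun s l hs => hD s l ((List.suffix_cons _ _).trans hs)

theorem exists_OK (hR : ∀ t v, ∃ γ, ∀ q, ∃ r ≤ q, ∃ y < γ, Dn (R t v y) r) (ℓ : ℕ) (t : List K)
    (v : List (List K)) (r : List (Cnd K)) (D : List K × List K → Cnd K) (ht : Good t)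
    (hr : LowOK t r) (hD : SysOK D) : ∃ (D' : List K × List K → Cnd K) (r' : List (Cnd K)),
      SysOK D' ∧ (∀ s, D s ⊆ D' s) ∧ LowOK t r' ∧ Sub r r' ∧ OK m R D' ℓ t v r' := by
  classical
  induction ℓ generalizing t v r D with
  | zero =>
    obtain ⟨γ, hγ⟩ := hR t v
    obtain ⟨c, g1, g2, g3, y, g4⟩ := decide_FA t (sp t r fun s => D (s, []))
      (sp_col hr fun s => (hD (s, [])).1) (fun β u hu => ⟨ht β u hu, sp_below _ hr hu⟩) γ _ hγ
    have hl : LowOK t (low t c) := lowOK_low_iff.2 fun β u hu => ⟨g1 u, g2 β u hu⟩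
    refine ⟨fun s => if s.2 = [] ∧ t <:+ s.1 then c s.1 else D s, low t c, fun s => ?_, fun s => ?_,
      hl, low_sp (fun s => D (s, [])) hr.length ▸ low_sub_iff.2 fun _ u _ => g3 u,
      y, g4.mono fun u hu => ?_⟩
    · beta_reduce
      split_ifs with e
      · exact ⟨g1 _, fun _ _ _ _ e' => by simp [e.1] at e'⟩
      · exact hD s
    · beta_reduce
      split_ifs with e
      · have := g3 s.1
        rwa [sp_of_le _ _ e.2.length_le, ← e.1] at this
      · exact subset_rfl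
    · have h1 : t <:+ u → c u ⊆ sp t (low t c) (fun s => (fun s : List K × List K =>
          if s.2 = [] ∧ t <:+ s.1 then c s.1 else D s) (s, [])) u :=
        fun h => by rw [sp_of_le _ _ h.length_le]; simp [h]
      rcases hu with h | h
      · rcases suffix_cases h with rfl | ⟨β, hβ⟩
        · exact h1 (List.suffix_refl _)
        · exact (low_congr (low_sp _ hl.length) hβ).ge
      · exact h1 h
  | succ ℓ ih =>
    obtain ⟨D1, h1, h2, h3⟩ := meet_all (S := List K × List K) (X := K × List K)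
      (fun s => nu s.1) (fun s => cd_nu_inf _) (fun s x => Abv s.2 x)
      (fun a s => a.1 :: t <:+ s.1 ∧ ∀ x ∈ a.2, x < a.1)
      (fun s => le_trans (mk_le_of_injective
        (f := fun a : {a : K × List K | a.1 :: t <:+ s.1 ∧ ∀ x ∈ a.2, x < a.1} =>
          (⟨a.1.2, fun x hx => (a.2.2 x hx).trans_le (le_top_of_mem (a.2.1.subset (by simp)))⟩ :
            {l : List K | ∀ x ∈ l, x ∈ Iio (top s.1)})) fun a b e =>
          Subtype.ext (Prod.ext ((nb_eq a.2.1).symm.trans (nb_eq b.2.1))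
            (congrArg Subtype.val e)))
        ((mk_list_le (cd_top_inf _) le_rfl).trans (cd_lt_sc _).le))
      (fun a D' => (∀ x ∈ a.2, x < a.1) → a.1 ∈ G t →
        LowOK (a.1 :: t) (cum (fun l => D (t, l)) a.2 :: r) → ∃ r', LowOK (a.1 :: t) r' ∧
          Sub (cum (fun l => D (t, l)) a.2 :: r) r' ∧ OK m R D' ℓ (a.1 :: t) (a.2 :: v) r')
      (fun a D' D'' e h g1 g2 g3 => by
        obtain ⟨r', k1, k2, k3⟩ := h g1 g2 g3
        exact ⟨r', k1, k2, k3.mono k1.length (Sub.rfl' _) fun s l hs => e (s, l) ⟨hs, g1⟩⟩)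
      (fun a D' hD' => by
        by_cases h : a.1 ∈ G t ∧ LowOK (a.1 :: t) (cum (fun l => D (t, l)) a.2 :: r)
        · obtain ⟨D'', r', k1, k2, k3⟩ := ih (a.1 :: t) (a.2 :: v) _ D' (ht.cons h.1) h.2 hD'
          exact ⟨D'', k1, k2, fun _ _ _ => ⟨r', k3⟩⟩
        · exact ⟨D', hD', fun _ => subset_rfl, fun _ g1 g2 => absurd ⟨g1, g2⟩ h⟩) D hD
    obtain ⟨ρ, d', g1, g2, g3, g4⟩ := eta_press (S := fun ρ => LowOK t ρ ∧ Sub r ρ)
      ((low_const t).mono (Eventually.of_forall fun _ _ h => h.1)) m (fun l => D (t, l))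
      (fun l => hD (t, l)) (fun l ρ c => ∀ᶠ β in UF K, OK m R D1 ℓ (β :: t) (l :: v) (c :: ρ))
      (fun l ρ c c' hρ e h => h.mono fun β h => h.mono (by simp [hρ.1.length])
        (.cons e (Sub.rfl' _)) fun _ _ _ => subset_rfl)
      ((ae_cum (cd_nu_inf t) (fun l => hD (t, l)) m).mono fun l _ hl => by
        have k1 : ∀ᶠ β in UF K, ∃ r', LowOK (β :: t) r' ∧
            Sub (cum (fun l => D (t, l)) l :: r) r' ∧ OK m R D1 ℓ (β :: t) (l :: v) r' :=
          ((ae_gt (top l)).and ((ae_G t).and hl.ae_below)).mono fun β h =>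
            h3 (β, l) (fun x hx => (le_top_of_mem hx).trans_lt h.1) h.2.1 (.cons hl h.2.2 hr)
        obtain ⟨σ, hσ⟩ := low_press t (fun β => if e : ∃ r', LowOK (β :: t) r' ∧
            Sub (cum (fun l => D (t, l)) l :: r) r' ∧ OK m R D1 ℓ (β :: t) (l :: v) r' then
            e.choose else []) (k1.mono fun β e => by
              beta_reduce
              rw [dif_pos e]
              exact e.choose_spec.1)
        have k2 : ∀ᶠ β in UF K, LowOK (β :: t) σ ∧
            Sub (cum (fun l => D (t, l)) l :: r) σ ∧ OK m R D1 ℓ (β :: t) (l :: v) σ :=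
          (k1.and hσ).mono fun β ⟨e, e1⟩ => by
            rw [dif_pos e] at e1
            exact e1 ▸ e.choose_spec
        obtain ⟨β, k3, k4, -⟩ := k2.exists
        cases k3 with
        | cons a1 _ a3 =>
          cases k4 with
          | cons b1 b2 => exact ⟨_, _, ⟨a3, b2⟩, a1, b1, k2.mono fun _ h => h.2.2⟩)
    refine ⟨fun s => if s.1 = t then d' s.2 else D1 s, ρ, fun s => ?_, fun s => ?_, g1.1, g1.2,
      AE.mono g4 fun l _ h => h.mono fun β h => ?_⟩
    · beta_reduce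
      split_ifs with e
      · exact e ▸ g2 s.2
      · exact h1 s
    · beta_reduce
      split_ifs with e
      · exact (show s = (t, s.2) from Prod.ext e rfl) ▸ g3 s.2
      · exact h2 s
    · refine h.mono (by simp [g1.1.length]) (.cons (by simp) (Sub.rfl' _)) fun s l hs => ?_
      rw [if_neg fun e : s = t => not_cons_suffix hs (e ▸ le_rfl)]

end ok

end Pool.Agent.P.MP_2e9c36_lc
end

-- part Pool.Agent.P.MP_2e9c36_lc.Hist
section

set_option autoImplicit false
set_option linter.unusedSectionVars false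

/-! Histories (Prikry points and indiscernibles), homogeneous sets, the step lemma. -/

open Cardinal Set Filter Pool.Agent.Lib.PosetForcing

namespace Pool.Agent.P.MP_2e9c36_lc

universe u

/-- coordinates of histories -/
abbrev Co : Type := ℕ ×ₗ ℕ∞

/-- the coordinate of the `n`-th Prikry point -/
def cb (n : ℕ) : Co := toLex (n, ⊤)

/-- the coordinate of the `k`-th indiscernible below the `n`-th Prikry point -/
def ce (n k : ℕ) : Co := toLex (n, (k : ℕ∞))

theorem ce_lt_ce (n : ℕ) {k k' : ℕ} (h : k < k') : ce n k < ce n k' := by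
  simp [ce, Prod.Lex.toLex_lt_toLex, h]

theorem ce_lt_cb {n n' : ℕ} (k : ℕ) (h : n ≤ n') : ce n k < cb n' := by
  simp [ce, cb, Prod.Lex.toLex_lt_toLex, h.lt_or_eq]

theorem cb_lt_ce {n n' : ℕ} (k : ℕ) (h : n < n') : cb n < ce n' k := by
  simp [ce, cb, Prod.Lex.toLex_lt_toLex, h]

theorem cb_lt_cb {n n' : ℕ} (h : n < n') : cb n < cb n' := by
  simp [cb, Prod.Lex.toLex_lt_toLex, h]

theorem co_cases (c : Co) : ∃ n, c = cb n ∨ ∃ k, c = ce n k := by
  obtain ⟨n, k⟩ := c
  induction k using ENat.recTopCoe with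
  | top => exact ⟨n, Or.inl rfl⟩
  | coe k => exact ⟨n, Or.inr ⟨k, rfl⟩⟩

variable {K : Type u}

/-- the first `n` values, latest first -/
def lst (f : ℕ → K) : ℕ → List K
  | 0 => []
  | n + 1 => f n :: lst f n

theorem mem_lst {f : ℕ → K} {n : ℕ} {x : K} : x ∈ lst f n ↔ ∃ j < n, x = f j := by
  induction n with
  | zero => simp [lst]
  | succ n ih => simp only [lst, List.mem_cons, ih, Nat.exists_lt_succ_right, or_comm]

theorem lst_length (f : ℕ → K) (n : ℕ) : (lst f n).length = n := by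
  induction n with
  | zero => rfl
  | succ n ih => simp [lst, ih]

theorem lst_suffix (f : ℕ → K) {m n : ℕ} (h : m ≤ n) : lst f m <:+ lst f n := by
  induction h with
  | refl => exact List.suffix_refl _
  | step _ ih => exact ih.trans (List.suffix_cons _ _)

theorem lst_eq_iff {f g : ℕ → K} {n : ℕ} : lst f n = lst g n ↔ ∀ j < n, f j = g j := by
  induction n with
  | zero => simp [lst]
  | succ n ih => simp only [lst, List.cons.injEq, ih, Nat.forall_lt_succ_right, and_comm]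

theorem eq_lst_of_suffix {f : ℕ → K} {n : ℕ} {s : List K} (h : s <:+ lst f n) :
    s = lst f s.length :=
  (List.suffix_of_suffix_length_le h (lst_suffix f (lst_length f n ▸ h.length_le))
    (lst_length f _).ge).eq_of_length (lst_length f _).symm

/-- the stem of a history -/
def tt (h : Co → K) (n : ℕ) : List K := lst (fun j => h (cb j)) n

/-- the first indiscernibles at level `j` -/
def el (h : Co → K) (j k : ℕ) : List K := lst (fun i => h (ce j i)) k

/-- the blocks of indiscernibles -/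
def blk (m : ℕ) (h : Co → K) (n : ℕ) : List (List K) := lst (fun j => el h j m) n

/-- coordinates of type `m` -/
def InT (m : ℕ) (c : Co) : Prop := ∃ j < m, c = cb j ∨ ∃ k < m, c = ce j k

/-- agreement on the coordinates of type `m` -/
def Agree (m : ℕ) (h h' : Co → K) : Prop := ∀ c, InT m c → h c = h' c

theorem agree_iff {m : ℕ} {h h' : Co → K} :
    Agree m h h' ↔ tt h m = tt h' m ∧ blk m h m = blk m h' m := by
  simp only [tt, blk, el, lst_eq_iff]
  refine ⟨fun e => ⟨fun j hj => e _ ⟨j, hj, Or.inl rfl⟩,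
    fun j hj k hk => e _ ⟨j, hj, Or.inr ⟨k, hk, rfl⟩⟩⟩, ?_⟩
  rintro ⟨h1, h2⟩ _ ⟨j, hj, rfl | ⟨k, hk, rfl⟩⟩
  exacts [h1 j hj, h2 j hj k hk]

/-- `y` depends only on the coordinates of type `m` -/
def Supp {X : Type*} (y : (Co → K) → X) (m : ℕ) : Prop := ∀ h h', Agree m h h' → y h = y h'

theorem Supp.mono {X : Type*} {y : (Co → K) → X} {m m' : ℕ} (h : Supp y m) (e : m ≤ m') :
    Supp y m' := fun _ _ g => h _ _ fun c ⟨j, hj, hc⟩ => g c ⟨j, hj.trans_le e,
      hc.imp_right fun ⟨k, hk, hc⟩ => ⟨k, hk.trans_le e, hc⟩⟩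

variable [LinearOrder K] [WellFoundedLT K] [NM K]

/-- increasing histories with values in `A` -/
def Inc (A : Set K) (h : Co → K) : Prop := StrictMono h ∧ ∀ c, h c ∈ A

theorem Inc.mono {A A' : Set K} {h : Co → K} (e : Inc A h) (hA : A ⊆ A') : Inc A' h :=
  ⟨e.1, fun c => hA (e.2 c)⟩

/-- `q` extends the conditions that the system `D` attaches to the history `h` -/
structure Fits (q : PP K) (D : List K × List K → Cnd K) (h : Co → K) (m : ℕ) (A : Set K) :
    Prop where
  up : Up (tt h m) (fun _ => A) q.s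
  sub : ∀ s, Up q.s q.B s → q.B s ⊆ A
  low : ∀ j < m, ∀ k ≤ m, D (tt h j, el h j k) ⊆ q.c (tt h j)
  high : ∀ s, In q s → tt h m <:+ s → D (s, []) ⊆ q.c s

theorem Fits.mono {q : PP K} {D D' : List K × List K → Cnd K} {h : Co → K} {m : ℕ} {A A' : Set K}
    (e : Fits q D' h m A') (hD : ∀ s, D s ⊆ D' s) (hA : A' ⊆ A) : Fits q D h m A :=
  ⟨Up.trans .base e.up fun _ _ => hA, fun s hs => (e.sub s hs).trans hA,
    fun j hj k hk => (hD _).trans (e.low j hj k hk), fun s hs h => (hD _).trans (e.high s hs h)⟩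

theorem cum_lst_sub {d : List K → Cnd K} {f : ℕ → K} {c : Cnd K} {k : ℕ}
    (h : ∀ k' ≤ k, d (lst f k') ⊆ c) : cum d (lst f k) ⊆ c := by
  induction k with
  | zero => exact h 0 le_rfl
  | succ k ih => exact union_subset (ih fun k' hk => h k' (by omega)) (h _ le_rfl)

theorem In.lt {q : PP K} {β x : K} {u : List K} (h : In q (β :: u)) (hx : x ∈ u) : x < β :=
  (le_top_of_mem hx).trans_lt (top_lt_of_G h.ok.1)

/-- the lower part read off from a system -/
def lowL (D : List K × List K → Cnd K) : List K → List (List K) → List (Cnd K)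
  | _ :: t, l :: v => cum (fun l => D (t, l)) l :: lowL D t v
  | _, _ => []

theorem ae_sh {Z : Type*} {lt : Z → K → Prop} (hZ : Press lt) (φ : Z → List K → Prop) :
    ∀ᶠ η in UF K, ∀ z l, lt z η → (∀ x ∈ l, x < η) → sh (φ z) l → φ z (η :: l) :=
  ((hZ.prod press_lt.list).diag (p := fun a η => sh (φ a.1) a.2 → φ a.1 (η :: a.2)) fun a => by
    by_cases h : sh (φ a.1) a.2
    · exact Eventually.mono h fun _ h _ => h
    · exact Eventually.of_forall fun _ h' => absurd h' h).mono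
    fun _ h z l h1 h2 => h (z, l) ⟨h1, h2⟩

theorem ae_AE {Z : Type*} {lt : Z → K → Prop} (hZ : Press lt) (φ : Z → List K → Prop) :
    ∃ A : Set K, (∀ᶠ η in UF K, η ∈ A) ∧ ∀ z (f : ℕ → K), StrictMono f →
      (∀ k, f k ∈ A ∧ lt z (f k)) → ∀ m, AE m (φ z) → φ z (lst f m) := by
  refine ⟨_, ae_sh (press_nat.prod hZ) fun a => sh^[a.1] (φ a.2), fun z f hf h m hm => ?_⟩
  have key : ∀ i j, sh^[i] (φ z) (lst f j) → φ z (lst f (j + i)) := fun i => by
    induction i with
    | zero => exact fun j h => h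
    | succ i ih =>
      intro j hj
      rw [Function.iterate_succ_apply'] at hj
      rw [show j + (i + 1) = j + 1 + i by omega]
      refine ih (j + 1) ((h j).1 (i, z) _ ⟨trivial, (h j).2⟩ (fun x hx => ?_) hj)
      obtain ⟨k, hk, rfl⟩ := mem_lst.1 hx
      exact hf hk
  simpa using key m 0 hm

theorem exists_set {p : K → Prop} (h : ∀ᶠ x in UF K, p x) :
    ∃ A : Set K, (∀ᶠ x in UF K, x ∈ A) ∧ ∀ x ∈ A, p x := ⟨{x | p x}, h, fun _ h => h⟩

theorem step_list (m : ℕ) (R : List K → List (List K) → K → PP K → Prop)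
    (hR : ∀ t v, ∃ γ, ∀ q, ∃ r ≤ q, ∃ y < γ, Dn (R t v y) r) (D : List K × List K → Cnd K)
    (hD : SysOK D) : ∃ D', SysOK D' ∧ (∀ s, D s ⊆ D' s) ∧ ∃ y : List K → List (List K) → K,
      ∃ A : Set K, (∀ᶠ β in UF K, β ∈ A) ∧ ∀ h, Inc A h → ∀ q, Fits q D' h m A →
        Dn (R (tt h m) (blk m h m) (y (tt h m) (blk m h m))) q := by
  classical
  obtain ⟨D', r', h1, h2, h3, -, h4⟩ := exists_OK (m := m) hR m [] [] [] D (by simp [Good]) .nil hD
  cases h3
  have hZ := press_nat.prod ((press_lt (K := K)).list.prod (press_lt (K := K)).list.list)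
  obtain ⟨A1, a1, b1⟩ := ae_AE hZ fun z l => ∀ᶠ β in UF K,
    OK m R D' z.1 (β :: z.2.1) (l :: z.2.2) (lowL D' (β :: z.2.1) (l :: z.2.2))
  have a2 := (hZ.prod press_lt.list).diag (p := fun z β => (∀ᶠ β in UF K, OK m R D' z.1.1
      (β :: z.1.2.1) (z.2 :: z.1.2.2) (lowL D' (β :: z.1.2.1) (z.2 :: z.1.2.2))) →
      OK m R D' z.1.1 (β :: z.1.2.1) (z.2 :: z.1.2.2) (lowL D' (β :: z.1.2.1) (z.2 :: z.1.2.2)))
    fun z => by
      by_cases h : ∀ᶠ β in UF K, OK m R D' z.1.1
        (β :: z.1.2.1) (z.2 :: z.1.2.2) (lowL D' (β :: z.1.2.1) (z.2 :: z.1.2.2))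
      · exact h.mono fun _ h _ => h
      · exact Eventually.of_forall fun _ h' => absurd h' h
  have h5 : ∀ t v, ∃ (y : K) (B : List K → Set K), (∀ s, ∀ᶠ β in UF K, β ∈ B s) ∧
      (OK m R D' 0 t v (lowL D' t v) →
        ∀ q, RLe q t B (sp t (lowL D' t v) fun s => D' (s, [])) → Dn (R t v y) q) := fun t v => by
    by_cases h : OK m R D' 0 t v (lowL D' t v)
    · obtain ⟨y, B, g1, g2⟩ := h
      exact ⟨y, B, g1, fun _ => g2⟩
    · exact ⟨al K 0, fun _ => univ, by simp, fun h' => absurd h' h⟩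
  choose y B hB hy using h5
  have a3 := (hZ.prod press_lt.list).diag (p := fun z β => β ∈ B z.1.2.1 z.1.2.2 z.2)
    fun z => hB _ _ _
  obtain ⟨A, hA, hA'⟩ := exists_set (a1.and (a2.and a3))
  refine ⟨D', h1, h2, y, A, hA, fun h hh q hq => ?_⟩
  have lt1 : ∀ j c, (∀ i < j, cb i < c) →
      (∀ x ∈ tt h j, x < h c) ∧ ∀ l ∈ blk m h j, ∀ x ∈ l, x < h c := fun j c hc => by
    refine ⟨fun x hx => ?_, fun l hl x hx => ?_⟩
    · obtain ⟨i, hi, rfl⟩ := mem_lst.1 hx
      exact hh.1 (hc i hi)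
    · obtain ⟨i, hi, rfl⟩ := mem_lst.1 hl
      obtain ⟨k, hk, rfl⟩ := mem_lst.1 hx
      exact hh.1 ((ce_lt_cb k le_rfl).trans (hc i hi))
  have key : ∀ ℓ j, OK m R D' ℓ (tt h j) (blk m h j) (lowL D' (tt h j) (blk m h j)) →
      OK m R D' 0 (tt h (j + ℓ)) (blk m h (j + ℓ)) (lowL D' (tt h (j + ℓ)) (blk m h (j + ℓ))) :=
    fun ℓ => by
    induction ℓ with
    | zero => exact fun j h => h
    | succ ℓ ih =>
      intro j hj
      rw [show j + (ℓ + 1) = j + 1 + ℓ by omega]
      refine ih (j + 1) ((hA' _ (hh.2 (cb j))).2.1 ((ℓ, tt h j, blk m h j), el h j m)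
        ⟨⟨trivial, lt1 j _ fun i => cb_lt_cb⟩, fun x hx => ?_⟩
        (b1 (ℓ, tt h j, blk m h j) (fun i => h (ce j i)) (fun _ _ e => hh.1 (ce_lt_ce j e))
          (fun k => ⟨(hA' _ (hh.2 _)).1, trivial, lt1 j _ fun i => cb_lt_ce k⟩) m hj))
      obtain ⟨k, hk, rfl⟩ := mem_lst.1 hx
      exact hh.1 (ce_lt_cb k le_rfl)
  have k1 := key m 0 h4
  rw [Nat.zero_add] at k1
  have hmem : ∀ β u, In q (β :: u) → tt h m <:+ u → β ∈ A →
      β ∈ B (tt h m) (blk m h m) u := fun β u hu ht hβ => by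
    refine (hA' β hβ).2.2 ((0, tt h m, blk m h m), u) ⟨⟨trivial, fun x hx => hu.lt (ht.subset hx),
      fun l hl x hx => ?_⟩, fun x hx => hu.lt hx⟩
    obtain ⟨i, hi, rfl⟩ := mem_lst.1 hl
    obtain ⟨k, hk, rfl⟩ := mem_lst.1 hx
    exact (hh.1 (ce_lt_cb k le_rfl)).trans (hu.lt (ht.subset (mem_lst.2 ⟨i, hi, rfl⟩)))
  have hlow : ∀ j ≤ m, Sub (lowL D' (tt h j) (blk m h j)) (low (tt h j) q.c) := fun j hj => by
    induction j with
    | zero => exact .nil
    | succ j ih => exact .cons (cum_lst_sub fun k hk => hq.low j hj k hk) (ih (by omega))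
  refine hy _ _ k1 q ⟨?_, fun u hu β hβ => ?_, fun u hu => ?_⟩
  · have : ∀ u, Up (tt h m) (fun _ => A) u → u <:+ q.s →
        Up (tt h m) (B (tt h m) (blk m h m)) u := fun u hu => by
      induction hu with
      | base => exact fun _ => .base
      | step g1 g2 ih =>
        exact fun e => .step (ih ((List.suffix_cons _ _).trans e))
          (hmem _ _ (Or.inl e) g1.suffix g2)
    exact this _ hq.up (List.suffix_refl _)
  · exact hmem β u (Or.inr (.step hu hβ)) (hq.up.suffix.trans hu.suffix) (hq.sub u hu hβ)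
  · refine sp_sub ((hlow m le_rfl).length_eq.trans (lowOK_low q hq.up.suffix).length)
      (hlow m le_rfl) (comp_of_suffix hq.up.suffix hu.comp) (hq.high u hu)

/-- the system `D` forces `R h` densely, for almost all histories `h` -/
def Dec (D : List K × List K → Cnd K) (m : ℕ) (R : (Co → K) → PP K → Prop) : Prop :=
  ∃ A : Set K, (∀ᶠ β in UF K, β ∈ A) ∧ ∀ h, Inc A h → ∀ q, Fits q D h m A → Dn (R h) q

theorem Dec.mono {D D' : List K × List K → Cnd K} {m : ℕ} {R : (Co → K) → PP K → Prop}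
    (h : Dec D m R) (e : ∀ s, D s ⊆ D' s) : Dec D' m R := by
  obtain ⟨A, h1, h2⟩ := h
  exact ⟨A, h1, fun h hh q hq => h2 h hh q (hq.mono e subset_rfl)⟩

theorem step_lemma (m : ℕ) (R : (Co → K) → K → PP K → Prop) (hS : Supp R m)
    (hR : ∀ h, ∃ γ, ∀ q, ∃ r ≤ q, ∃ y < γ, Dn (R h y) r) (D : List K × List K → Cnd K)
    (hD : SysOK D) : ∃ D', SysOK D' ∧ (∀ s, D s ⊆ D' s) ∧ ∃ y : (Co → K) → K, Supp y m ∧
      Dec D' m fun h => R h (y h) := by
  have : Nonempty (Co → K) := ⟨fun _ => al K 0⟩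
  obtain ⟨D', h1, h2, y, A, h3, h4⟩ := step_list m
    (fun t v => R (Classical.epsilon fun h => tt h m = t ∧ blk m h m = v)) (fun t v => hR _) D hD
  refine ⟨D', h1, h2, fun h => y (tt h m) (blk m h m), fun h h' e => ?_, A, h3,
    fun h hh q hq => ?_⟩
  · beta_reduce
    rw [(agree_iff.1 e).1, (agree_iff.1 e).2]
  · have := h4 h hh q hq
    rwa [hS _ h (agree_iff.2 (Classical.epsilon_spec
      (p := fun h' => tt h' m = tt h m ∧ blk m h' m = blk m h m) ⟨h, rfl, rfl⟩))] at this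

/-- small values of a finitely supported function depend only on earlier coordinates -/
theorem exists_const {y : (Co → K) → K} {m : ℕ} (hy : Supp y m) :
    ∃ (g : ℕ → List K → K) (A : Set K), (∀ᶠ β in UF K, β ∈ A) ∧ ∀ h, Inc A h → ∀ π, y h < h π →
      ∃ r l, y h = g r l ∧ ∀ x ∈ l, ∃ c < π, InT m c ∧ x = h c := by
  classical
  have hfin : {c | InT m c}.Finite := by
    refine (((finite_lt_nat m).image cb).union
      (((finite_lt_nat m).prod (finite_lt_nat m)).image fun a => ce a.1 a.2)).subset ?_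
    rintro _ ⟨j, hj, rfl | ⟨k, hk, rfl⟩⟩
    exacts [Or.inl ⟨j, hj, rfl⟩, Or.inr ⟨(j, k), ⟨hj, hk⟩, rfl⟩]
  let L : List Co := hfin.toFinset.sort (· ≥ ·)
  have hL : L.Pairwise (· > ·) := (hfin.toFinset.sortedGT_sort).pairwise
  have hmem : ∀ c, c ∈ L ↔ InT m c := fun c => by simp [L]
  have : Nonempty (Co → K) := ⟨fun _ => al K 0⟩
  let g : ℕ → List K → K := fun r => Nat.rec
    (fun l => y (Classical.epsilon fun h => L.map h = l))
    (fun _ g l => if e : ∃ c, ∀ᶠ x in UF K, g (x :: l) = c then e.choose else al K 0) r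
  have a1 := (press_nat.prod (press_lt (K := K)).list).diag
    (p := fun a x => g a.1 (x :: a.2) < x → g a.1 (x :: a.2) = g (a.1 + 1) a.2) fun a => by
      by_cases e : ∃ c, ∀ᶠ x in UF K, g a.1 (x :: a.2) = c
      · exact e.choose_spec.mono fun x hx _ => hx.trans (dif_pos e).symm
      · exact (ae_not fun h => e (press_lt _ h)).mono fun x hx h => absurd h hx
  refine ⟨g, _, a1, fun h hh π hπ => ?_⟩
  have key : ∀ L' : List Co, L'.Pairwise (· > ·) → ∀ r, g r (L'.map h) < h π →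
      ∃ r' l, g r (L'.map h) = g r' l ∧ ∀ x ∈ l, ∃ c < π, c ∈ L' ∧ x = h c := fun L' => by
    induction L' with
    | nil => exact fun _ r _ => ⟨r, [], rfl, by simp⟩
    | cons c L' ih =>
      intro hp r hr
      rw [List.pairwise_cons] at hp
      rcases lt_or_ge c π with hc | hc
      · refine ⟨r, _, rfl, fun x hx => ?_⟩
        obtain ⟨c', hc', rfl⟩ := List.mem_map.1 hx
        refine ⟨c', ?_, hc', rfl⟩
        rcases List.mem_cons.1 hc' with rfl | hc'
        exacts [hc, (hp.1 c' hc').trans hc]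
      · have e := hh.2 c (r, L'.map h) ⟨trivial, fun x hx => by
          obtain ⟨c', hc', rfl⟩ := List.mem_map.1 hx
          exact hh.1 (hp.1 c' hc')⟩ (hr.trans_le (hh.1.monotone hc))
        obtain ⟨r', l, e1, e2⟩ := ih hp.2 (r + 1) (e ▸ hr)
        exact ⟨r', l, e.trans e1, fun x hx => (e2 x hx).imp fun c' h =>
          ⟨h.1, List.mem_cons_of_mem _ h.2.1, h.2.2⟩⟩
  have e0 : g 0 (L.map h) = y h := hy _ _ fun c hc => List.map_inj_left.1
    (Classical.epsilon_spec (p := fun h' => L.map h' = L.map h) ⟨h, rfl⟩) c ((hmem c).2 hc)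
  obtain ⟨r, l, e1, e2⟩ := key L hL 0 (e0 ▸ hπ)
  exact ⟨r, l, e0.symm.trans e1, fun x hx => (e2 x hx).imp fun c h =>
    ⟨h.1, (hmem c).1 h.2.1, h.2.2⟩⟩

end Pool.Agent.P.MP_2e9c36_lc
end

-- part Pool.Agent.P.MP_2e9c36_lc.Real
section

set_option autoImplicit false
set_option linter.unusedSectionVars false

/-! The master condition of a system; bounds for finitely supported functions. -/

open Cardinal Set Filter Pool.Agent.Lib.PosetForcing

namespace Pool.Agent.P.MP_2e9c36_lc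

universe u

variable {K : Type u} [LinearOrder K] [WellFoundedLT K] [NM K]

theorem exists_branch {B : List K → Set K} (hB : ∀ t, (B t).Nonempty) {s : List K}
    (hs : Up [] B s) : ∃ b : ℕ → K, lst b s.length = s ∧ ∀ k, b k ∈ B (lst b k) := by
  have h1 : ∃ a : ℕ → K, lst a s.length = s ∧ ∀ k < s.length, a k ∈ B (lst a k) := by
    induction hs with
    | base => exact ⟨fun _ => al K 0, rfl, by simp⟩
    | @step t β _ h2 ih =>
      obtain ⟨a, h3, h4⟩ := ih
      have e : ∀ k ≤ t.length, lst (Function.update a t.length β) k = lst a k := fun k hk =>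
        lst_eq_iff.2 fun j hj => Function.update_of_ne (by omega) _ _
      refine ⟨Function.update a t.length β, by simp [lst, e, h3], fun k hk => ?_⟩
      rcases Nat.lt_succ_iff_lt_or_eq.1 hk with hk | rfl
      · rw [e k hk.le, Function.update_of_ne hk.ne]
        exact h4 k hk
      · rwa [e _ le_rfl, Function.update_self, h3]
  obtain ⟨a, h2, h3⟩ := h1
  choose pick hpick using hB
  let LL : ℕ → List K := fun k =>
    Nat.rec [] (fun k l => (if k < s.length then a k else pick l) :: l) k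
  let b : ℕ → K := fun k => if k < s.length then a k else pick (LL k)
  have e : ∀ k, lst b k = LL k := fun k => by
    induction k with
    | zero => rfl
    | succ k ih => rw [lst, ih]
  have e' : ∀ k ≤ s.length, lst b k = lst a k := fun k hk =>
    lst_eq_iff.2 fun j hj => if_pos (by omega)
  refine ⟨b, (e' _ le_rfl).trans h2, fun k => ?_⟩
  by_cases hk : k < s.length
  · rw [e' k hk.le, show b k = a k from if_pos hk]
    exact h3 k hk
  · rw [e, show b k = pick (LL k) from if_neg hk]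
    exact hpick _

theorem realize (D : List K × List K → Cnd K) (hD : SysOK D) (A : Set K)
    (hA : ∀ᶠ β in UF K, β ∈ A) : ∃ (q : PP K) (η : List K → ℕ → K),
      (∀ p ≤ q, ∀ β t, β :: t <:+ p.s → ∃ z < β, ∀ k, η t k < z) ∧ ∀ p ≤ q, ∃ h, Inc A h ∧ (∀ n k, h (ce n k) = η (tt h n) k) ∧ tt h p.s.length = p.s ∧
        ∀ m ≤ p.s.length, Fits p D h m A := by
  choose nx h1 h2 h3 h4 using fun t l : List K =>
    (hA.and ((ae_gt (top t)).and ((ae_gt (top l)).and (hD (t, l)).1.ae_below))).exists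
  let LL : List K → ℕ → List K := fun t k => Nat.rec [] (fun _ l => nx t l :: l) k
  let η : List K → ℕ → K := fun t k => nx t (LL t k)
  have e : ∀ t k, lst (η t) k = LL t k := fun t k => by
    induction k with
    | zero => rfl
    | succ k ih => rw [lst, ih]
  have hη : ∀ t, StrictMono (η t) := fun t => strictMono_nat_of_lt_succ fun k =>
    (le_top_of_mem (t := LL t (k + 1)) List.mem_cons_self).trans_lt (h3 _ _)
  let c : List K → Cnd K := fun t => ⋃ k ∈ (univ : Set (ULift.{u} ℕ)), D (t, LL t k.down)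
  have hc : ∀ t, IsCol (nu t) (c t) := fun t => by
    have key : ∀ i j : ℕ, i < j → ∀ x ∈ D (t, LL t i), ∀ y ∈ D (t, LL t j), Cmp x y :=
      fun i j hij x hx y hy e => by
        obtain ⟨j, rfl⟩ := Nat.exists_eq_add_one_of_ne_zero (n := j) (by omega)
        exact absurd ((h4 t _ x hx).trans_le ((hη t).monotone (Nat.lt_succ_iff.1 hij)))
          (not_lt.2 (e ▸ (hD (t, LL t (j + 1))).2 y hy _ _ rfl))
    refine IsCol.biUnion (cd_nu_inf t) (by simpa using cd_nu_inf t) (fun k _ => (hD (t, _)).1)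
      fun i _ j _ x hx y hy => ?_
    rcases lt_trichotomy i.down j.down with h | h | h
    · exact key _ _ h x hx y hy
    · exact (hD (t, _)).1.cmp x hx y (h ▸ hy)
    · exact (key _ _ h y hy x hx).symm
  let q : PP K := mkP [] (fun t => {β | β ∈ A ∧ ∃ z < β, ∀ k, η t k < z}) c hc
    (fun t => hA.and (by
      obtain ⟨z, hz⟩ := (ae_all_nat fun k => ae_gt (η t k)).exists
      exact (ae_gt z).mono fun _ h => ⟨z, h, hz⟩)) (by simp)
  refine ⟨q, η, fun p hp β t ht => ?_, fun p hp => ?_⟩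
  · rcases hp.up.of_suffix ht with h | h
    · simp [q, mkP] at h
    · exact (h.cons_cases.resolve_left (by simp [q, mkP])).2.1.2
  obtain ⟨b, b1, b2⟩ := exists_branch (fun t => (q.big t).exists) hp.up
  let h : Co → K := fun c =>
    ENat.recTopCoe (b (ofLex c).1) (fun k => η (lst b (ofLex c).1) k) (ofLex c).2
  have eb : ∀ n, h (cb n) = b n := fun _ => rfl
  have ee : ∀ n k, h (ce n k) = η (lst b n) k := fun _ _ => rfl
  have k1 : ∀ n k, η (lst b n) k < b n := fun n k => (b2 n).1.2.elim fun z hz => (hz.2 k).trans hz.1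
  have k2 : ∀ n n' k, n < n' → b n < η (lst b n') k := fun n n' k hn =>
    (le_top_of_mem (mem_lst.2 ⟨n, hn, rfl⟩)).trans_lt (h2 _ _)
  refine ⟨h, ⟨fun c c' hc => ?_, fun c => ?_⟩, ee, b1, fun m hm => ⟨?_, fun s hs β hβ => ?_,
    fun j hj k _ => ?_, fun s hs _ => ?_⟩⟩
  · obtain ⟨n, rfl | ⟨k, rfl⟩⟩ := co_cases c <;> obtain ⟨n', rfl | ⟨k', rfl⟩⟩ := co_cases c'
    · have : n < n' := by simpa [cb, Prod.Lex.toLex_lt_toLex] using hc
      exact (k2 n n' 0 this).trans (k1 n' 0)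
    · have : n < n' := by simpa [cb, ce, Prod.Lex.toLex_lt_toLex] using hc
      exact k2 n n' k' this
    · have : n < n' ∨ n = n' := by simpa [cb, ce, Prod.Lex.toLex_lt_toLex] using hc
      rcases this with hn | rfl
      · exact (k1 n k).trans ((k2 n n' 0 hn).trans (k1 n' 0))
      · exact k1 n k
    · have : n < n' ∨ n = n' ∧ k < k' := by simpa [ce, Prod.Lex.toLex_lt_toLex] using hc
      rcases this with hn | ⟨rfl, hk⟩
      · exact (k1 n k).trans (k2 n n' k' hn)
      · exact hη _ hk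
  · obtain ⟨n, rfl | ⟨k, rfl⟩⟩ := co_cases c
    · exact (b2 n).1.1
    · exact h1 _ _
  · exact Up.trans .base (hp.up.restart List.nil_suffix (b1 ▸ lst_suffix b hm))
      fun _ _ _ h => h.1.1
  · exact (hp.sub s hs hβ).1.1
  · refine subset_trans ?_ (hp.ext _ (Or.inl (b1 ▸ lst_suffix b (hj.le.trans hm))))
    rw [show el h j k = LL (tt h j) k from e (tt h j) k]
    exact subset_biUnion_of_mem (u := fun k : ULift.{u} ℕ => D (tt h j, LL (tt h j) k.down))
      (mem_univ (ULift.up k))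
  · exact subset_trans (subset_biUnion_of_mem (u := fun k : ULift.{u} ℕ => D (s, LL s k.down))
      (mem_univ (ULift.up 0))) (hp.ext s hs)

/-- for all increasing histories inside a large enough set -/
def Lg (φ : Set K → (Co → K) → Prop) : Prop :=
  ∃ A : Set K, (∀ᶠ β in UF K, β ∈ A) ∧ ∀ A' ⊆ A, ∀ h, Inc A' h → φ A' h

theorem Lg.all {ι : Type u} {S : Set ι} (hS : #S < #K) {φ : ι → Set K → (Co → K) → Prop}
    (h : ∀ i ∈ S, Lg (φ i)) : Lg fun A h => ∀ i ∈ S, φ i A h := by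
  choose! A h1 h2 using h
  exact ⟨_, ae_all_set hS h1, fun A' hA h hh i hi => h2 i hi A' (fun x hx => hA hx i hi) h hh⟩

theorem Lg.and {φ ψ : Set K → (Co → K) → Prop} (h : Lg φ) (h' : Lg ψ) :
    Lg fun A h => φ A h ∧ ψ A h := by
  obtain ⟨A, h1, h2⟩ := h
  obtain ⟨B, h3, h4⟩ := h'
  exact ⟨_, h1.and h3, fun A' hA h hh =>
    ⟨h2 A' (fun x hx => (hA hx).1) h hh, h4 A' (fun x hx => (hA hx).2) h hh⟩⟩

theorem Lg.mono {φ ψ : Set K → (Co → K) → Prop} (h : Lg φ)
    (e : ∀ A h, Inc A h → φ A h → ψ A h) : Lg ψ := by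
  obtain ⟨A, h1, h2⟩ := h
  exact ⟨A, h1, fun A' hA h hh => e _ _ hh (h2 A' hA h hh)⟩

theorem Lg.nat {φ : ℕ → Set K → (Co → K) → Prop} (h : ∀ i, Lg (φ i)) :
    Lg fun A h => ∀ i, φ i A h := by
  choose A h1 h2 using h
  exact ⟨_, ae_all_nat h1, fun A' hA h hh i => h2 i A' (fun x hx => hA hx i) h hh⟩

theorem Lg.of_ae {p : K → Prop} (h : ∀ᶠ x in UF K, p x) : Lg fun _ h => ∀ c, p (h c) :=
  ⟨_, h, fun _ hA _ hh c => hA (hh.2 c)⟩

theorem Dec.lg {D : List K × List K → Cnd K} {m : ℕ} {R : (Co → K) → PP K → Prop}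
    (h : Dec D m R) : Lg fun A h => ∀ q, Fits q D h m A → Dn (R h) q := by
  obtain ⟨A, h1, h2⟩ := h
  exact ⟨A, h1, fun A' hA h hh q hq => h2 h (hh.mono hA) q (hq.mono (fun _ => subset_rfl) hA)⟩

theorem lg_const {y : (Co → K) → K} {m : ℕ} (hy : Supp y m) : ∃ g : ℕ → List K → K,
    Lg fun _ h => ∀ π, y h < h π → ∃ r l, y h = g r l ∧ ∀ x ∈ l, ∃ c < π, InT m c ∧ x = h c := by
  obtain ⟨g, A, h1, h2⟩ := exists_const hy
  exact ⟨g, A, h1, fun A' hA h hh => h2 h (hh.mono hA)⟩

theorem lg_eta {y : (Co → K) → K} {m : ℕ} (hy : Supp y m) :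
    Lg fun _ h => ∀ n, y h < h (cb n) → y h < h (ce n m) := by
  obtain ⟨g, hg⟩ := lg_const hy
  refine (hg.and (Lg.of_ae ((press_nat.prod (press_lt (K := K)).list).diag
    (p := fun a x => g a.1 a.2 < x) fun _ => ae_gt _))).mono fun A h hh ⟨h1, h2⟩ n hn => ?_
  obtain ⟨r, l, e, hl⟩ := h1 _ hn
  refine e ▸ h2 _ (r, l) ⟨trivial, fun x hx => ?_⟩
  obtain ⟨_, hc, ⟨j, hj, rfl | ⟨k, hk, rfl⟩⟩, rfl⟩ := hl x hx
  · exact hh.1 (cb_lt_ce m (by simpa [cb, Prod.Lex.toLex_lt_toLex] using hc))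
  · have : j < n ∨ j = n := by simpa [cb, ce, Prod.Lex.toLex_lt_toLex] using hc
    rcases this with hn | rfl
    · exact hh.1 ((ce_lt_cb k le_rfl).trans (cb_lt_ce m hn))
    · exact hh.1 (ce_lt_ce j hk)

theorem lg_level {y : (Co → K) → K} {m : ℕ} (hy : Supp y m) : ∃ g : ℕ → List K → K,
    Lg fun _ h => ∀ n, y h < sc (sc (top (tt h n))) →
      ∃ r l, y h = g r l ∧ ∀ x ∈ l, ∃ z ∈ tt h n, x ≤ z := by
  obtain ⟨g, hg⟩ := lg_const hy
  refine ⟨g, (hg.and (Lg.of_ae ((press_lt (K := K)).list.diag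
    (p := fun a x => sc (sc (top a)) < x) fun _ => ae_gt _))).mono
    fun A h hh ⟨h1, h2⟩ n hn => ?_⟩
  obtain ⟨r, l, e, hl⟩ := h1 (ce n 0) (hn.trans (h2 _ _ fun x hx => by
    obtain ⟨j, hj, rfl⟩ := mem_lst.1 hx
    exact hh.1 (cb_lt_ce 0 hj)))
  refine ⟨r, l, e, fun x hx => ?_⟩
  obtain ⟨_, hc, ⟨j, -, rfl | ⟨k, -, rfl⟩⟩, rfl⟩ := hl x hx
  · exact ⟨_, mem_lst.2 ⟨j, by simpa [cb, ce, Prod.Lex.toLex_lt_toLex] using hc, rfl⟩, le_rfl⟩
  · exact ⟨_, mem_lst.2 ⟨j, by simpa [ce, Prod.Lex.toLex_lt_toLex] using hc, rfl⟩,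
      (hh.1 (ce_lt_cb k le_rfl)).le⟩

theorem exists_bound {T : Set ((Co → K) → K)} (g : ((Co → K) → K) → ℕ → List K → K) {S : Set K}
    {x : K} (hx : ℵ₀ ≤ cd x) (hT : #T ≤ cd x) (hS : #S ≤ cd x) {z0 : K} (h0 : z0 < sc x) :
    ∃ z < sc x, z0 < z ∧ ∀ y ∈ T, ∀ r l, (∀ a ∈ l, a ∈ S) → g y r l < sc x → g y r l < z := by
  obtain ⟨z, h1, h2⟩ := bdd_sc hx (S := insert z0 {w | w < sc x ∧ w ∈ ⋃ y ∈ T,
      ⋃ r ∈ (univ : Set (ULift.{u} ℕ)), g y r.down '' {l | ∀ a ∈ l, a ∈ S}})
    (mk_insert_le.trans (add_le_of_le hx ((mk_le_mk_of_subset fun _ h => h.2).trans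
      (mk_biUnion_le_of hx hT fun y _ => mk_biUnion_le_of hx (by simpa using hx) fun r _ =>
        mk_image_le.trans (mk_list_le hx hS))) (one_le_aleph0.trans hx)))
    (by rintro w (rfl | hw); exacts [h0, hw.1])
  exact ⟨z, h1, h2 _ (Or.inl rfl), fun y hy r l hl hg => h2 _ (Or.inr ⟨hg,
    mem_biUnion hy (mem_biUnion (mem_univ (ULift.up r)) ⟨l, hl, rfl⟩)⟩)⟩

/-- the predecessor of one of the two successor positions -/
noncomputable def ph (ε : Bool) (α : K) : K := if ε then sc α else α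

theorem le_ph (ε : Bool) (α : K) : α ≤ ph ε α := by
  cases ε
  exacts [le_rfl, (lt_sc α).le]

theorem ph_le (ε : Bool) (α : K) : ph ε α ≤ sc α := by
  cases ε
  exacts [(lt_sc α).le, le_rfl]

theorem lg_succ {T : Set ((Co → K) → K)} (hT : #T ≤ cd (al K 2)) (hs : ∀ y ∈ T, ∃ m, Supp y m) :
    ∃ B : Bool → K → K, (∀ ε α, al K 2 ≤ α → B ε α < sc (ph ε α)) ∧ ∀ y ∈ T, Lg fun _ h =>
      ∀ ε n, y h < sc (ph ε (top (tt h n))) → y h < B ε (top (tt h n)) := by
  have : Nonempty K := ⟨al K 0⟩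
  choose! g hg using fun y hy => lg_level (hs y hy).choose_spec
  have h1 : ∀ ε α, ∃ z, al K 2 ≤ α → z < sc (ph ε α) ∧ ∀ y ∈ T, ∀ r l, (∀ a ∈ l, a ∈ Iic α) →
      g y r l < sc (ph ε α) → g y r l < z := fun ε α => by
    by_cases hα : al K 2 ≤ α
    · have hx := aleph0_le_cd (hα.trans (le_ph ε α))
      obtain ⟨z, h1, -, h2⟩ := exists_bound g (S := Iic α) hx
        (hT.trans (cd_mono (hα.trans (le_ph ε α)))) (mk_Iic_le hx (cd_mono (le_ph ε α))) (lt_sc _)
      exact ⟨z, fun _ => ⟨h1, h2⟩⟩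
    · exact ⟨α, fun h => absurd h hα⟩
  choose B hB using h1
  refine ⟨B, fun ε α h => (hB ε α h).1, fun y hy => (hg y hy).mono fun A h _ h1 ε n hn => ?_⟩
  obtain ⟨r, l, e, hl⟩ := h1 n (hn.trans_le (sc_mono (ph_le _ _)))
  exact e ▸ (hB ε _ (al_le_top _)).2 y hy r l
    (fun a ha => (hl a ha).elim fun z hz => hz.2.trans (le_top_of_mem hz.1)) (e ▸ hn)

theorem lg_al2 {T : Set ((Co → K) → K)} (hT : #T ≤ cd (al K 1)) (hs : ∀ y ∈ T, ∃ m, Supp y m)
    {γ : K} (hγ : γ < al K 2) :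
    ∃ γ' < al K 2, γ < γ' ∧ ∀ y ∈ T, Lg fun _ h => y h < al K 2 → y h < γ' := by
  have : Nonempty K := ⟨al K 0⟩
  choose! g hg using fun y hy => lg_level (hs y hy).choose_spec
  obtain ⟨z, h1, h2, h3⟩ := exists_bound g (S := ∅) (aleph0_le_cd (le_refl (al K 1))) hT
    (by simp) hγ
  refine ⟨z, h1, h2, fun y hy => (hg y hy).mono fun A h _ h1 hn => ?_⟩
  obtain ⟨r, l, e, hl⟩ := h1 0 (hn.trans ((lt_sc _).trans (lt_sc _)))
  exact e ▸ h3 y hy r l (fun a ha => (hl a ha).elim fun z hz => by simp [tt, lst] at hz) (e ▸ hn)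

end Pool.Agent.P.MP_2e9c36_lc
end

-- part Pool.Agent.P.MP_2e9c36_lc.Terms
section

set_option autoImplicit false
set_option linter.unusedSectionVars false

/-! The recursion of length `ω₁` producing a closed family of terms. -/

open Cardinal Set Filter Pool.Agent.Lib.PosetForcing

namespace Pool.Agent.P.MP_2e9c36_lc

universe u

variable {K : Type u} [LinearOrder K] [WellFoundedLT K] [NM K]

theorem exists_rec {α : Type*} [Nonempty α] (P : α → Prop) (Rel : α → α → Prop) (b : K)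
    (h : ∀ i < b, ∀ F : K → α, (∀ j < i, P (F j) ∧ ∀ k < j, Rel (F k) (F j)) →
      ∃ x, P x ∧ ∀ j < i, Rel (F j) x) : ∃ F : K → α, ∀ i < b, P (F i) ∧ ∀ j < i, Rel (F j) (F i) := by
  let F : K → α := (wellFounded_lt (α := K)).fix fun i ih =>
    Classical.epsilon fun x => P x ∧ ∀ j (hj : j < i), Rel (ih j hj) x
  have e : ∀ i, F i = Classical.epsilon fun x => P x ∧ ∀ j < i, Rel (F j) x := fun i =>
    (wellFounded_lt (α := K)).fix_eq _ i
  refine ⟨F, fun i => ?_⟩
  induction i using WellFoundedLT.induction with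
  | ind i ih =>
    intro hi
    rw [e i]
    exact Classical.epsilon_spec (h i hi F fun j hj => ih j hj (hj.trans hi))

/-- states of the recursion -/
structure St (K : Type u) : Type u where
  /-- the system -/
  D : List K × List K → Cnd K
  /-- the terms with parameters up to a point -/
  T : K → Set ((Co → K) → K)
  /-- bounds for the earlier terms -/
  B : Bool → K → K

/-- valid states -/
structure StOK (S : St K) : Prop where
  sys : SysOK S.D
  card : ∀ γ < al K 2, #(S.T γ) ≤ cd (al K 1)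
  mono : ∀ γ γ', γ ≤ γ' → S.T γ ⊆ S.T γ'
  supp : ∀ γ, ∀ y ∈ S.T γ, ∃ m, Supp y m

/-- states containing the basic terms -/
structure StTop (S : St K) : Prop where
  const : ∀ γ, (fun _ => γ) ∈ S.T γ
  eta : ∀ γ n k, (fun h => h (ce n k)) ∈ S.T γ
  bnd : ∀ γ ε n, (fun h => S.B ε (top (tt h n))) ∈ S.T γ
  lt : ∀ ε α, al K 2 ≤ α → S.B ε α < sc (ph ε α)

variable (E : ℕ → List K → K → PP K → Prop)

/-- a witness is decided, or there is none below the first `m` Prikry points -/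
def RR (j : ℕ) (a : List ((Co → K) → K)) (m : ℕ) (h : Co → K) (y : K) (q : PP K) : Prop :=
  E j (a.map (· h)) y q ∨ ∀ r ≤ q, ∀ x, (∃ β ∈ tt h m, x < β) → ¬ E j (a.map (· h)) x r

/-- one step of the recursion -/
structure StStep (S S' : St K) : Prop where
  le1 : ∀ s, S.D s ⊆ S'.D s
  le2 : ∀ γ, S.T γ ⊆ S'.T γ
  dec : ∀ γ < al K 2, ∀ j a m, (∀ y ∈ a, y ∈ S.T γ ∧ Supp y m) →
    ∃ y ∈ S'.T γ, Supp y m ∧ Dec S'.D m fun h => RR E j a m h (y h)
  bnd : ∀ γ < al K 2, ∀ y ∈ S.T γ, Lg fun _ h =>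
    ∀ ε n, y h < sc (ph ε (top (tt h n))) → y h < S'.B ε (top (tt h n))

variable {E}

theorem mk_tasks_le {X : Type u} {S : Set X} {θ : Cardinal.{u}} (hθ : ℵ₀ ≤ θ) (h : #S ≤ θ) :
    #{a : ℕ × List X × ℕ | ∀ y ∈ a.2.1, y ∈ S} ≤ θ := by
  have h1 : {a : ℕ × List X × ℕ | ∀ y ∈ a.2.1, y ∈ S} ⊆
      ⋃ i ∈ (univ : Set (ULift.{u} (ℕ × ℕ))),
        (fun l => (i.down.1, l, i.down.2)) '' {l | ∀ y ∈ l, y ∈ S} :=
    fun a ha => mem_biUnion (mem_univ (ULift.up (a.1, a.2.2))) ⟨a.2.1, ha, rfl⟩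
  exact (mk_le_mk_of_subset h1).trans (mk_biUnion_le_of hθ (by simpa using hθ)
    fun _ _ => mk_image_le.trans (mk_list_le hθ h))

theorem tt_congr {m n : ℕ} {h h' : Co → K} (e : Agree m h h') (hn : n ≤ m) : tt h n = tt h' n :=
  lst_eq_iff.2 fun j hj => e _ ⟨j, hj.trans_le hn, Or.inl rfl⟩

theorem exists_step (mono : ∀ j xs y p q, q ≤ p → E j xs y p → E j xs y q) (S : St K)
    (hS : StOK S) : ∃ S', (StOK S' ∧ StTop S') ∧ StStep E S S' := by
  have i1 : ℵ₀ ≤ cd (al K 1) := aleph0_le_cd le_rfl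
  have i2 : ℵ₀ ≤ cd (al K 2) := aleph0_le_cd le_rfl
  have hT : #(⋃ γ ∈ Iio (al K 2), S.T γ) ≤ cd (al K 2) := mk_biUnion_le_of i2 le_rfl
    fun γ hγ => (hS.card γ hγ).trans (cd_lt_sc _).le
  obtain ⟨B, hB1, hB2⟩ := lg_succ hT fun y hy => by
    obtain ⟨γ, -, hy⟩ := mem_iUnion₂.1 hy
    exact hS.supp γ y hy
  obtain ⟨D, h1, h2, h3⟩ := meet_all (S := List K × List K)
    (X := {a : ℕ × List ((Co → K) → K) × ℕ | ∀ y ∈ a.2.1, y ∈ ⋃ γ ∈ Iio (al K 2), S.T γ})
    (fun s => nu s.1) (fun s => cd_nu_inf _) (fun s x => Abv s.2 x) (fun _ _ => True)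
    (fun s => (mk_set_le _).trans ((mk_tasks_le i2 hT).trans
      (cd_mono ((al_le_top _).trans (top_lt_nu _).le))))
    (fun a D => (∀ y ∈ a.1.2.1, Supp y a.1.2.2) → ∃ y, Supp y a.1.2.2 ∧
      Dec D a.1.2.2 fun h => RR E a.1.1 a.1.2.1 a.1.2.2 h (y h))
    (fun a D D' e h g => (h g).imp fun y h => ⟨h.1, h.2.mono fun s => e s trivial⟩)
    (fun a D hD => by
      by_cases g : ∀ y ∈ a.1.2.1, Supp y a.1.2.2
      · obtain ⟨D', g1, g2, g3⟩ := step_lemma a.1.2.2 (RR E a.1.1 a.1.2.1 a.1.2.2)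
          (fun h h' e => by
            have e1 : a.1.2.1.map (· h) = a.1.2.1.map (· h') :=
              List.map_congr_left fun y hy => g y hy h h' e
            funext y q
            rw [RR, RR, e1, tt_congr e le_rfl])
          (fun h => ⟨top (tt h a.1.2.2), fun q => by
            by_cases k : ∃ r ≤ q, ∃ x, (∃ β ∈ tt h a.1.2.2, x < β) ∧
              E a.1.1 (a.1.2.1.map (· h)) x r
            · obtain ⟨r, hr, x, ⟨β, hβ, hx⟩, k⟩ := k
              exact ⟨r, hr, x, hx.trans_le (le_top_of_mem hβ), fun r' hr' =>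
                ⟨r', le_rfl, Or.inl (mono _ _ _ _ _ hr' k)⟩⟩
            · exact ⟨q, le_rfl, al K 0, (al_strictMono (by omega)).trans_le (al_le_top _),
                fun r hr => ⟨r, le_rfl, Or.inr fun r' hr' x hx k' =>
                  k ⟨r', hr'.trans hr, x, hx, k'⟩⟩⟩⟩) D hD
        exact ⟨D', g1, g2, fun _ => g3⟩
      · exact ⟨D, hD, fun _ => subset_rfl, fun h => absurd h g⟩) S.D hS.sys
  have h4 : ∀ a : ℕ × List ((Co → K) → K) × ℕ, ∃ y, Supp y a.2.2 ∧
      ((∀ y ∈ a.2.1, y ∈ ⋃ γ ∈ Iio (al K 2), S.T γ) → (∀ y ∈ a.2.1, Supp y a.2.2) →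
        Dec D a.2.2 fun h => RR E a.1 a.2.1 a.2.2 h (y h)) := fun a => by
    by_cases g : (∀ y ∈ a.2.1, y ∈ ⋃ γ ∈ Iio (al K 2), S.T γ) ∧ ∀ y ∈ a.2.1, Supp y a.2.2
    · obtain ⟨y, g1, g2⟩ := h3 ⟨a, g.1⟩ g.2
      exact ⟨y, g1, fun _ _ => g2⟩
    · exact ⟨fun _ => al K 0, fun _ _ _ => rfl, fun g1 g2 => absurd ⟨g1, g2⟩ g⟩
  choose dec hd1 hd2 using h4
  refine ⟨⟨D, fun γ => (S.T γ ∪ dec '' {a | ∀ y ∈ a.2.1, y ∈ S.T γ}) ∪
      ((fun ζ _ => ζ) '' Iic γ ∪ (range (fun a : ℕ × ℕ => fun h => h (ce a.1 a.2)) ∪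
        range fun a : Bool × ℕ => fun h => B a.1 (top (tt h a.2)))), B⟩,
    ⟨⟨h1, fun γ hγ => ?_, fun γ γ' e => ?_, fun γ y hy => ?_⟩,
      fun γ => Or.inr (Or.inl ⟨γ, le_rfl, rfl⟩), fun γ n k => Or.inr (Or.inr (Or.inl ⟨(n, k), rfl⟩)),
      fun γ ε n => Or.inr (Or.inr (Or.inr ⟨(ε, n), rfl⟩)), hB1⟩,
    h2, fun γ y hy => Or.inl (Or.inl hy), fun γ hγ j a m ha => ⟨dec (j, a, m),
      Or.inl (Or.inr ⟨_, fun y hy => (ha y hy).1, rfl⟩), hd1 _, hd2 (j, a, m)
        (fun y hy => mem_biUnion hγ (ha y hy).1) fun y hy => (ha y hy).2⟩,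
    fun γ hγ y hy => hB2 y (mem_biUnion hγ hy)⟩
  · refine (mk_union_le _ _).trans (add_le_of_le i1 ((mk_union_le _ _).trans (add_le_of_le i1
      (hS.card γ hγ) (mk_image_le.trans (mk_tasks_le i1 (hS.card γ hγ)))))
      ((mk_union_le _ _).trans (add_le_of_le i1
        (mk_image_le.trans (mk_Iic_le i1 (cd_le_of_lt_sc hγ))) (le_trans ?_ i1))))
    exact le_aleph0_iff_set_countable.2 ((countable_range _).union (countable_range _))
  · exact union_subset_union (union_subset_union (hS.mono _ _ e)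
      (image_mono fun a ha y hy => hS.mono _ _ e (ha y hy)))
      (union_subset_union_left _ (image_mono (Iic_subset_Iic.2 e)))
  · rcases hy with (hy | ⟨a, -, rfl⟩) | ⟨ζ, -, rfl⟩ | ⟨a, rfl⟩ | ⟨a, rfl⟩
    · exact hS.supp γ y hy
    · exact ⟨_, hd1 a⟩
    · exact ⟨0, fun _ _ _ => rfl⟩
    · exact ⟨a.1 + a.2 + 1, fun _ _ e => e _ ⟨a.1, by omega, Or.inr ⟨a.2, by omega, rfl⟩⟩⟩
    · exact ⟨a.2, fun _ _ e => congrArg (fun t => B a.1 (top t)) (tt_congr e le_rfl)⟩

/-- the union of the earlier states -/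
def limSt (F : K → St K) (i : K) : St K :=
  ⟨fun s => ⋃ j ∈ Iio i, (F j).D s, fun γ => ⋃ j ∈ Iio i, (F j).T γ, fun _ x => x⟩

theorem limSt_ok {F : K → St K} {i : K} (hi : i ≤ al K 1)
    (h : ∀ j < i, (StOK (F j) ∧ StTop (F j)) ∧ ∀ k < j, StStep E (F k) (F j)) :
    StOK (limSt F i) := by
  refine ⟨fun s => ⟨IsCol.biUnion (cd_nu_inf _) (cd_mono (hi.trans ((al_strictMono
      (by omega)).le.trans ((al_le_top _).trans (top_lt_nu _).le))))
      (fun j hj => ((h j hj).1.1.sys s).1) fun j hj k hk x hx y hy => ?_, fun x hx => ?_⟩,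
    fun γ hγ => mk_biUnion_le_of (aleph0_le_cd (le_refl (al K 1))) (cd_mono hi)
      fun j hj => (h j hj).1.1.card γ hγ,
    fun γ γ' e => iUnion₂_mono fun j hj => (h j hj).1.1.mono _ _ e, fun γ y hy => ?_⟩
  · rcases lt_trichotomy j k with e | rfl | e
    · exact ((h k hk).1.1.sys s).1.cmp x (((h k hk).2 j e).le1 s hx) y hy
    · exact ((h j hj).1.1.sys s).1.cmp x hx y hy
    · exact ((h j hj).1.1.sys s).1.cmp x hx y (((h j hj).2 k e).le1 s hy)
  · obtain ⟨j, hj, hx⟩ := mem_iUnion₂.1 hx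
    exact ((h j hj).1.1.sys s).2 x hx
  · obtain ⟨j, hj, hy⟩ := mem_iUnion₂.1 hy
    exact (h j hj).1.1.supp γ y hy

theorem exists_chain (mono : ∀ j xs y p q, q ≤ p → E j xs y p → E j xs y q) :
    ∃ F : K → St K, ∀ i < al K 1,
      (StOK (F i) ∧ StTop (F i)) ∧ ∀ j < i, StStep E (F j) (F i) := by
  have : Nonempty (St K) := ⟨⟨fun _ => ∅, fun _ => ∅, fun _ x => x⟩⟩
  refine exists_rec (fun S => StOK S ∧ StTop S) (StStep E) _ fun i hi F hF => ?_
  obtain ⟨S, h1, h2⟩ := exists_step mono _ (limSt_ok hi.le hF)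
  have e : ∀ j < i, ∀ γ, (F j).T γ ⊆ (limSt F i).T γ := fun j hj γ =>
    subset_biUnion_of_mem (u := fun j => (F j).T γ) hj
  exact ⟨S, h1, fun j hj => ⟨fun s => (subset_biUnion_of_mem (s := Iio i)
    (u := fun j => (F j).D s) hj).trans (h2.le1 s), fun γ => (e j hj γ).trans (h2.le2 γ), fun γ hγ k a m ha => h2.dec γ hγ k a m
      fun y hy => ⟨e j hj γ (ha y hy).1, (ha y hy).2⟩, fun γ hγ y hy => h2.bnd γ hγ y (e j hj γ hy)⟩⟩

theorem exists_gt_al1 {i j : K} (hi : i < al K 1) (hj : j < al K 1) :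
    ∃ k < al K 1, i < k ∧ j < k := by
  obtain ⟨z, h1, h2⟩ := bdd_sc (x := al K 0) aleph0_le_al0 (S := {i, j})
    ((le_aleph0_iff_set_countable.2 (toFinite _).countable).trans aleph0_le_al0)
    (by rintro y (rfl | rfl); exacts [hi, hj])
  exact ⟨z, h1, h2 i (by simp), h2 j (by simp)⟩

/-- below `q`, the part of the set described by `NV` under `ν` has a cofinal sequence of type `ι` -/
def Cf (ι : Type*) [Preorder ι] (q : PP K) (NV : List K → K → Prop) (t : List K) (ν : K) : Prop :=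
  ∃ f : ι → K, StrictMono f ∧ (∃ z < ν, ∀ i, f i < z) ∧ ∀ p ≤ q, t <:+ p.s →
    (∀ x < ν, NV p.s x → ∃ i, x < f i) ∧ ∀ i, ∃ r ≤ p, NV r.s (f i)

theorem main_comb (mono : ∀ j xs y p q, q ≤ p → E j xs y p → E j xs y q)
    (dense : ∀ j xs p, ∃ q ≤ p, ∃ x, E j xs x q) :
    ∃ (q : PP K) (NV : List K → K → Prop), (∀ s s' x, s <:+ s' → NV s x → NV s' x) ∧
      (∀ p ≤ q, ∀ j xs, (∀ x ∈ xs, NV p.s x) → ∃ r ≤ p, ∃ y, NV r.s y ∧ E j xs y r) ∧
      ∀ p ≤ q, ∀ t, t <:+ p.s → Cf ℕ q NV t (top t) ∧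
        ∀ ε, Cf (Iio (al K 1)) q NV t (sc (ph ε (top t))) := by
  obtain ⟨F, hF⟩ := exists_chain mono
  have hS := limSt_ok le_rfl hF
  set S := limSt F (al K 1) with eS
  have i0 : al K 0 < al K 1 := lt_sc _
  have eT : ∀ j < al K 1, ∀ γ, (F j).T γ ⊆ S.T γ := fun j hj γ =>
    subset_biUnion_of_mem (u := fun j => (F j).T γ) hj
  choose nγ n1 n2 n3 using fun γ : Iio (al K 2) => lg_al2 (hS.card γ γ.2) (hS.supp γ) γ.2
  let γ : ℕ → Iio (al K 2) := fun k =>
    Nat.rec ⟨al K 0, al_strictMono (by omega)⟩ (fun _ x => ⟨nγ x, n1 x⟩) k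
  have hγ : StrictMono fun k => (γ k).1 := strictMono_nat_of_lt_succ fun k => n2 (γ k)
  have hK : ∀ k : ℕ, #(S.T (γ k).1) < #K := fun k => (hS.card _ (γ k).2).trans_lt (cd_lt _)
  have g1 := Lg.nat fun k => Lg.all (hK k) fun y hy => Lg.nat fun m => (show Lg fun _ h =>
      Supp y m → ∀ n, y h < h (cb n) → y h < h (ce n m) from by
    by_cases hm : Supp y m
    · exact (lg_eta hm).mono fun _ _ _ h _ => h
    · exact ⟨univ, by simp, fun _ _ _ _ h => absurd h hm⟩)
  have g2 := Lg.nat fun k => Lg.all (hK k) (n3 (γ k))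
  have g3 := Lg.nat fun k => Lg.all (S := Iio (al K 1)) (cd_lt _) fun i hi =>
    Lg.all (S := Iio i) (cd_lt _) fun j hj => Lg.all
      (((hF j (hj.trans hi)).1.1.card _ (γ k).2).trans_lt (cd_lt _))
      (((hF i hi).2 j hj).bnd _ (γ k).2)
  have g4 := Lg.nat fun k => Lg.all ((mk_tasks_le (aleph0_le_cd (le_refl (al K 1)))
      (hS.card _ (γ k).2)).trans_lt (cd_lt _)) fun a ha => (show Lg fun A h =>
      (∀ y ∈ a.2.1, Supp y a.2.2) → ∀ q, Fits q S.D h a.2.2 A → ∃ y ∈ S.T (γ k).1, Supp y a.2.2 ∧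
        Dn (RR E a.1 a.2.1 a.2.2 h (y h)) q from by
    by_cases hm : ∀ y ∈ a.2.1, Supp y a.2.2
    · have : ∀ l : List ((Co → K) → K), (∀ y ∈ l, y ∈ S.T (γ k).1) →
          ∃ i < al K 1, ∀ y ∈ l, y ∈ (F i).T (γ k).1 := fun l hl => by
        induction l with
        | nil => exact ⟨_, i0, by simp⟩
        | cons y l ih =>
          obtain ⟨i, hi, h1⟩ := ih fun z hz => hl z (List.mem_cons_of_mem _ hz)
          obtain ⟨j, hj, h2⟩ := mem_iUnion₂.1 (hl y List.mem_cons_self)
          obtain ⟨w, hw, h3, h4⟩ := exists_gt_al1 hi hj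
          exact ⟨w, hw, List.forall_mem_cons.2 ⟨((hF w hw).2 j h4).le2 _ h2,
            fun z hz => ((hF w hw).2 i h3).le2 _ (h1 z hz)⟩⟩
      obtain ⟨i, hi, h1⟩ := this _ ha
      obtain ⟨w, hw, h3, -⟩ := exists_gt_al1 hi hi
      obtain ⟨y, y1, y2, y3⟩ := ((hF w hw).2 i h3).dec _ (γ k).2 a.1 a.2.1 a.2.2
        fun y hy => ⟨h1 y hy, hm y hy⟩
      exact (y3.mono (D' := S.D) fun s =>
        subset_biUnion_of_mem (u := fun j => (F j).D s) hw).lg.mono
        fun _ _ _ h _ q hq => ⟨y, eT w hw _ y1, y2, h q hq⟩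
    · exact ⟨univ, by simp, fun _ _ _ _ h => absurd h hm⟩)
  obtain ⟨A, hA, hA'⟩ := g1.and (g2.and (g3.and g4))
  replace hA' := hA' A subset_rfl
  obtain ⟨q, η, hz, hq⟩ := realize S.D hS.sys A hA
  let NV : List K → K → Prop := fun s x => ∃ k, ∃ y ∈ S.T (γ k).1, ∃ m h, Supp y m ∧
    (∀ n k, h (ce n k) = η (tt h n) k) ∧ tt h m <:+ s ∧ y h = x
  have key : ∀ h n x, (∀ n k, h (ce n k) = η (tt h n) k) → NV (tt h n) x →
      ∃ k, ∃ y ∈ S.T (γ k).1, ∃ m ≤ n, Supp y m ∧ y h = x := by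
    rintro h n _ e ⟨k, y, hy, m, h', y1, y2, y3, rfl⟩
    have hm : m ≤ n := by simpa [tt, lst_length] using y3.length_le
    have e1 : tt h' m = tt h m := by simpa [tt, lst_length] using eq_lst_of_suffix y3
    refine ⟨k, y, hy, m, hm, y1, y1 _ _ ?_⟩
    rintro _ ⟨j, hj, rfl | ⟨i, -, rfl⟩⟩
    · exact (lst_eq_iff.1 e1 j hj).symm
    · rw [e, y2, show tt h j = tt h' j from
        lst_eq_iff.2 fun i hi => (lst_eq_iff.1 e1 i (hi.trans hj)).symm]
  have mk : ∀ p ≤ q, ∀ k, ∀ y ∈ S.T (γ k).1, ∃ r ≤ p, ∃ h, (∀ n k, h (ce n k) = η (tt h n) k) ∧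
      tt h p.s.length = p.s ∧ NV r.s (y h) := fun p hp k y hy => by
    obtain ⟨m, hm⟩ := hS.supp _ y hy
    obtain ⟨r, hr, h1⟩ := exists_long p m
    obtain ⟨h, -, h2, h3, -⟩ := hq r (hr.trans hp)
    exact ⟨r, hr, h, h2, (eq_lst_of_suffix (h3.symm ▸ stem_le hr : p.s <:+ tt h _)).symm,
      k, y, hy, m, h, hm, h2, h3 ▸ lst_suffix _ h1, rfl⟩
  have pre : ∀ (h : Co → K) {t s : List K}, tt h s.length = s → t <:+ s → tt h t.length = t :=
    fun h t s e ht => (eq_lst_of_suffix (e.symm ▸ ht : t <:+ tt h _)).symm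
  refine ⟨q, NV, fun s s' x e ⟨k, y, hy, m, h, y1, y2, y3, y4⟩ =>
    ⟨k, y, hy, m, h, y1, y2, y3.trans e, y4⟩, fun p hp j xs hxs => ?_, fun p0 hp0 t ht0 => ⟨?_, ?_⟩⟩
  · obtain ⟨p1, e1, x, hx⟩ := dense j xs p
    obtain ⟨r, e2, β, hβ, e3, -⟩ := exists_ext p1 (ae_gt x)
    have hr := e2.trans e1
    obtain ⟨h, h1, h2, h3, h4⟩ := hq r (hr.trans hp)
    have : ∃ k, ∃ a : List ((Co → K) → K), (∀ y ∈ a, y ∈ S.T (γ k).1 ∧ Supp y r.s.length) ∧
        a.map (· h) = xs := by
      clear hx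
      induction xs with
      | nil => exact ⟨0, [], by simp, rfl⟩
      | cons z xs ih =>
        obtain ⟨k, a, a1, a2⟩ := ih fun w hw => hxs w (List.mem_cons_of_mem _ hw)
        obtain ⟨k', y, hy, m, hm, y1, y2⟩ := key h p.s.length z h2
          ((pre h h3 (stem_le hr)).symm ▸ hxs z List.mem_cons_self)
        refine ⟨max k k', y :: a, List.forall_mem_cons.2 ⟨⟨hS.mono _ _
          (hγ.monotone (le_max_right _ _)) hy, y1.mono (hm.trans (stem_le hr).length_le)⟩,
          fun w hw => ⟨hS.mono _ _ (hγ.monotone (le_max_left _ _)) (a1 w hw).1, (a1 w hw).2⟩⟩,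
          by simp [a2, y2]⟩
    obtain ⟨k, a, a1, rfl⟩ := this
    obtain ⟨y, hy, y1, y2⟩ := (hA' h h1).2.2.2 k (j, a, r.s.length) (fun y hy => (a1 y hy).1)
      (fun y hy => (a1 y hy).2) r (h4 _ le_rfl)
    obtain ⟨r', hr', y3⟩ := y2 r le_rfl
    refine ⟨r', hr'.trans hr, y h, ⟨k, y, hy, _, h, y1, h2, h3.symm ▸ stem_le hr', rfl⟩,
      y3.resolve_right fun y4 => y4 r' le_rfl x ⟨β, by rw [h3, e3]; exact List.mem_cons_self, hβ⟩
        (mono _ _ _ _ _ (hr'.trans e2) hx)⟩
  · rcases t with _ | ⟨β, t⟩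
    · obtain ⟨z, z1, z2⟩ := bdd_sc (x := al K 1) (aleph0_le_cd le_rfl) (S := range fun k => (γ k).1)
        ((le_aleph0_iff_set_countable.2 (countable_range _)).trans (aleph0_le_cd le_rfl))
        (by rintro _ ⟨k, rfl⟩; exact (γ k).2)
      refine ⟨_, hγ, ⟨z, z1, fun k => z2 _ ⟨k, rfl⟩⟩, fun p hp _ => ⟨fun x hx hN => ?_, fun k => ?_⟩⟩
      · obtain ⟨h, h1, h2, h3, -⟩ := hq p hp
        obtain ⟨k, y, hy, -, -, -, rfl⟩ := key h _ x h2 (h3.symm ▸ hN)
        exact ⟨k + 1, (hA' h h1).2.1 k y hy hx⟩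
      · obtain ⟨r, hr, h, -, -, h1⟩ := mk p hp k _ (eT _ i0 _ ((hF _ i0).1.2.const (γ k).1))
        exact ⟨r, hr, h1⟩
    · have et : top (β :: t) = β := top_cons_of_G (p0.stem β t ht0).1
      have loc : ∀ h : Co → K, tt h (β :: t).length = β :: t →
          h (cb t.length) = β ∧ tt h t.length = t := fun h e => List.cons.inj e
      obtain ⟨h0, h1, h2, h3, -⟩ := hq p0 hp0
      obtain ⟨l1, l2⟩ := loc h0 (pre h0 h3 ht0)
      have e0 : ∀ k, η t k = h0 (ce t.length k) := fun k => by rw [h2, l2]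
      obtain ⟨z, z1, z2⟩ := hz p0 hp0 β t ht0
      refine ⟨η t, fun i j e => by rw [e0, e0]; exact h1.1 (ce_lt_ce _ e), ⟨z, et.symm ▸ z1, z2⟩,
        fun p hp ht => ⟨fun x hx hN => ?_, fun k => ?_⟩⟩
      · obtain ⟨h, h1, h2, h3, -⟩ := hq p hp
        obtain ⟨l1, l2⟩ := loc h (pre h h3 ht)
        obtain ⟨k, y, hy, m, -, y1, rfl⟩ := key h _ x h2 (h3.symm ▸ hN)
        have := (hA' h h1).1 k y hy m y1 t.length (l1.symm ▸ et ▸ hx)
        exact ⟨m, by rwa [h2, l2] at this⟩
      · obtain ⟨r, hr, h, h2, h3, h1⟩ := mk p hp 0 _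
          (eT _ i0 _ ((hF _ i0).1.2.eta (γ 0).1 t.length k))
        refine ⟨r, hr, ?_⟩
        rwa [h2, (loc h (pre h h3 ht)).2] at h1
  · intro ε
    obtain ⟨h0, h1, h2, h3, -⟩ := hq p0 hp0
    have hlt : ∀ i : Iio (al K 1), (F i).B ε (top t) < sc (ph ε (top t)) := fun i =>
      (hF i i.2).1.2.lt ε _ (al_le_top t)
    obtain ⟨z, z1, z2⟩ := bdd_sc ((cd_top_inf t).trans (cd_mono (le_ph ε _)))
      (S := range fun i : Iio (al K 1) => (F i).B ε (top t))
      (mk_range_le.trans (cd_mono ((lt_sc _).le.trans ((al_le_top t).trans (le_ph ε _)))))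
      (by rintro _ ⟨i, rfl⟩; exact hlt i)
    refine ⟨fun i => (F i).B ε (top t), fun i j e => ?_, ⟨z, z1, fun i => z2 _ ⟨i, rfl⟩⟩,
      fun p hp ht => ⟨fun x hx hN => ?_, fun i => ?_⟩⟩
    · have := (hA' h0 h1).2.2.1 0 j j.2 i e _ ((hF i i.2).1.2.bnd (γ 0).1 ε t.length) ε t.length
      simp only [pre h0 h3 ht0] at this
      exact this (hlt i)
    · obtain ⟨h, h1, h2, h3, -⟩ := hq p hp
      obtain ⟨k, y, hy, m, -, -, rfl⟩ := key h _ x h2 (h3.symm ▸ hN)
      obtain ⟨j, hj, hy⟩ := mem_iUnion₂.1 hy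
      obtain ⟨i, hi, e, -⟩ := exists_gt_al1 hj hj
      have := (hA' h h1).2.2.1 k i hi j e y hy ε t.length
      rw [pre h h3 ht] at this
      exact ⟨⟨i, hi⟩, this hx⟩
    · obtain ⟨r, hr, h, -, h3, h1⟩ := mk p hp 0 _
        (eT _ i.2 _ ((hF _ i.2).1.2.bnd (γ 0).1 ε t.length))
      refine ⟨r, hr, ?_⟩
      rwa [pre h h3 ht] at h1

end Pool.Agent.P.MP_2e9c36_lc
end

-- part Pool.Agent.P.MP_2e9c36_lc.Main
section

set_option autoImplicit false
set_option linter.unusedSectionVars false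
set_option synthInstance.maxSize 4000

/-! The cardinals of the extension and mutual stationarity. -/

open Cardinal Set Filter Pool.Agent.Lib.PosetForcing

namespace Pool.Agent.P.MP_2e9c36_lc

universe u

variable {K : Type u} [LinearOrder K] [WellFoundedLT K] [NM K]

theorem forces_not_leCard (p : PP K) {t : List K} (ht : t <:+ p.s) {lam θ : K} (hθ : θ ≤ nu t)
    (hc : #{ρ | LowOK t ρ} ≤ cd (nu t)) (pig : Pigeon t lam θ) :
    Forces p fun U => ¬ LeCard Mod.mem ((ordName lam).val U) ((ordName θ).val U) := by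
  refine forces_not_iff.2 fun q hq h => ?_
  obtain ⟨j, hj⟩ := Forces.exists_name h
  refine no_inj q (ht.trans (stem_le hq)) hθ hc pig
    (fun y i r => Forces r fun U => App Mod.mem (j.val U) ((ordName y).val U) ((ordName i).val U))
    (fun _ _ _ _ e h => h.mono e) (fun y hy r hr => exists_app_ord
      ((hj.mono hr).imp fun U h => ⟨_, h.1, ordName_mem hy U⟩)) fun y y' i r hr h1 h2 => ?_
  exact ((hj.mono hr).and (h1.and h2)).imp (fun U h => h.1.2 _ _ _ h.2.1 h.2.2) |>.ordName_inj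

theorem count_le (p : PP K) {t : List K} (ht : t <:+ p.s) : #{ρ | LowOK t ρ} ≤ cd (top t) := by
  rcases t with _ | ⟨β, t⟩
  · exact count_nil.trans (cd_top_inf _)
  · rw [top_cons_of_G (p.stem β t ht).1]
    exact (p.stem β t ht).1.2.1

theorem succ_sc (p : PP K) {t : List K} (ht : t <:+ p.s) {x : K} (h1 : x ≤ nu t) (h2 : ℵ₀ ≤ cd x)
    (hc : #{ρ | LowOK t ρ} ≤ cd x) :
    Forces p fun U => IsSuccCard Mod.mem ((ordName (sc x)).val U) ((ordName x).val U) :=
  forces_isSuccCard (forces_not_leCard p ht h1 (hc.trans (cd_mono h1))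
    (pigeon_of_count h2 hc (cd_lt_sc x))) fun _ hz => leCard_ord (cd_le_of_lt_sc hz) p

theorem exists_col (p : PP K) {t : List K} {β z v : K} (ht : β :: t <:+ p.s) (hz : z < β)
    (hv : v < z) : ∃ q ≤ p, q.s = p.s ∧ ∃ ξ, (z, v, ξ) ∈ q.c t := by
  classical
  by_cases h : ∃ ξ, (z, v, ξ) ∈ p.c t
  · exact ⟨p, le_rfl, rfl, h⟩
  obtain ⟨ξ, h1, h2⟩ : ∃ ξ < sc (nu t), ∀ x ∈ p.c t, x.2.2 ≠ ξ := by
    by_contra hcon
    push Not at hcon
    exact absurd (cd_lt_sc (nu t)) (not_lt.2 ((mk_le_mk_of_subset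
      (show Iio (sc (nu t)) ⊆ (fun x => x.2.2) '' p.c t from hcon)).trans (mk_image_le.trans (p.col t).sm)))
  obtain ⟨q, hq, e1, e2⟩ := exists_strong p (Function.update p.c t (p.c t ∪ {(z, v, ξ)}))
    (fun u => by
      by_cases e : u = t
      · subst e
        rw [Function.update_self]
        refine (p.col u).union (cd_nu_inf u) ⟨by simp [Cmp], by simp [hv, h1],
          by simpa using one_le_aleph0.trans (cd_nu_inf u)⟩ ?_
        rintro ⟨a, b, c⟩ hx _ rfl (rfl : a = z)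
        exact iff_of_false (fun e => h ⟨c, (show b = v from e) ▸ hx⟩) (h2 _ hx)
      · rw [Function.update_of_ne e]
        exact p.col u)
    (fun γ u hu => by
      by_cases e : u = t
      · subst e
        rw [Function.update_self, ← nb_eq hu, nb_eq ht]
        rintro x (hx | rfl)
        exacts [(p.stem β u ht).2 x hx, hz]
      · rw [Function.update_of_ne e]
        exact (p.stem γ u hu).2)
    fun u _ => by
      by_cases e : u = t
      · subst e
        rw [Function.update_self]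
        exact subset_union_left
      · rw [Function.update_of_ne e]
  exact ⟨q, hq, e1, ξ, by simp [e2]⟩

theorem succ_col (p : PP K) {t : List K} {β : K} (ht : β :: t <:+ p.s) :
    Forces p fun U => IsSuccCard Mod.mem ((ordName β).val U) ((ordName (sc (nu t))).val U) := by
  have hG := (p.stem β t ht).1
  refine forces_isSuccCard (forces_not_leCard p ht
    (hG.1.le.trans ((le_max_left _ _).trans (top_lt_nu (β :: t)).le))
    ((count_le p ht).trans (cd_lt_sc _).le) hG.2.2) fun z hz => ?_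
  let T : Type u := {x : PP K × K × K // β :: t <:+ x.1.s ∧ (z, x.2) ∈ x.1.c t}
  let j : Name (PP K) := graphName (ι := T) (fun x => ordName x.1.2.1) (fun x => ordName x.1.2.2)
    fun x => x.1.1
  have cmp : ∀ (x y : T) (q : PP K), q ≤ x.1.1 → q ≤ y.1.1 → (x.1.2.1 = y.1.2.1 ↔ x.1.2.2 = y.1.2.2) :=
    fun x y q h1 h2 => by
      have : In q t := Or.inl ((List.suffix_cons _ _).trans (x.2.1.trans (stem_le h1)))
      exact (q.col t).cmp _ (h1.ext t this x.2.2) _ (h2.ext t this y.2.2) rfl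
  have h1 : Forces p fun U => IsFun Mod.mem (j.val U) ((ordName z).val U)
      ((ordName (sc (nu t))).val U) := by
    rw [ordName_eq z]
    refine forces_isFunOn_graph (V := fun U y => Mod.mem y ((ordName (sc (nu t))).val U))
      (fun i q _ _ => ⟨q, le_rfl, Forces.of_forall (fun U => ⟨mem_fam
        (fun y : {y // y < z} => ordName y.1) ⟨_, ((i.1.1.col t).bd _ i.2.2).1⟩ U,
        ordName_mem ((i.1.1.col t).bd _ i.2.2).2 U⟩) q⟩) (fun v q hq _ => ?_)
      fun x y q _ hx hy h => ⟨q, le_rfl, Forces.of_forall (fun _ => ?_) q⟩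
    · obtain ⟨r, hr, e, ξ, h⟩ := exists_col q (ht.trans (stem_le hq)) hz v.2
      exact ⟨r, hr, ⟨(r, v.1, ξ), e ▸ ht.trans (stem_le hq), h⟩, le_rfl,
        Forces.of_forall (fun _ => rfl) r⟩
    · rw [(cmp x y q hx hy).1 h.ordName_inj]
  have h2 : Forces p fun U => ∀ x y, App Mod.mem (j.val U) x y → ∀ x' y',
      App Mod.mem (j.val U) x' y' → y = y' → x = x' :=
    forces_forall_app_graph fun x q _ hx => ⟨q, le_rfl, forces_forall_app_graph
      fun y s hs hy => ⟨s, le_rfl, forces_imp fun r hr h => ⟨r, le_rfl, Forces.of_forall (fun _ => by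
        rw [(cmp x y r (hr.trans (hs.trans hx)) (hr.trans hy)).2 h.ordName_inj]) r⟩⟩⟩
  exact (h1.and h2).imp fun U h => ⟨_, h.1, fun x x' y g g' => h.2 x y g x' y g' rfl⟩

/-- the stem `s` determines that `x` is `ℵ_n` -/
def AlR (s : List K) (n : ℕ) (x : K) : Prop :=
  (n < 2 ∧ x = al K n) ∨ ∃ t, t <:+ s ∧ ∃ i < 3, n = 3 * t.length + 2 + i ∧ x = sc^[i] (top t)

theorem AlR.mono {s s' : List K} {n : ℕ} {x : K} (h : AlR s n x) (e : s <:+ s') : AlR s' n x :=
  h.imp_right fun ⟨t, ht, h⟩ => ⟨t, ht.trans e, h⟩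

theorem AlR.unique {s : List K} {n : ℕ} {x y : K} (h : AlR s n x) (h' : AlR s n y) : x = y := by
  rcases h with ⟨h1, rfl⟩ | ⟨t, ht, i, hi, h1, rfl⟩ <;>
    rcases h' with ⟨h2, rfl⟩ | ⟨t', ht', i', hi', h2, rfl⟩
  · rfl
  · omega
  · omega
  · have e : t.length = t'.length ∧ i = i' := by omega
    rw [(List.suffix_of_suffix_length_le ht ht' e.1.le).eq_of_length e.1, e.2]

theorem exists_AlR {s : List K} {n : ℕ} (h : n ≤ s.length) : ∃ x, AlR s n x := by
  by_cases hn : n < 2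
  · exact ⟨_, Or.inl ⟨hn, rfl⟩⟩
  · refine ⟨_, Or.inr ⟨s.drop (s.length - (n - 2) / 3), List.drop_suffix _ _, (n - 2) % 3,
      Nat.mod_lt _ (by omega), ?_, rfl⟩⟩
    rw [List.length_drop]
    omega

theorem AlR.succ {p : PP K} {n : ℕ} {x y : K} (h : AlR p.s n x) (h' : AlR p.s (n + 1) y) :
    Forces p fun U => IsSuccCard Mod.mem ((ordName y).val U) ((ordName x).val U) := by
  have h0 : ∀ k < 2, Forces p fun U =>
      IsSuccCard Mod.mem ((ordName (al K (k + 1))).val U) ((ordName (al K k)).val U) := fun k hk =>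
    succ_sc p (t := []) List.nil_suffix (al_strictMono (show k < 3 by omega)).le
      (aleph0_le_cd le_rfl) (count_nil.trans (aleph0_le_cd le_rfl))
  rcases h with ⟨h1, rfl⟩ | ⟨t, ht, i, hi, rfl, rfl⟩
  · obtain rfl : y = al K (n + 1) := h'.unique (by
      rcases Nat.lt_succ_iff_lt_or_eq.1 h1 with h | rfl
      · exact Or.inl ⟨by omega, rfl⟩
      · exact Or.inr ⟨[], List.nil_suffix, 0, by omega, rfl, rfl⟩)
    exact h0 n h1
  · by_cases h2 : i < 2
    · obtain rfl : y = sc (sc^[i] (top t)) := h'.unique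
        (Or.inr ⟨t, ht, i + 1, by omega, by omega, (Function.iterate_succ_apply' _ _ _).symm⟩)
      have h3 : top t ≤ sc^[i] (top t) ∧ sc^[i] (top t) ≤ nu t := by
        interval_cases i
        exacts [⟨le_rfl, (lt_sc _).le⟩, ⟨(lt_sc _).le, le_rfl⟩]
      exact succ_sc p ht h3.2 ((cd_top_inf t).trans (cd_mono h3.1))
        ((count_le p ht).trans (cd_mono h3.1))
    · obtain rfl : i = 2 := by omega
      rcases h' with ⟨h3, -⟩ | ⟨t', ht', i', hi', h3, rfl⟩
      · omega
      · obtain ⟨e1, rfl⟩ : t'.length = t.length + 1 ∧ i' = 0 := by omega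
        rcases t' with _ | ⟨β, t'⟩
        · simp at e1
        · obtain rfl : t' = t := (List.suffix_of_suffix_length_le ((List.suffix_cons _ _).trans ht')
            ht (by simpa using e1.le)).eq_of_length (by simpa using e1)
          rw [Function.iterate_zero_apply, top_cons_of_G (p.stem β t' ht').1]
          exact succ_col p ht'

variable (K) in
/-- the name of the sequence of the `ℵ_n` -/
noncomputable def aName : Name (PP K) :=
  graphName (ι := {x : PP K × ULift.{u} ℕ × K // AlR x.1.s x.2.1.down x.2.2})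
    (fun x => natName x.1.2.1.down) (fun x => ordName x.1.2.2) fun x => x.1.1

theorem AlR.app {p : PP K} {n : ℕ} {x : K} (h : AlR p.s n x) :
    Forces p fun U => App Mod.mem ((aName K).val U) ((natName n).val U) ((ordName x).val U) :=
  forces_app_graph (ι := {x : PP K × ULift.{u} ℕ × K // AlR x.1.s x.2.1.down x.2.2})
    ⟨(p, ⟨n⟩, x), h⟩ le_rfl

theorem forces_forall_aName {Φ : ∀ U : Gen (PP K), Mod U → Mod U → Prop}
    [∀ a b : Name (PP K), Clopen fun U => Φ U (a.val U) (b.val U)] {p : PP K}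
    (h : ∀ q ≤ p, ∀ n x, AlR q.s n x →
      ∃ r ≤ q, Forces r fun U => Φ U ((natName n).val U) ((ordName x).val U)) :
    Forces p fun U => ∀ x y, App Mod.mem ((aName K).val U) x y → Φ U x y :=
  forces_forall_app_graph fun i q hq hi => h q hq _ _ (i.2.mono (stem_le hi))

theorem isAleph_aName (U : Gen (PP K)) : IsAleph Mod.mem ((aName K).val U) (omegaName.val U) := by
  refine ⟨of_forces_all (Φ := fun U => IsFunOn Mod.mem ((aName K).val U) (omegaName.val U)
    fun _ => True) (fun p => ⟨p, le_rfl, forces_isFunOn_graph (V := fun _ _ => True)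
      (fun i q _ _ => ⟨q, le_rfl, Forces.of_forall (fun U => ⟨natName_mem_omega _ U, trivial⟩) q⟩)
      (fun n q _ _ => ?_) fun i j q _ hi hj h => ⟨q, le_rfl, Forces.of_forall (fun _ => ?_) q⟩⟩) U,
    fun z hz => ?_, fun n n' x y h1 h2 h3 => ?_⟩
  · obtain ⟨r, hr, h⟩ := exists_long q n.down
    obtain ⟨x, hx⟩ := exists_AlR h
    exact ⟨r, hr, ⟨(r, n, x), hx⟩, le_rfl, Forces.of_forall (fun _ => rfl) r⟩
  · rw [(i.2.mono (stem_le hi)).unique (h.natName_inj ▸ j.2.mono (stem_le hj))]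
  · rw [eq_natName_zero hz, ← ordName_al0 (K := K)]
    exact of_forces_all (Φ := fun U => App Mod.mem ((aName K).val U) ((natName 0).val U)
      ((ordName (al K 0)).val U)) (fun p => ⟨p, le_rfl, AlR.app (Or.inl ⟨by omega, rfl⟩)⟩) U
  · refine of_forces_all (Φ := fun U => ∀ n x, App Mod.mem ((aName K).val U) n x →
      ∀ n' y, App Mod.mem ((aName K).val U) n' y → IsSucc Mod.mem n' n → IsSuccCard Mod.mem y x)
      (fun p => ⟨p, le_rfl, forces_forall_aName fun q _ n x h => ⟨q, le_rfl, forces_forall_aName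
        fun r hr n' y h' => ⟨r, le_rfl, forces_imp fun s hs e => ⟨s, le_rfl, ?_⟩⟩⟩⟩) U n x h2 n' y h3 h1
    obtain rfl := (e.imp fun U h => eq_natName_succ h).natName_inj
    exact ((h.mono (stem_le hr)).succ h').mono hs

theorem isSupRange_aName (U : Gen (PP K)) :
    IsSupRange Mod.mem ((typeName K).val U) ((aName K).val U) := fun z => by
  constructor
  · refine of_forces_all (Φ := fun U => ∀ z, Mod.mem z ((typeName K).val U) →
      ∃ n y, App Mod.mem ((aName K).val U) n y ∧ Mod.mem z y)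
      (fun p => ⟨p, le_rfl, forces_forall_mem_fam fun x q _ => ?_⟩) U z
    obtain ⟨r, hr, β, hβ, e, -⟩ := exists_ext q (ae_gt x)
    exact ⟨r, hr, (AlR.app (Or.inr ⟨r.s, List.suffix_refl _, 0, by omega, rfl, rfl⟩)).imp
      fun U h => ⟨_, _, h, ordName_mem (hβ.trans_le (le_top_of_mem (by simp [e]))) U⟩⟩
  · rintro ⟨n, y, h1, h2⟩
    exact of_forces_all (Φ := fun U => ∀ n y, App Mod.mem ((aName K).val U) n y →
      ∀ z, Mod.mem z y → Mod.mem z ((typeName K).val U))
      (fun p => ⟨p, le_rfl, forces_forall_aName fun q _ n x _ => ⟨q, le_rfl, Forces.of_forall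
        (forall_mem_ordName (Φ := fun U z => Mod.mem z ((typeName K).val U))
          fun y _ U => ordName_mem_typeName y U) q⟩⟩) U n y h1 z h2

theorem no_cofinal (p : PP K) {ι : Type u} (hι : #ι ≤ cd (al K 3)) (A : ι → Name (PP K)) {d : K}
    (hb : ∀ g : ι → K, (∀ i, g i < d) → ∃ z < d, ∀ i, g i < z) :
    Forces p fun U => ¬ ∃ f, Cofinal Mod.mem f ((fam A).val U) ((ordName d).val U) := by
  refine forces_not_iff.2 fun q _ h => ?_
  obtain ⟨f, hf⟩ := Forces.exists_name h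
  obtain ⟨r, hr, h1⟩ := decide_all q hι (sc d) (fun i y r => (y < d ∧ Forces r fun U =>
      App Mod.mem (f.val U) ((A i).val U) ((ordName y).val U)) ∨ ∀ r' ≤ r, ¬ r' ≤ q)
    fun i r => by
      by_cases h : ∃ r' ≤ r, r' ≤ q
      · obtain ⟨r', h1, h2⟩ := h
        obtain ⟨s, hs, y, hy, h3⟩ := exists_app_ord (x := A i)
          ((hf.mono h2).imp fun U h => ⟨_, h.1, mem_fam A i U⟩)
        exact ⟨s, hs.trans h1, y, hy.trans (lt_sc _), fun s' hs' =>
          ⟨s', le_rfl, Or.inl ⟨hy, h3.mono hs'⟩⟩⟩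
      · exact ⟨r, le_rfl, d, lt_sc _, fun s hs => ⟨s, le_rfl, Or.inr fun s' hs' e =>
          h ⟨s', hs'.trans hs, e⟩⟩⟩
  choose g hg using h1
  have h2 : ∀ i, ∀ s ≤ r, ∃ s' ≤ s, g i < d ∧ Forces s' fun U =>
      App Mod.mem (f.val U) ((A i).val U) ((ordName (g i)).val U) := fun i s hs => by
    obtain ⟨s', hs', h⟩ := hg i s hs
    exact ⟨s', hs', h.resolve_right fun h => h s' le_rfl (hs'.trans (hs.trans hr))⟩
  obtain ⟨z, hz, h3⟩ := hb g fun i => (h2 i r le_rfl).elim fun _ h => h.2.1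
  have h4 : Forces r fun U => ∀ x, Mod.mem x ((fam A).val U) →
      ∃ y, App Mod.mem (f.val U) x y ∧ Mod.mem y ((ordName z).val U) :=
    forces_forall_mem_fam fun i s hs => (h2 i s hs).imp fun s' h =>
      ⟨h.1, h.2.2.imp fun U h => ⟨_, h, ordName_mem (h3 i) U⟩⟩
  obtain ⟨U, g1, g2⟩ := ((hf.mono hr).and h4).exists
  obtain ⟨i, y, k1, k2⟩ := g1.2 _ (ordName_mem hz U)
  obtain ⟨y', k3, k4⟩ := g2 i ((isZFC U).app_val g1.1 k1).1
  obtain rfl := g1.1.2.2 _ _ _ k1 k3
  rcases k2 with k2 | k2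
  · exact Mod.not_mem_self _ (forall_mem_ordName (Φ := fun U y => IsSub Mod.mem y ((ordName z).val U))
      (fun w hw U => ordName_sub hw.le U) U y k4 _ k2)
  · exact Mod.not_mem_self _ (k2 ▸ k4)

theorem isCof_omega {f : ℕ → K} (hf : StrictMono f) {d : K} (hd : ∀ x, x < d ↔ ∃ i, x < f i)
    (U : Gen (PP K)) : IsCof Mod.mem ((ordName d).val U) (omegaName.val U) := by
  refine ⟨cofinal_funName (fun n : ULift.{u} ℕ => natName n.down) (fun n => f n.down)
    (fun n => (hd _).2 ⟨_, hf (Nat.lt_succ_self _)⟩) (fun x hx => ((hd x).1 hx).elim fun i h => ⟨⟨i⟩, h⟩)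
    (fun i j U h => ULift.ext _ _ (natName_inj h)) U,
    forall_mem_omega (Φ := fun (U : Gen (PP K)) b => ¬ ∃ f, Cofinal Mod.mem f b ((ordName d).val U))
      (fun n => ?_) U⟩
  refine of_forces_all fun p => ⟨p, le_rfl, ?_⟩
  rw [natName.eq_1 n]
  refine no_cofinal p (mk_le_aleph0.trans (aleph0_le_cd le_rfl)) _
    fun g hg => ?_
  choose k hk using fun i => (hd _).1 (hg i)
  obtain ⟨m, hm⟩ := (Set.finite_range k).bddAbove
  exact ⟨f m, (hd _).2 ⟨_, hf (Nat.lt_succ_self _)⟩,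
    fun i => (hk i).trans_le (hf.monotone (hm ⟨i, rfl⟩))⟩

theorem isCof_al1 {f : Iio (al K 1) → K} (hf : StrictMono f) {d : K}
    (hd : ∀ x, x < d ↔ ∃ i, x < f i) (U : Gen (PP K)) :
    IsCof Mod.mem ((ordName d).val U) ((ordName (al K 1)).val U) := by
  have h1 : ∀ i, f i < d := fun i => by
    obtain ⟨k, hk, h, -⟩ := exists_gt_al1 i.2 i.2
    exact (hd _).2 ⟨⟨k, hk⟩, hf h⟩
  refine ⟨?_, forall_mem_ordName (Φ := fun (U : Gen (PP K)) b => ¬ ∃ f, Cofinal Mod.mem f b ((ordName d).val U))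
      (fun b hb => ?_) U⟩
  · rw [ordName_eq (al K 1)]
    exact cofinal_funName _ f h1 (fun x => (hd x).1)
      (fun i j U h => Subtype.ext (ordName_inj h)) U
  · refine of_forces_all fun p => ⟨p, le_rfl, ?_⟩
    rw [ordName_eq b]
    refine no_cofinal p (cd_mono (hb.trans (al_strictMono (by omega))).le) _ fun g hg => ?_
    choose k hk using fun i => (hd _).1 (hg i)
    obtain ⟨z, z1, z2⟩ := bdd_sc (x := al K 0) aleph0_le_al0 (S := range fun i => (k i).1)
      (mk_range_le.trans (cd_le_of_lt_sc hb)) (by rintro _ ⟨i, rfl⟩; exact (k i).2)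
    exact ⟨f ⟨z, z1⟩, h1 _, fun i => (hk i).trans (hf (z2 _ ⟨i, rfl⟩))⟩

/-- the name of the set described by `NV` below `q` -/
noncomputable def nName (q : PP K) (NV : List K → K → Prop) : Name (PP K) :=
  .mk {x : PP K × K // x.1 ≤ q ∧ NV x.1.s x.2} (fun x => ordName x.1.2) fun x => x.1.1

theorem Cf.sup {ι : Type*} [Preorder ι] {q p : PP K} {NV : List K → K → Prop}
    (hN : ∀ s s' x, s <:+ s' → NV s x → NV s' x) {t : List K} {ν : K} (h : Cf ι q NV t ν)
    (hp : p ≤ q) (ht : t <:+ p.s) : ∃ f : ι → K, StrictMono f ∧ ∃ d < ν,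
      (∀ x, x < d ↔ ∃ i, x < f i) ∧ Forces p fun U =>
        IsSupBelow Mod.mem ((ordName d).val U) ((nName q NV).val U) ((ordName ν).val U) := by
  obtain ⟨f, h1, ⟨z, z1, z2⟩, h2⟩ := h
  obtain ⟨d, d1, d2⟩ := (wellFounded_lt (α := K)).has_min {x | ∀ i, f i ≤ x} ⟨z, fun i => (z2 i).le⟩
  have hd : ∀ x, x < d ↔ ∃ i, x < f i := fun x =>
    ⟨fun hx => by simpa using fun h => d2 x h hx, fun ⟨i, hi⟩ => hi.trans_le (d1 i)⟩
  refine ⟨f, h1, d, (not_lt.1 (d2 z fun i => (z2 i).le)).trans_lt z1, hd, ?_⟩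
  have g1 : Forces p fun U => ∀ x, Mod.mem x ((ordName d).val U) → ∃ y,
      Mod.mem y ((nName q NV).val U) ∧ Mod.mem y ((ordName ν).val U) ∧ Mod.mem x y := by
    rw [ordName_eq d]
    refine forces_forall_mem_fam fun x r hr => ?_
    obtain ⟨i, hi⟩ := (hd x.1).1 x.2
    obtain ⟨s, hs, h3⟩ := (h2 r (hr.trans hp) (ht.trans (stem_le hr))).2 i
    exact ⟨s, hs, (forces_el_mem (b := nName q NV) ⟨(s, f i), hs.trans (hr.trans hp), h3⟩
      le_rfl).imp fun U h => ⟨_, h, ordName_mem ((z2 i).trans z1) U, ordName_mem hi U⟩⟩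
  have g2 : Forces p fun U => ∀ y, Mod.mem y ((nName q NV).val U) →
      Mod.mem y ((ordName ν).val U) → IsSub Mod.mem y ((ordName d).val U) :=
    forces_forall_mem fun y r hr hy => ⟨r, le_rfl, Forces.of_forall (fun U h => ordName_sub
      ((hd _).2 ((h2 r (hr.trans hp) (ht.trans (stem_le hr))).1 _ (ordName_mem_iff.1 h)
        (hN _ _ _ (stem_le hy) y.2.2))).le U) r⟩
  exact (g1.and g2).imp fun U h x => ⟨h.1 x, fun ⟨y, k1, k2, k3⟩ => h.2 y k1 k2 x k3⟩

/-- `F` is a counterexample to mutual stationarity -/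
def Bad (U : Gen (PP K)) (F : Lib.PosetForcing.Mod U) : Prop :=
  IsAlg Mod.mem F ((typeName K).val U) (omegaName.val U) ∧
    ∀ N, ¬ (IsSub Mod.mem N ((typeName K).val U) ∧ Closed Mod.mem N F (omegaName.val U) ∧
      ∀ n x, App Mod.mem ((aName K).val U) n x → Mod.mem ((ordName (al K 1)).val U) x →
        ∃ d, IsSupBelow Mod.mem d N x ∧ Mod.mem d x ∧
          (Mod.mem n (eName.val U) → IsCof Mod.mem d (omegaName.val U)) ∧
          (¬ Mod.mem n (eName.val U) → IsCof Mod.mem d ((ordName (al K 1)).val U)))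

instance (a : Name (PP K)) : Clopen fun U => Bad U (a.val U) := by
  unfold Bad; infer_instance

theorem exists_mutStat : ∃ U : Gen (PP K), MutStat Mod.mem (omegaName.val U)
    ((ordName (al K 1)).val U) ((aName K).val U) ((typeName K).val U) (eName.val U) := by
  by_contra hcon
  simp only [MutStat, not_exists, not_forall, exists_prop] at hcon
  obtain ⟨F, hF⟩ := max_principle (Bad (K := K))
  replace hF := fun U => hF U (hcon U)
  obtain ⟨q, NV, h1, h2, h3⟩ := main_comb (E := fun j xs y p => Forces p fun U => ∃ g,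
      App Mod.mem (F.val U) ((natName j).val U) g ∧
        App Mod.mem g ((sq (al K 0) xs).val U) ((ordName y).val U))
    (fun _ _ _ _ _ e h => h.mono e) fun j xs p => by
      obtain ⟨g, hg⟩ := Forces.exists_name
        (Φ := fun U g => App Mod.mem (F.val U) ((natName j).val U) g)
        (Forces.of_forall (fun U => (hF U).1.2.1 _ (natName_mem_omega j U)) p)
      obtain ⟨r, hr, x, -, h⟩ := exists_app_el (f := g) (x := sq (al K 0) xs) (b := typeName K)
        (hg.imp fun U h => ((isZFC U).app_val (hF U).1 h).2.imp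
          fun Q h => ⟨h.2, (h.1 _).2 (isSeq_sq _ xs U)⟩)
      exact ⟨r, hr, x, ((hg.mono hr).and h).imp fun U h => ⟨_, h⟩⟩
  obtain ⟨U, hU⟩ := exists_gen q
  refine (hF U).2 ((nName q NV).val U) ⟨forall_mem (Φ := fun U x => Mod.mem x ((typeName K).val U))
    (fun i r _ => ⟨r, le_rfl, Forces.of_forall (ordName_mem_typeName _) r⟩) U, ?_, ?_⟩
  · refine (show Forces q fun U => Closed Mod.mem ((nName q NV).val U) (F.val U) (omegaName.val U)
      from ?_) U hU
    refine forces_forall fun i => forces_forall fun g => forces_forall fun s =>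
      forces_forall fun y => forces_imp fun r hr g1 => ⟨r, le_rfl, forces_imp fun r1 hr1 g2 =>
        ⟨r1, le_rfl, forces_imp fun r2 hr2 g3 => ?_⟩⟩
    obtain ⟨r3, hr3, ⟨j⟩, g4⟩ := ((g1.mono (hr2.trans hr1)).imp
      fun U h => ((isZFC U).app_val (hF U).1 h).1).exists_fam
    obtain ⟨r4, hr4, xs, g5, g6⟩ := decide_seq (al K 0) _ _ (g2.mono (hr3.trans hr2))
    have e4 : r4 ≤ q := hr4.trans (hr3.trans (hr2.trans (hr1.trans hr)))
    obtain ⟨r5, hr5, z, g7, g8⟩ := h2 r4 e4 j xs fun x hx => by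
      obtain ⟨i, rfl, hi⟩ := g5 x hx
      exact h1 _ _ _ (stem_le hi) i.2.2
    have e5 : r5 ≤ r2 := hr5.trans (hr4.trans hr3)
    refine ⟨r5, e5, fun U hU => ?_⟩
    obtain ⟨g', k1, k2⟩ := g8 U hU
    have k3 := g1.mono (e5.trans (hr2.trans hr1)) U hU
    have k4 := g3.mono e5 U hU
    beta_reduce at k3 k4
    rw [g4.mono (hr5.trans hr4) U hU] at k3
    rw [g6.mono hr5 U hU, (hF U).1.2.2 _ _ _ k3 k1] at k4
    obtain ⟨Q, -, k5⟩ := ((isZFC U).app_val (hF U).1 k1).2
    rw [k5.2.2 _ _ _ k4 k2]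
    exact forces_el_mem (b := nName q NV) ⟨(r5, z), hr5.trans e4, g7⟩ le_rfl U hU
  · refine forces_forall_aName (Φ := fun U n x => Mod.mem ((ordName (al K 1)).val U) x →
        ∃ d, IsSupBelow Mod.mem d ((nName q NV).val U) x ∧ Mod.mem d x ∧
          (Mod.mem n (eName.val U) → IsCof Mod.mem d (omegaName.val U)) ∧
          (¬ Mod.mem n (eName.val U) → IsCof Mod.mem d ((ordName (al K 1)).val U)))
      (fun p hp n x h => ⟨p, le_rfl, ?_⟩) U hU
    rcases h with ⟨g1, rfl⟩ | ⟨t, ht, i, hi, rfl, rfl⟩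
    · exact Forces.of_forall (fun U h => absurd (al_strictMono.lt_iff_lt.1 (ordName_mem_iff.1 h))
        (by omega)) p
    · have g1 : ∀ ε, i ≠ 0 → sc^[i] (top t) = sc (ph ε (top t)) → Forces p fun U =>
          Mod.mem ((ordName (al K 1)).val U) ((ordName (sc^[i] (top t))).val U) →
          ∃ d, IsSupBelow Mod.mem d ((nName q NV).val U) ((ordName (sc^[i] (top t))).val U) ∧
          Mod.mem d ((ordName (sc^[i] (top t))).val U) ∧
          (Mod.mem ((natName (3 * t.length + 2 + i)).val U) (eName.val U) →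
            IsCof Mod.mem d (omegaName.val U)) ∧
          (¬ Mod.mem ((natName (3 * t.length + 2 + i)).val U) (eName.val U) →
            IsCof Mod.mem d ((ordName (al K 1)).val U)) := fun ε h0 e => by
        obtain ⟨f, f1, d, d1, d2, d3⟩ := ((h3 p hp t ht).2 ε).sup h1 hp ht
        rw [e]
        exact d3.imp fun U h _ => ⟨_, h, ordName_mem d1 U,
          fun h => absurd ((natName_mem_e _ U).1 h) (by omega), fun _ => isCof_al1 f1 d2 U⟩
      interval_cases i
      · obtain ⟨f, f1, d, d1, d2, d3⟩ := (h3 p hp t ht).1.sup h1 hp ht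
        exact d3.imp fun U h _ => ⟨_, h, ordName_mem d1 U, fun _ => isCof_omega f1 d2 U,
          fun h => absurd ((natName_mem_e _ U).2 (by omega)) h⟩
      · exact g1 false (by omega) rfl
      · exact g1 true (by omega) rfl

theorem isSuccCard_al1 (U : Gen (PP K)) :
    IsSuccCard Mod.mem ((ordName (al K 1)).val U) (omegaName.val U) := by
  rw [← ordName_al0 (K := K)]
  exact of_forces_all (Φ := fun U => IsSuccCard Mod.mem ((ordName (al K 1)).val U)
    ((ordName (al K 0)).val U)) (fun p => ⟨p, le_rfl, AlR.succ (n := 0)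
      (Or.inl ⟨by omega, rfl⟩) (Or.inl ⟨by omega, rfl⟩)⟩) U

end Pool.Agent.P.MP_2e9c36_lc
end

-- part Pool.Agent.P.MP_2e9c36_lc.Normal
section

set_option autoImplicit false
set_option linter.unusedSectionVars false

/-! A measurable cardinal carries a normal measure. -/

open Cardinal Set Filter

namespace Pool.Agent.P.MP_2e9c36_lc

universe u

theorem exists_normal {K : Type u} [LinearOrder K] [WellFoundedLT K] (W : Ultrafilter K)
    (unc : ℵ₀ < #K) (small : ∀ x : K, #(Iio x) < #K)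
    (comp : ∀ (ι : Type u) (S : ι → Set K), #ι < #K → (∀ i, S i ∈ W) → (⋂ i, S i) ∈ W)
    (np : ∀ x, {x} ∉ W) : Nonempty (NM K) := by
  have hwf : WellFounded fun f g : K → K => {x | f x < g x} ∈ W := by
    rw [wellFounded_iff_isEmpty_descending_chain]
    refine ⟨fun ⟨f, hf⟩ => ?_⟩
    obtain ⟨x, hx⟩ := Ultrafilter.nonempty_of_mem
      (comp (ULift.{u} ℕ) (fun n => {x | f (n.down + 1) x < f n.down x}) (by simpa using unc)
        fun n => hf n.down)
    exact (wellFounded_iff_isEmpty_descending_chain.1 (wellFounded_lt (α := K))).false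
      ⟨fun n => f n x, fun n => mem_iInter.1 hx ⟨n⟩⟩
  obtain ⟨f, hf, hmin⟩ := hwf.has_min {f | ∀ c, {x | f x = c} ∉ W} ⟨id, np⟩
  refine ⟨⟨W.map f, unc, small, fun ι S hι hS => ?_, fun x => ?_, fun g hg => ?_⟩⟩
  · rw [Ultrafilter.mem_map, preimage_iInter]
    exact comp ι _ hι hS
  · rw [Ultrafilter.mem_map]
    have h1 := comp (Iio x) (fun c => {y | f y = c}ᶜ) (small x)
      fun c => Ultrafilter.compl_mem_iff_notMem.2 (hf c)
    filter_upwards [h1, Ultrafilter.compl_mem_iff_notMem.2 (hf x)] with y h2 h3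
    rcases lt_trichotomy x (f y) with h | h | h
    · exact h
    · exact absurd h.symm h3
    · exact absurd rfl (mem_iInter.1 h2 ⟨f y, h⟩)
  · by_contra hcon
    rw [not_exists] at hcon
    exact hmin (g ∘ f) hcon hg

theorem exists_NM (X : Type u) (W : Ultrafilter X) (unc : ℵ₀ < #X)
    (comp : ∀ S : Set (Set X), #S < #X → (∀ s ∈ S, s ∈ W) → ⋂₀ S ∈ W)
    (np : ∀ x, {x} ∉ W) : Nonempty (NM (#X).ord.ToType) := by
  obtain ⟨e⟩ := Cardinal.eq.1 (mk_ord_toType #X).symm
  refine exists_normal (W.map e) (by simpa using unc)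
    (fun x => by simpa using mk_Iio_toType_ord_lt x) (fun ι S hι hS => ?_) fun x hx => ?_
  · rw [Ultrafilter.mem_map, preimage_iInter, ← sInter_range]
    refine comp _ (mk_range_le.trans_lt (by simpa using hι)) ?_
    rintro _ ⟨i, rfl⟩
    exact hS i
  · rw [Ultrafilter.mem_map] at hx
    refine np (e.symm x) (Filter.mem_of_superset hx fun y hy => ?_)
    rw [mem_singleton_iff, ← (show e y = x from hy), Equiv.symm_apply_apply]

end Pool.Agent.P.MP_2e9c36_lc
end
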